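import Pool.Agent.R521.GG.Stms

set_option autoImplicit false

/-!
# GG-A: the structure of a graph among any `K` vertices of which two have distance at most `r`
-/

namespace Pool.Agent.R521.GG

open SimpleGraph

theorem t_graph : S_graph := by
  intro V _ G K r hK h
  constructor
  · by_contra hcon
    push Not at hcon
    classical
    have : Finite G.ConnectedComponent := Quot.finite _
    cases nonempty_fintype G.ConnectedComponent
    rw [Nat.card_eq_fintype_card] at hcon
    have hcard : Fintype.card (Fin K) ≤ Fintype.card G.ConnectedComponent := by
      rw [Fintype.card_fin]; exact hcon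
    obtain ⟨e⟩ := Function.Embedding.nonempty_of_card_le hcard
    have hrep : ∀ c : G.ConnectedComponent, ∃ v, G.connectedComponentMk v = c := by
      intro c
      exact c.exists_rep
    choose rep hrep using hrep
    obtain ⟨i, j, hij, w, _⟩ := h (fun i => rep (e i)) (by
      intro i j hij
      apply e.injective
      rw [← hrep (e i), ← hrep (e j)]
      exact congrArg _ hij)
    apply hij
    apply e.injective
    rw [← hrep (e i), ← hrep (e j)]
    exact ConnectedComponent.sound w.reachable
  · intro u v huv
    by_contra hcon
    push Not at hcon
    obtain ⟨w, hw⟩ := huv.exists_walk_length_eq_dist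
    have hlen : ∀ i : Fin K, (r + 1) * (i : ℕ) ≤ w.length := by
      intro i
      rw [hw]
      exact (Nat.mul_le_mul_left _ i.2.le).trans hcon
    have key : ∀ i j : Fin K, i < j → ∀ q : G.Walk (w.getVert ((r + 1) * i)) (w.getVert ((r + 1) * j)),
        r < q.length := by
      intro i j hij q
      have h1 := G.dist_le (((w.take ((r + 1) * i)).append q).append (w.drop ((r + 1) * j)))
      rw [Walk.length_append, Walk.length_append, Walk.take_length, Walk.drop_length, ← hw,
        min_eq_left (hlen i)] at h1
      have h2 := hlen j
      have h3 : (r + 1) * (i : ℕ) + (r + 1) ≤ (r + 1) * (j : ℕ) := by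
        have : (i : ℕ) + 1 ≤ j := hij
        calc (r + 1) * (i : ℕ) + (r + 1) = (r + 1) * ((i : ℕ) + 1) := by ring
          _ ≤ _ := Nat.mul_le_mul_left _ this
      omega
    have key2 : ∀ i j : Fin K, i ≠ j → ∀ q : G.Walk (w.getVert ((r + 1) * i)) (w.getVert ((r + 1) * j)),
        r < q.length := by
      intro i j hij q
      rcases lt_or_gt_of_ne hij with h1 | h1
      · exact key i j h1 q
      · have := key j i h1 q.reverse
        rwa [Walk.length_reverse] at this
    obtain ⟨i, j, hij, q, hq⟩ := h (fun i : Fin K => w.getVert ((r + 1) * i)) (by
      intro i j hij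
      by_contra hne
      have h1 := key2 i j hne (Walk.nil.copy rfl hij)
      rw [Walk.length_copy, Walk.length_nil] at h1
      omega)
    have := key2 i j hij q
    omega

end Pool.Agent.R521.GG
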