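import Pool.Agent.R521.GG.Stms

set_option autoImplicit false

/-!
# GG-B: removing the vertices of small degree
-/

namespace Pool.Agent.R521.GG

open Finset

theorem R_symm (a b : ℕ) : R a b ↔ R b a := by
  unfold R
  rw [add_comm a b, Nat.dist_comm a b]

theorem R_irrefl (a : ℕ) : ¬ R a a := by
  unfold R
  rw [Nat.dist_self]
  rintro ⟨_, h, _⟩
  exact Nat.not_prime_zero h

theorem dg_union {V Y : Finset ℕ} (hY : Y ⊆ V) (a : ℕ) : dg V a = dg (V \ Y) a + dg Y a := by
  unfold dg
  rw [← card_union_of_disjoint]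
  · rw [← filter_union, sdiff_union_of_subset hY]
  · exact disjoint_filter_filter sdiff_disjoint

theorem dg_mono {Y Z : Finset ℕ} (h : Y ⊆ Z) (a : ℕ) : dg Y a ≤ dg Z a :=
  card_le_card (filter_subset_filter _ h)

theorem t_peel : S_peel := by
  classical
  intro V E w D hD hE hw hdeg hY
  -- the family
  set F : Finset (Finset ℕ) := V.powerset.filter (fun Y => E ⊆ Y ∧ Y.card ≤ 2 * E.card ∧
    D * ((Y.card : ℝ) - E.card) ≤ ∑ a ∈ Y, (dg Y a : ℝ)) with hF
  have hFne : F.Nonempty := by
    refine ⟨E, ?_⟩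
    rw [hF, mem_filter, mem_powerset]
    refine ⟨hE, subset_rfl, by omega, ?_⟩
    rw [sub_self, mul_zero]
    exact sum_nonneg fun _ _ => Nat.cast_nonneg _
  obtain ⟨Y, hYF, hmax⟩ := exists_max_image F card hFne
  rw [hF, mem_filter, mem_powerset] at hYF
  obtain ⟨hYV, hEY, hYc, hYs⟩ := hYF
  refine ⟨V \ Y, sdiff_subset, ?_, ?_⟩
  · rw [sdiff_sdiff_right_self, inf_eq_inter, inter_eq_right.2 hYV]
    exact hYc
  · intro a ha
    rw [mem_sdiff] at ha
    have haE : a ∉ E := fun h => ha.2 (hEY h)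
    refine ⟨haE, ?_⟩
    by_contra hcon
    push Not at hcon
    have h1 := hdeg a ha.1 haE
    have h2 : (dg V a : ℝ) = dg (V \ Y) a + dg Y a := by exact_mod_cast dg_union hYV a
    have h3 : D ≤ dg Y a := by
      have := mul_le_mul_of_nonneg_left (hw a ha.1) hD.le
      linarith
    have hsum : D * (((insert a Y).card : ℝ) - E.card) ≤ ∑ b ∈ insert a Y, (dg (insert a Y) b : ℝ) := by
      rw [card_insert_of_notMem ha.2, sum_insert ha.2]
      push_cast
      have k1 : (dg Y a : ℝ) ≤ dg (insert a Y) a := by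
        exact_mod_cast dg_mono (subset_insert a Y) a
      have k2 : ∑ b ∈ Y, (dg Y b : ℝ) ≤ ∑ b ∈ Y, (dg (insert a Y) b : ℝ) :=
        sum_le_sum fun b _ => by exact_mod_cast dg_mono (subset_insert a Y) b
      have k3 : D * ((Y.card : ℝ) + 1 - E.card) = D * ((Y.card : ℝ) - E.card) + D := by ring
      linarith
    have hVI : insert a Y ⊆ V := insert_subset ha.1 hYV
    have hEI : E ⊆ insert a Y := hEY.trans (subset_insert a Y)
    have hbig : ¬ (insert a Y).card ≤ 2 * E.card := by
      intro hle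
      have hmem : insert a Y ∈ F := by
        rw [hF, mem_filter, mem_powerset]
        exact ⟨hVI, hEI, hle, hsum⟩
      have := hmax _ hmem
      rw [card_insert_of_notMem ha.2] at this
      omega
    have hc : (insert a Y).card = 2 * E.card + 1 := by
      rw [card_insert_of_notMem ha.2] at hbig ⊢
      omega
    have h4 := hY _ hVI hc
    rw [hc] at hsum h4
    push_cast at hsum h4
    have h5 : D / 2 * (2 * (E.card : ℝ) + 1) ≤ D * (2 * (E.card : ℝ) + 1 - E.card) := by
      have : (0 : ℝ) ≤ D := hD.le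
      nlinarith
    linarith

end Pool.Agent.R521.GG
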