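import Pool.Agent.R521.GG.H2

set_option autoImplicit false

/-!
# From the halves to the graphs
-/

namespace Pool.Agent.R521.GG

open Finset

theorem bridge (hgr : S_graph) {V : Type} [Finite V] (G : SimpleGraph V) (n K : ℕ) (hK : 1 ≤ K) (X : Finset ℕ) (hX : X ⊆ Icc 1 n)
    (φ : ℕ → V) (h : V → ℕ) (hφ : ∀ m ∈ Icc 1 n, h (φ m) = m) (hinj : Function.Injective h) (hbig : ∀ v, h v ≤ n)
    (hadj : ∀ a ∈ Icc 1 n, ∀ b ∈ Icc 1 n, R a b → G.Adj (φ a) (φ b))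
    (hclose : ∀ f : Fin K → ℕ, (∀ i, f i ∈ X) → Function.Injective f → ∃ i j, i ≠ j ∧
        ∃ b₁ ∈ X, ∃ b₂ ∈ X, ∃ b₃ ∈ X, ∃ b₄ ∈ X, ∃ b₅ ∈ X,
          R (f i) b₁ ∧ R b₁ b₂ ∧ R b₂ b₃ ∧ R b₃ b₄ ∧ R b₄ b₅ ∧ R b₅ (f j)) :
    ({v | h v ∈ X} : Set V)ᶜ.ncard ≤ (Icc 1 n \ X).card + 1 ∧
    Nat.card (G.induce {v | h v ∈ X}).ConnectedComponent < K ∧
    (∀ u v, (G.induce {v | h v ∈ X}).Reachable u v → (G.induce {v | h v ∈ X}).dist u v < 7 * K) ∧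
    ∀ u, dg X (h u.1) ≤ ((G.induce {v | h v ∈ X}).neighborSet u).ncard := by
  classical
  have hφh : ∀ v, h v ∈ X → φ (h v) = v := fun v hv => hinj (hφ _ (hX hv))
  have hYφ : ∀ m ∈ X, φ m ∈ ({v | h v ∈ X} : Set V) := by
    intro m hm
    show h (φ m) ∈ X
    rw [hφ m (hX hm)]
    exact hm
  obtain ⟨g1, g2⟩ := hgr {v : V // v ∈ ({v | h v ∈ X} : Set V)} (G.induce {v | h v ∈ X}) K 6 hK (by
    intro f hf
    obtain ⟨i, j, hij, b₁, h1, b₂, h2, b₃, h3, b₄, h4, b₅, h5, r1, r2, r3, r4, r5, r6⟩ :=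
      hclose (fun i => h (f i).1) (fun i => (f i).2) (fun i j hij => hf (Subtype.ext (hinj hij)))
    refine ⟨i, j, hij, ?_⟩
    have e1 : (G.induce {v | h v ∈ X}).Adj (f i) ⟨φ b₁, hYφ b₁ h1⟩ := by
      show G.Adj (f i).1 (φ b₁)
      rw [← hφh (f i).1 (f i).2]
      exact hadj _ (hX (f i).2) _ (hX h1) r1
    have e2 : (G.induce {v | h v ∈ X}).Adj ⟨φ b₁, hYφ b₁ h1⟩ ⟨φ b₂, hYφ b₂ h2⟩ := hadj _ (hX h1) _ (hX h2) r2
    have e3 : (G.induce {v | h v ∈ X}).Adj ⟨φ b₂, hYφ b₂ h2⟩ ⟨φ b₃, hYφ b₃ h3⟩ := hadj _ (hX h2) _ (hX h3) r3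
    have e4 : (G.induce {v | h v ∈ X}).Adj ⟨φ b₃, hYφ b₃ h3⟩ ⟨φ b₄, hYφ b₄ h4⟩ := hadj _ (hX h3) _ (hX h4) r4
    have e5 : (G.induce {v | h v ∈ X}).Adj ⟨φ b₄, hYφ b₄ h4⟩ ⟨φ b₅, hYφ b₅ h5⟩ := hadj _ (hX h4) _ (hX h5) r5
    have e6 : (G.induce {v | h v ∈ X}).Adj ⟨φ b₅, hYφ b₅ h5⟩ (f j) := by
      show G.Adj (φ b₅) (f j).1
      rw [← hφh (f j).1 (f j).2]
      exact hadj _ (hX h5) _ (hX (f j).2) r6
    exact ⟨SimpleGraph.Walk.cons e1 (SimpleGraph.Walk.cons e2 (SimpleGraph.Walk.cons e3 (SimpleGraph.Walk.cons e4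
      (SimpleGraph.Walk.cons e5 (SimpleGraph.Walk.cons e6 SimpleGraph.Walk.nil))))), le_rfl⟩)
  refine ⟨?_, g1, fun u v huv => ?_, fun u => ?_⟩
  · have h1 : h '' ({v | h v ∈ X} : Set V)ᶜ ⊆ ((insert 0 (Icc 1 n \ X) : Finset ℕ) : Set ℕ) := by
      rintro m ⟨v, hv, rfl⟩
      have hv' : h v ∉ X := hv
      rw [coe_insert, Set.mem_insert_iff, mem_coe, mem_sdiff, mem_Icc]
      have := hbig v
      rcases Nat.eq_zero_or_pos (h v) with h0 | h0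
      · exact Or.inl h0
      · exact Or.inr ⟨⟨h0, this⟩, hv'⟩
    rw [← Set.ncard_image_of_injective _ hinj]
    refine (Set.ncard_le_ncard h1 (Finset.finite_toSet _)).trans ?_
    rw [Set.ncard_coe_finset]
    exact card_insert_le _ _
  · have := g2 u v huv
    omega
  · have hsub : ((X.filter (fun b => R (h u.1) b) : Finset ℕ) : Set ℕ) ⊆
        (fun v : {v : V // v ∈ ({v | h v ∈ X} : Set V)} => h v.1) '' ((G.induce {v | h v ∈ X}).neighborSet u) := by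
      intro m hm
      rw [mem_coe, mem_filter] at hm
      refine ⟨⟨φ m, hYφ m hm.1⟩, ?_, hφ m (hX hm.1)⟩
      show G.Adj u.1 (φ m)
      rw [← hφh u.1 u.2]
      exact hadj _ (hX u.2) _ (hX hm.1) hm.2
    unfold dg
    rw [← Set.ncard_coe_finset]
    refine (Set.ncard_le_ncard hsub (Set.toFinite _)).trans ?_
    exact Set.ncard_image_le (Set.toFinite _)

end Pool.Agent.R521.GG
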