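import Pool.Agent.R521.GG.Stms2
import Pool.Agent.R463.ChenG

/-! Pieces GG2-F and GG2-G: the degrees from Chen's theorem. -/

set_option autoImplicit false

namespace Pool.Agent.R521.GG

open Finset
open Pool.Agent.R463.CG (nu Sys V G chen)

/-- no forbidden classes -/
def F0 : ℕ → Finset ℤ := fun _ => ∅

lemma nu_le {e N : ℤ} (he : e * e = 1) {q : ℕ} (hq : q.Prime) :
    nu e N F0 q ≤ if (q : ℤ) ∣ N then 1 else 2 := by
  have hq0 : 0 < q := hq.pos
  have h1 : ((range q).filter (fun m : ℕ => (q : ℤ) ∣ (m : ℤ))).card ≤ 1 := by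
    refine card_le_one.2 ?_
    intro x hx y hy
    rw [mem_filter, mem_range] at hx hy
    have hx2 : q ∣ x := Int.natCast_dvd_natCast.1 hx.2
    have hy2 : q ∣ y := Int.natCast_dvd_natCast.1 hy.2
    rw [Nat.eq_zero_of_dvd_of_lt hx2 hx.1, Nat.eq_zero_of_dvd_of_lt hy2 hy.1]
  have key : ∀ z : ℤ, (q : ℤ) ∣ e * z → (q : ℤ) ∣ z := by
    intro z hz
    have : z = e * (e * z) := by rw [← mul_assoc, he, one_mul]
    rw [this]
    exact dvd_mul_of_dvd_right hz _
  have h2 : ((range q).filter (fun m : ℕ => (q : ℤ) ∣ e * m + N)).card ≤ 1 := by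
    refine card_le_one.2 ?_
    intro x hx y hy
    rw [mem_filter, mem_range] at hx hy
    have h3 : (q : ℤ) ∣ (x : ℤ) - y := by
      apply key
      have h4 := dvd_sub hx.2 hy.2
      have h5 : e * (x : ℤ) + N - (e * y + N) = e * ((x : ℤ) - y) := by ring
      rwa [h5] at h4
    have h6 : (x : ℤ) - y = 0 := by
      refine Int.eq_zero_of_abs_lt_dvd h3 ?_
      rw [abs_lt]
      constructor <;> omega
    omega
  unfold nu F0
  split_ifs with hN
  · refine le_trans (card_le_card ?_) h1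
    intro m hm
    rw [mem_filter] at hm ⊢
    refine ⟨hm.1, ?_⟩
    rcases hm.2 with h | h | ⟨a, ha, _⟩
    · exact h
    · exact key _ ((dvd_add_left hN).1 h)
    · simp at ha
  · calc _ ≤ (((range q).filter (fun m : ℕ => (q : ℤ) ∣ (m : ℤ))) ∪
        ((range q).filter (fun m : ℕ => (q : ℤ) ∣ e * m + N))).card := by
          refine card_le_card ?_
          intro m hm
          rw [mem_filter] at hm
          rw [mem_union, mem_filter, mem_filter]
          rcases hm.2 with h | h | ⟨a, ha, _⟩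
          · exact Or.inl ⟨hm.1, h⟩
          · exact Or.inr ⟨hm.1, h⟩
          · simp at ha
      _ ≤ _ + _ := card_union_le _ _
      _ ≤ 2 := by omega

lemma sys0 {e N : ℤ} (he : e * e = 1) (hN : (2 : ℤ) ∣ N) : Sys 0 e N F0 := by
  intro q hq
  refine ⟨le_of_eq rfl, ?_⟩
  have h := nu_le (N := N) he hq
  by_cases h2 : q = 2
  · subst h2
    rw [if_pos (by exact_mod_cast hN)] at h
    omega
  · have h3 : 2 ≤ q := hq.two_le
    have : nu e N F0 q ≤ 2 := by
      split_ifs at h <;> omega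
    omega

lemma V_ge {e N : ℤ} (he : e * e = 1) {a X : ℕ} (hN : ∀ q : ℕ, (q : ℤ) ∣ N ↔ q ∣ 2 * a) :
    ∏ q ∈ (Icc 1 X).filter Nat.Prime, (1 - ((if q ∣ 2 * a then 1 else 2 : ℕ) : ℝ) / q) ≤
      V e N F0 X := by
  unfold V
  refine prod_le_prod ?_ ?_
  · intro q hq
    have hp := (mem_filter.1 hq).2
    have h2 : (2 : ℝ) ≤ q := by exact_mod_cast hp.two_le
    have h3 : ((if q ∣ 2 * a then 1 else 2 : ℕ) : ℝ) ≤ 2 := by
      split_ifs <;> norm_num
    rw [sub_nonneg, div_le_one (by linarith)]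
    linarith
  · intro q hq
    have hp := (mem_filter.1 hq).2
    have h2 : (0 : ℝ) < q := by exact_mod_cast hp.pos
    have h := nu_le (N := N) he hp
    simp only [hN q] at h
    have h' : (nu e N F0 q : ℝ) ≤ ((if q ∣ 2 * a then 1 else 2 : ℕ) : ℝ) := by exact_mod_cast h
    have h4 : (nu e N F0 q : ℝ) / q ≤ ((if q ∣ 2 * a then 1 else 2 : ℕ) : ℝ) / q :=
      div_le_div_of_nonneg_right h' h2.le
    linarith

lemma wt_nonneg (a : ℕ) : 0 ≤ wt a := by
  unfold wt
  positivity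

/-- the lower bound for one sign -/
lemma chen_sign (hv : S_prodV) (e : ℤ) (he : e * e = 1) : ∃ t : ℕ, 1 ≤ t ∧ ∃ δ : ℝ, 0 < δ ∧
    ∃ n₀ : ℕ, ∀ n : ℕ, n₀ ≤ n → ∀ a ∈ Icc 1 n, ∀ N : ℤ, (∀ q : ℕ, (q : ℤ) ∣ N ↔ q ∣ 2 * a) →
      N ≠ 0 → |N| ≤ 2 * n → ∀ A B : ℕ, B ≤ 2 * n → (n : ℝ) / 4 ≤ (B : ℝ) - A →
      δ * wt a * LL n ≤ ((G e N t (2 * n) A B F0).card : ℝ) := by
  obtain ⟨c₂, hc₂, hV⟩ := hv
  obtain ⟨t, ht, c, hc, H, _⟩ := chen e he 0
  obtain ⟨X₀, H⟩ := H (1 / 8) (by norm_num)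
  refine ⟨t, ht, c * c₂ / 16, by positivity, X₀ + 2, ?_⟩
  intro n hn a ha N hN hN0 hNn A B hB hAB
  rw [mem_Icc] at ha
  have hdvd : (2 : ℤ) ∣ N := by
    have := (hN 2).2 (Dvd.intro a rfl)
    exact_mod_cast this
  have h1 := H (2 * n) (by omega) N hN0 (by push_cast; exact hNn) F0 (sys0 he hdvd) A B hB
    (by push_cast; linarith)
  have h2 := hV (2 * n) a (by omega) ha.1 (by omega)
  have h3 := V_ge (X := 2 * n) he hN
  have hn2 : (2 : ℝ) ≤ n := by
    have : 2 ≤ n := by omega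
    exact_mod_cast this
  have hlog : 0 < Real.log n := Real.log_pos (by linarith)
  have hlog2 : Real.log ((2 * n : ℕ) : ℝ) ≤ 2 * Real.log n := by
    push_cast
    rw [Real.log_mul (by norm_num) (by linarith)]
    have : Real.log 2 ≤ Real.log n := Real.log_le_log (by norm_num) hn2
    linarith
  have hlog3 : 0 < Real.log ((2 * n : ℕ) : ℝ) := by
    refine Real.log_pos ?_
    push_cast
    linarith
  have h4 : c₂ * wt a / (4 * Real.log n ^ 2) ≤ V e N F0 (2 * n) := by
    refine le_trans ?_ (h2.trans h3)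
    have h5 : 0 ≤ c₂ * wt a := mul_nonneg hc₂.le (wt_nonneg a)
    refine div_le_div_of_nonneg_left h5 (by positivity) ?_
    calc Real.log ((2 * n : ℕ) : ℝ) ^ 2 ≤ (2 * Real.log n) ^ 2 :=
          pow_le_pow_left₀ hlog3.le hlog2 2
      _ = 4 * Real.log n ^ 2 := by ring
  have h6 : 0 ≤ c₂ * wt a / (4 * Real.log n ^ 2) :=
    div_nonneg (mul_nonneg hc₂.le (wt_nonneg a)) (by positivity)
  have h7 : c * (n / 4) * (c₂ * wt a / (4 * Real.log n ^ 2)) ≤
      c * ((B : ℝ) - A) * V e N F0 (2 * n) := by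
    refine mul_le_mul (mul_le_mul_of_nonneg_left hAB hc.le) h4 h6 ?_
    have : (0 : ℝ) ≤ (B : ℝ) - A := le_trans (by positivity) hAB
    positivity
  have h8 : c * c₂ / 16 * wt a * LL n = c * (n / 4) * (c₂ * wt a / (4 * Real.log n ^ 2)) := by
    unfold LL
    field_simp
    ring
  rw [h8]
  exact h7.trans h1

lemma lt_pow_of {n t q : ℕ} (ht : 1 ≤ t) (h : (((2 * n : ℕ) : ℝ)) ^ (1 / (t : ℝ)) < q) :
    n < q ^ t := by
  have ht' : (t : ℝ) ≠ 0 := by
    have : t ≠ 0 := by omega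
    exact_mod_cast this
  have h1 : (((2 * n : ℕ) : ℝ)) < (q : ℝ) ^ t := by
    have h0 : (0 : ℝ) ≤ ((2 * n : ℕ) : ℝ) := Nat.cast_nonneg _
    calc (((2 * n : ℕ) : ℝ)) = ((((2 * n : ℕ) : ℝ)) ^ (1 / (t : ℝ))) ^ t := by
          rw [← Real.rpow_natCast, ← Real.rpow_mul h0, one_div_mul_cancel ht', Real.rpow_one]
      _ < (q : ℝ) ^ t := pow_lt_pow_left₀ h (Real.rpow_nonneg h0 _) (by omega)
  have h2 : 2 * n < q ^ t := by exact_mod_cast h1
  omega

lemma lt_pow_mono {n t t' q : ℕ} (hq : 1 ≤ q) (htt : t ≤ t') (h : n < q ^ t) : n < q ^ t' :=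
  h.trans_le (Nat.pow_le_pow_right hq htt)

/-- facts about the members of `G` -/
lemma G_facts {e N : ℤ} {t t' n A B p : ℕ} (ht : 1 ≤ t) (htt : t ≤ t') (hn : 2 ^ t' ≤ n)
    (hp : p ∈ G e N t (2 * n) A B F0) :
    A < p ∧ p ≤ B ∧ p.Prime ∧ Odd p ∧ e * p + N ≠ 0 ∧
      (e * p + N).natAbs.primeFactorsList.length ≤ 2 ∧ Rgh n t' p ∧
      ∀ q : ℕ, q.Prime → (q : ℤ) ∣ e * p + N → n < q ^ t' := by
  simp only [G, mem_filter, mem_Ioc] at hp
  obtain ⟨⟨h1, h2⟩, h3, h4, h5, h6, h7, _⟩ := hp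
  have h8 : n < p ^ t := lt_pow_of ht h4
  have h8' : n < p ^ t' := lt_pow_mono h3.one_lt.le htt h8
  have hodd : Odd p := by
    refine h3.odd_of_ne_two fun h => ?_
    rw [h] at h8'
    omega
  refine ⟨h1, h2, h3, hodd, h5, h6, ⟨hodd, ?_⟩, ?_⟩
  · intro q hq hqp
    rw [(Nat.prime_dvd_prime_iff_eq hq h3).1 hqp]
    exact h8'
  · intro q hq hqd
    exact lt_pow_mono hq.one_lt.le htt (lt_pow_of ht (h7 q hq hqd).2)

lemma dvd_two_mul_iff (a q : ℕ) : (q : ℤ) ∣ ((2 * a : ℕ) : ℤ) ↔ q ∣ 2 * a :=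
  Int.natCast_dvd_natCast

lemma dvd_neg_two_mul_iff (a q : ℕ) : (q : ℤ) ∣ -((2 * a : ℕ) : ℤ) ↔ q ∣ 2 * a := by
  rw [dvd_neg]
  exact Int.natCast_dvd_natCast

/-- Piece GG2-F. -/
theorem t_chenD (hv : S_prodV) : S_chenD := by
  classical
  obtain ⟨t₁, ht₁, δ₁, hδ₁, n₁, H₁⟩ := chen_sign hv 1 (by norm_num)
  obtain ⟨t₂, ht₂, δ₂, hδ₂, n₂, H₂⟩ := chen_sign hv (-1) (by norm_num)
  obtain ⟨Q, hQ⟩ : ∃ Q : ℕ, Q = 2 ^ (max t₁ t₂) := ⟨_, rfl⟩
  refine ⟨max t₁ t₂, le_max_of_le_left ht₁, min δ₁ δ₂, lt_min hδ₁ hδ₂, n₁ + n₂ + Q + 4, ?_⟩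
  intro n hn a ha
  have hnQ : 2 ^ (max t₁ t₂) ≤ n := by
    rw [← hQ]
    omega
  have ha' := mem_Icc.1 ha
  have hwL : 0 ≤ wt a * LL n := by
    refine mul_nonneg (wt_nonneg a) ?_
    unfold LL
    positivity
  by_cases hcase : 2 * a ≤ n
  · -- sum is the almost prime, b = a + p
    have h1 := H₁ n (by omega) a ha ((2 * a : ℕ) : ℤ) (dvd_two_mul_iff a) (by omega)
      (by rw [abs_of_nonneg (by positivity)]; push_cast; omega) 0 (n - a) (by omega)
      (by
        rw [Nat.cast_sub ha'.2]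
        have : (2 : ℝ) * a ≤ n := by exact_mod_cast hcase
        have h0 : (0 : ℝ) ≤ n := Nat.cast_nonneg _
        push_cast
        linarith)
    have h2 : (G 1 ((2 * a : ℕ) : ℤ) t₁ (2 * n) 0 (n - a) F0).card ≤
        ((Icc 1 n).filter (fun b => R2 n (max t₁ t₂) a b ∧ CD a b)).card := by
      refine card_le_card_of_injOn (fun p => a + p) ?_ ?_
      · intro p hp
        obtain ⟨g1, g2, g3, g4, g5, g6, g7, g8⟩ :=
          G_facts ht₁ (le_max_left t₁ t₂) hnQ (mem_coe.1 hp)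
        rw [mem_coe, mem_filter, mem_Icc]
        beta_reduce
        have e1 : Nat.dist a (a + p) = p := by
          unfold Nat.dist
          omega
        have e2 : (1 : ℤ) * (p : ℤ) + ((2 * a : ℕ) : ℤ) = ((a + (a + p) : ℕ) : ℤ) := by
          push_cast
          ring
        rw [e2] at g6 g8
        rw [Int.natAbs_natCast] at g6
        refine ⟨⟨by omega, by omega⟩, ⟨⟨?_, ?_⟩, ?_⟩, ?_, g6⟩
        · obtain ⟨k, hk⟩ := g4
          exact ⟨a + k, by omega⟩
        · intro q hq hqd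
          exact g8 q hq (Int.natCast_dvd_natCast.2 hqd)
        · rw [e1]
          exact g7
        · rw [e1]
          exact g3
      · intro p _ p' _ h
        simp only at h
        omega
    calc min δ₁ δ₂ * wt a * LL n = min δ₁ δ₂ * (wt a * LL n) := by ring
      _ ≤ δ₁ * (wt a * LL n) := mul_le_mul_of_nonneg_right (min_le_left _ _) hwL
      _ = δ₁ * wt a * LL n := by ring
      _ ≤ _ := h1
      _ ≤ _ := by exact_mod_cast h2
  · -- b = a - p
    have h1 := H₂ n (by omega) a ha ((2 * a : ℕ) : ℤ) (dvd_two_mul_iff a) (by omega)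
      (by rw [abs_of_nonneg (by positivity)]; push_cast; omega) 0 (a - 1) (by omega)
      (by
        rw [Nat.cast_sub ha'.1]
        have h3 : (n : ℝ) < 2 * a := by
          have : n < 2 * a := by omega
          exact_mod_cast this
        have h4 : (4 : ℝ) ≤ n := by
          have : 4 ≤ n := by omega
          exact_mod_cast this
        push_cast
        linarith)
    have h2 : (G (-1) ((2 * a : ℕ) : ℤ) t₂ (2 * n) 0 (a - 1) F0).card ≤
        ((Icc 1 n).filter (fun b => R2 n (max t₁ t₂) a b ∧ CD a b)).card := by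
      refine card_le_card_of_injOn (fun p => a - p) ?_ ?_
      · intro p hp
        obtain ⟨g1, g2, g3, g4, g5, g6, g7, g8⟩ :=
          G_facts ht₂ (le_max_right t₁ t₂) hnQ (mem_coe.1 hp)
        rw [mem_coe, mem_filter, mem_Icc]
        beta_reduce
        have e1 : Nat.dist a (a - p) = p := by
          unfold Nat.dist
          omega
        have e2 : (-1 : ℤ) * (p : ℤ) + ((2 * a : ℕ) : ℤ) = ((a + (a - p) : ℕ) : ℤ) := by
          omega
        rw [e2] at g6 g8
        rw [Int.natAbs_natCast] at g6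
        refine ⟨⟨by omega, by omega⟩, ⟨⟨?_, ?_⟩, ?_⟩, ?_, g6⟩
        · obtain ⟨k, hk⟩ := g4
          exact ⟨a - k - 1, by omega⟩
        · intro q hq hqd
          exact g8 q hq (Int.natCast_dvd_natCast.2 hqd)
        · rw [e1]
          exact g7
        · rw [e1]
          exact g3
      · intro p hp p' hp' h
        have g := G_facts ht₂ (le_max_right t₁ t₂) hnQ (mem_coe.1 hp)
        have g' := G_facts ht₂ (le_max_right t₁ t₂) hnQ (mem_coe.1 hp')
        have g2 := g.2.1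
        have g2' := g'.2.1
        simp only at h
        omega
    calc min δ₁ δ₂ * wt a * LL n = min δ₁ δ₂ * (wt a * LL n) := by ring
      _ ≤ δ₂ * (wt a * LL n) := mul_le_mul_of_nonneg_right (min_le_right _ _) hwL
      _ = δ₂ * wt a * LL n := by ring
      _ ≤ _ := h1
      _ ≤ _ := by exact_mod_cast h2

/-- Piece GG2-G. -/
theorem t_chenS (hv : S_prodV) : S_chenS := by
  classical
  obtain ⟨t₁, ht₁, δ₁, hδ₁, n₁, H₁⟩ := chen_sign hv 1 (by norm_num)
  obtain ⟨t₂, ht₂, δ₂, hδ₂, n₂, H₂⟩ := chen_sign hv (-1) (by norm_num)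
  obtain ⟨Q, hQ⟩ : ∃ Q : ℕ, Q = 2 ^ (max t₁ t₂) := ⟨_, rfl⟩
  refine ⟨max t₁ t₂, le_max_of_le_left ht₁, min δ₁ δ₂, lt_min hδ₁ hδ₂, n₁ + n₂ + Q + 4, ?_⟩
  intro n hn a ha
  have hnQ : 2 ^ (max t₁ t₂) ≤ n := by
    rw [← hQ]
    omega
  have ha' := mem_Icc.1 ha
  have hwL : 0 ≤ wt a * LL n := by
    refine mul_nonneg (wt_nonneg a) ?_
    unfold LL
    positivity
  by_cases hcase : 2 * a ≤ n
  · -- b = p - a, the difference is p - 2 a
    have h1 := H₁ n (by omega) a ha (-((2 * a : ℕ) : ℤ)) (dvd_neg_two_mul_iff a) (by omega)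
      (by rw [abs_neg, abs_of_nonneg (by positivity)]; push_cast; omega) (2 * a) (n + a)
      (by omega)
      (by
        have : (2 : ℝ) * a ≤ n := by exact_mod_cast hcase
        have h0 : (0 : ℝ) ≤ n := Nat.cast_nonneg _
        push_cast
        linarith)
    have h2 : (G 1 (-((2 * a : ℕ) : ℤ)) t₁ (2 * n) (2 * a) (n + a) F0).card ≤
        ((Icc 1 n).filter (fun b => R2 n (max t₁ t₂) a b ∧ CS a b)).card := by
      refine card_le_card_of_injOn (fun p => p - a) ?_ ?_
      · intro p hp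
        obtain ⟨g1, g2, g3, g4, g5, g6, g7, g8⟩ :=
          G_facts ht₁ (le_max_left t₁ t₂) hnQ (mem_coe.1 hp)
        rw [mem_coe, mem_filter, mem_Icc]
        beta_reduce
        have e0 : a + (p - a) = p := by omega
        have e1 : Nat.dist a (p - a) = p - 2 * a := by
          unfold Nat.dist
          omega
        have e2 : (1 : ℤ) * (p : ℤ) + -((2 * a : ℕ) : ℤ) = ((p - 2 * a : ℕ) : ℤ) := by
          omega
        rw [e2] at g6 g8
        rw [Int.natAbs_natCast] at g6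
        refine ⟨⟨by omega, by omega⟩, ⟨?_, ⟨?_, ?_⟩⟩, ?_, ?_⟩
        · rw [e0]
          exact g7
        · rw [e1]
          obtain ⟨k, hk⟩ := g4
          exact ⟨k - a, by omega⟩
        · intro q hq hqd
          rw [e1] at hqd
          exact g8 q hq (Int.natCast_dvd_natCast.2 hqd)
        · rw [e0]
          exact g3
        · rw [e1]
          exact g6
      · intro p hp p' hp' h
        have g := (G_facts ht₁ (le_max_left t₁ t₂) hnQ (mem_coe.1 hp)).1
        have g' := (G_facts ht₁ (le_max_left t₁ t₂) hnQ (mem_coe.1 hp')).1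
        simp only at h
        omega
    calc min δ₁ δ₂ * wt a * LL n = min δ₁ δ₂ * (wt a * LL n) := by ring
      _ ≤ δ₁ * (wt a * LL n) := mul_le_mul_of_nonneg_right (min_le_left _ _) hwL
      _ = δ₁ * wt a * LL n := by ring
      _ ≤ _ := h1
      _ ≤ _ := by exact_mod_cast h2
  · -- b = p - a, the difference is 2 a - p
    have h1 := H₂ n (by omega) a ha ((2 * a : ℕ) : ℤ) (dvd_two_mul_iff a) (by omega)
      (by rw [abs_of_nonneg (by positivity)]; push_cast; omega) a (2 * a - 1) (by omega)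
      (by
        rw [Nat.cast_sub (by omega)]
        have h3 : (n : ℝ) < 2 * a := by
          have : n < 2 * a := by omega
          exact_mod_cast this
        have h4 : (4 : ℝ) ≤ n := by
          have : 4 ≤ n := by omega
          exact_mod_cast this
        push_cast
        linarith)
    have h2 : (G (-1) ((2 * a : ℕ) : ℤ) t₂ (2 * n) a (2 * a - 1) F0).card ≤
        ((Icc 1 n).filter (fun b => R2 n (max t₁ t₂) a b ∧ CS a b)).card := by
      refine card_le_card_of_injOn (fun p => p - a) ?_ ?_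
      · intro p hp
        obtain ⟨g1, g2, g3, g4, g5, g6, g7, g8⟩ :=
          G_facts ht₂ (le_max_right t₁ t₂) hnQ (mem_coe.1 hp)
        rw [mem_coe, mem_filter, mem_Icc]
        beta_reduce
        have e0 : a + (p - a) = p := by omega
        have e1 : Nat.dist a (p - a) = 2 * a - p := by
          unfold Nat.dist
          omega
        have e2 : (-1 : ℤ) * (p : ℤ) + ((2 * a : ℕ) : ℤ) = ((2 * a - p : ℕ) : ℤ) := by
          omega
        rw [e2] at g6 g8
        rw [Int.natAbs_natCast] at g6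
        refine ⟨⟨by omega, by omega⟩, ⟨?_, ⟨?_, ?_⟩⟩, ?_, ?_⟩
        · rw [e0]
          exact g7
        · rw [e1]
          obtain ⟨k, hk⟩ := g4
          exact ⟨a - k - 1, by omega⟩
        · intro q hq hqd
          rw [e1] at hqd
          exact g8 q hq (Int.natCast_dvd_natCast.2 hqd)
        · rw [e0]
          exact g3
        · rw [e1]
          exact g6
      · intro p hp p' hp' h
        have g := (G_facts ht₂ (le_max_right t₁ t₂) hnQ (mem_coe.1 hp)).1
        have g' := (G_facts ht₂ (le_max_right t₁ t₂) hnQ (mem_coe.1 hp')).1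
        simp only at h
        omega
    calc min δ₁ δ₂ * wt a * LL n = min δ₁ δ₂ * (wt a * LL n) := by ring
      _ ≤ δ₂ * (wt a * LL n) := mul_le_mul_of_nonneg_right (min_le_right _ _) hwL
      _ = δ₂ * wt a * LL n := by ring
      _ ≤ _ := h1
      _ ≤ _ := by exact_mod_cast h2

end Pool.Agent.R521.GG
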