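import Pool.Agent.R521.GG.Stms
import Pool.Agent.H373R2.T7.Fund

/-!
# GG-C: the number of the common neighbours (sieve of dimension 4) (helper699)
-/

set_option autoImplicit false

namespace Pool.Agent.R521.GG

open Finset
open Pool.Agent.H373R2.T7 (pz Vz mem_pz nuB PerB nuB_le ev_log' sys_fund)

namespace CodegP

lemma one_le_prodR (s : Finset ℕ) (f : ℕ → ℝ) (h : ∀ p, 1 ≤ f p) : 1 ≤ ∏ p ∈ s, f p := by
  classical
  induction s using Finset.induction_on with
  | empty => simp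
  | insert a s ha ih =>
    rw [prod_insert ha]
    have := h a
    nlinarith

lemma prod_subset_le (s t : Finset ℕ) (hst : s ⊆ t) (f : ℕ → ℝ) (h : ∀ p, 1 ≤ f p) :
    ∏ p ∈ s, f p ≤ ∏ p ∈ t, f p := by
  classical
  rw [← Finset.prod_sdiff hst]
  have h1 := one_le_prodR (t \ s) f h
  have h2 := one_le_prodR s f h
  nlinarith

lemma one_le_gg (m : ℕ) : 1 ≤ gg m := by
  unfold gg
  apply one_le_prodR
  intro p
  have : (0 : ℝ) ≤ 1 / (p : ℝ) := by positivity
  linarith

lemma gg_mul (m n : ℕ) (hm : m ≠ 0) (hn : n ≠ 0) : gg (m * n) ≤ gg m * gg n := by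
  unfold gg
  rw [Nat.primeFactors_mul hm hn]
  have h1 : ∀ p : ℕ, (1 : ℝ) ≤ 1 + 1 / (p : ℝ) := by
    intro p
    have : (0 : ℝ) ≤ 1 / (p : ℝ) := by positivity
    linarith
  rw [← Finset.prod_union_inter]
  have h2 : (1 : ℝ) ≤ ∏ p ∈ m.primeFactors ∩ n.primeFactors, (1 + 1 / (p : ℝ)) := by
    exact one_le_prodR _ _ h1
  have h3 : (0 : ℝ) ≤ ∏ p ∈ m.primeFactors ∪ n.primeFactors, (1 + 1 / (p : ℝ)) := by
    apply Finset.prod_nonneg
    intro p _
    linarith [h1 p]
  nlinarith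

/-- the level -/
lemma level (n K : ℕ) (hK : 1 ≤ K) (hn : 1 ≤ n) : ∃ y : ℕ, y ^ K ≤ n ∧ n < (y + 1) ^ K := by
  classical
  have hex : ∃ y : ℕ, n < (y + 1) ^ K := ⟨n, by
    calc n < n + 1 := Nat.lt_succ_self n
      _ ≤ (n + 1) ^ K := Nat.le_self_pow (by omega) _⟩
  refine ⟨Nat.find hex, ?_, Nat.find_spec hex⟩
  rcases Nat.eq_zero_or_pos (Nat.find hex) with h | h
  · rw [h, zero_pow (by omega)]; exact Nat.zero_le _
  · have := Nat.find_min hex (m := Nat.find hex - 1) (by omega)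
    rw [Nat.sub_add_cancel h] at this
    exact not_lt.1 this

/-- the four classes -/
def TT (a c : ℕ) : Finset ℤ := {-(a : ℤ), (a : ℤ), -(c : ℤ), (c : ℤ)}

/-- the sieve condition -/
def QQ (a c : ℕ) (p b : ℕ) : Prop := 5 ≤ p ∧ ∃ t ∈ TT a c, (p : ℤ) ∣ (b : ℤ) - t

lemma card_TT (a c : ℕ) : (TT a c).card ≤ 4 := by
  unfold TT
  exact Finset.card_le_four

lemma QQ_per (a c : ℕ) (p n : ℕ) : QQ a c p n ↔ QQ a c p (n % p) := by
  unfold QQ
  have h : ∀ t : ℤ, (p : ℤ) ∣ (n : ℤ) - t ↔ (p : ℤ) ∣ ((n % p : ℕ) : ℤ) - t := by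
    intro t
    have h1 : (n : ℤ) - t = (((n % p : ℕ) : ℤ) - t) + (p : ℤ) * ((n / p : ℕ) : ℤ) := by
      have := Nat.mod_add_div n p
      have h2 : ((n % p : ℕ) : ℤ) + (p : ℤ) * ((n / p : ℕ) : ℤ) = n := by exact_mod_cast this
      linarith
    rw [h1]
    exact dvd_add_left (dvd_mul_right _ _)
  simp only [h]

lemma nuB_eq (a c p : ℕ) (hp : 5 ≤ p) : nuB (QQ a c) p = ((TT a c).image (fun t => (t % (p : ℤ)).toNat)).card := by
  classical
  unfold nuB
  congr 1
  ext r
  rw [mem_filter, mem_range, mem_image]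
  unfold QQ
  have hp0 : (0 : ℤ) < p := by exact_mod_cast (by omega : 0 < p)
  constructor
  · rintro ⟨hr, _, t, ht, hd⟩
    refine ⟨t, ht, ?_⟩
    have h1 : (r : ℤ) % p = t % p := Int.emod_eq_emod_iff_emod_sub_eq_zero.2 (Int.emod_eq_zero_of_dvd hd)
    rw [← h1]
    have h2 : (r : ℤ) % p = r := Int.emod_eq_of_lt (by omega) (by exact_mod_cast hr)
    rw [h2]
    simp
  · rintro ⟨t, ht, rfl⟩
    have h0 := Int.emod_nonneg t (ne_of_gt hp0)
    have h1 := Int.emod_lt_of_pos t hp0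
    refine ⟨by omega, hp, t, ht, ?_⟩
    rw [Int.toNat_of_nonneg h0]
    exact Int.dvd_of_emod_eq_zero (by rw [Int.sub_emod]; simp)

lemma QQ_perB (a c : ℕ) : PerB (QQ a c) 4 := by
  classical
  refine ⟨QQ_per a c, ?_⟩
  intro p _
  by_cases hp : 5 ≤ p
  · rw [nuB_eq a c p hp]
    exact Finset.card_image_le.trans (card_TT a c)
  · have : nuB (QQ a c) p = 0 := by
      unfold nuB
      rw [Finset.card_eq_zero, Finset.filter_eq_empty_iff]
      intro r _ h
      exact hp h.1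
    omega

/-- the four classes are different for the primes not dividing `a c |a-c| (a+c)` -/
lemma nuB_four (a c p : ℕ) (hp : p.Prime) (hp5 : 5 ≤ p) (h1 : ¬ p ∣ a) (h2 : ¬ p ∣ c)
    (h3 : ¬ p ∣ Nat.dist a c) (h4 : ¬ p ∣ a + c) : nuB (QQ a c) p = 4 := by
  rw [nuB_eq a c p hp5]
  have hp0 : (0 : ℤ) < p := by exact_mod_cast (by omega : 0 < p)
  have hpi : Prime (p : ℤ) := Nat.prime_iff_prime_int.1 hp
  have d2 : ¬ (p : ℤ) ∣ 2 := by
    intro h
    have := Int.le_of_dvd (by norm_num) h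
    omega
  have da : ¬ (p : ℤ) ∣ (a : ℤ) := fun h => h1 (Int.natCast_dvd_natCast.1 h)
  have dc : ¬ (p : ℤ) ∣ (c : ℤ) := fun h => h2 (Int.natCast_dvd_natCast.1 h)
  have dac : ¬ (p : ℤ) ∣ (a : ℤ) + c := fun h => h4 (Int.natCast_dvd_natCast.1 (by push_cast; exact h))
  have dd : ¬ (p : ℤ) ∣ (a : ℤ) - c := by
    intro h
    apply h3
    rcases le_total a c with hac | hac
    · rw [Nat.dist_eq_sub_of_le hac]
      apply Int.natCast_dvd_natCast.1
      rw [Nat.cast_sub hac]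
      have := (dvd_neg (α := ℤ)).2 h
      rwa [neg_sub] at this
    · rw [Nat.dist_eq_sub_of_le_right hac]
      apply Int.natCast_dvd_natCast.1
      rw [Nat.cast_sub hac]
      exact h
  have key : ∀ s t : ℤ, ¬ (p : ℤ) ∣ s - t → (s % (p : ℤ)).toNat ≠ (t % (p : ℤ)).toNat := by
    intro s t hst h
    have a1 := Int.emod_nonneg s (ne_of_gt hp0)
    have a2 := Int.emod_nonneg t (ne_of_gt hp0)
    have : s % (p : ℤ) = t % (p : ℤ) := by omega
    exact hst (Int.dvd_of_emod_eq_zero (Int.emod_eq_emod_iff_emod_sub_eq_zero.1 this))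
  have k1 := key (-(a : ℤ)) a (by
    intro h
    have e : -(a : ℤ) - a = -(2 * a) := by ring
    rw [e, dvd_neg] at h
    rcases hpi.dvd_or_dvd h with h | h
    · exact d2 h
    · exact da h)
  have k2 := key (-(a : ℤ)) (-(c : ℤ)) (by
    intro h
    have e : -(a : ℤ) - -(c : ℤ) = -((a : ℤ) - c) := by ring
    rw [e, dvd_neg] at h
    exact dd h)
  have k3 := key (-(a : ℤ)) c (by
    intro h
    have e : -(a : ℤ) - (c : ℤ) = -((a : ℤ) + c) := by ring
    rw [e, dvd_neg] at h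
    exact dac h)
  have k4 := key (a : ℤ) (-(c : ℤ)) (by
    intro h
    have e : (a : ℤ) - -(c : ℤ) = ((a : ℤ) + c) := by ring
    rw [e] at h
    exact dac h)
  have k5 := key (a : ℤ) (c : ℤ) dd
  have k6 := key (-(c : ℤ)) c (by
    intro h
    have e : -(c : ℤ) - c = -(2 * c) := by ring
    rw [e, dvd_neg] at h
    rcases hpi.dvd_or_dvd h with h | h
    · exact d2 h
    · exact dc h)
  unfold TT
  rw [Finset.image_insert, Finset.image_insert, Finset.image_insert, Finset.image_singleton]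
  rw [Finset.card_insert_of_notMem, Finset.card_insert_of_notMem, Finset.card_insert_of_notMem,
    Finset.card_singleton]
  · rw [mem_singleton]; exact k6
  · rw [mem_insert, mem_singleton, not_or]; exact ⟨k4, k5⟩
  · rw [mem_insert, mem_insert, mem_singleton, not_or, not_or]; exact ⟨k1, k2, k3⟩

/-- one prime -/
lemma local_bound (a c p : ℕ) (hp : p.Prime) :
    1 - (nuB (QQ a c) p : ℝ) / p ≤ (if p < 5 then 16 else 1) * (1 - 1 / (p : ℝ)) ^ 4 *
      (if p ∣ a * c * Nat.dist a c * (a + c) then (1 + 1 / (p : ℝ)) ^ 8 else 1) := by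
  have hp2 : (2 : ℝ) ≤ p := by exact_mod_cast hp.two_le
  have hp0 : (0 : ℝ) < p := by linarith
  set t : ℝ := 1 / (p : ℝ) with ht
  have ht0 : 0 < t := by positivity
  have ht2 : t ≤ 1 / 2 := one_div_le_one_div_of_le (by norm_num) hp2
  have hnu : (nuB (QQ a c) p : ℝ) / p = nuB (QQ a c) p * t := by rw [ht]; ring
  rw [hnu]
  have hnn : 0 ≤ (nuB (QQ a c) p : ℝ) * t := by positivity
  have h8 : (1 : ℝ) ≤ (1 + t) ^ 8 := one_le_pow₀ (by linarith)
  have h4 : (1 / 16 : ℝ) ≤ (1 - t) ^ 4 := by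
    have : (1 / 2 : ℝ) ^ 4 ≤ (1 - t) ^ 4 := pow_le_pow_left₀ (by norm_num) (by linarith) 4
    norm_num at this ⊢
    linarith
  have h40 : 0 ≤ (1 - t) ^ 4 := by positivity
  by_cases h5 : p < 5
  · rw [if_pos h5]
    have hv : (1 : ℝ) ≤ (if p ∣ a * c * Nat.dist a c * (a + c) then (1 + t) ^ 8 else 1) := by
      split_ifs <;> linarith
    have : (1 : ℝ) ≤ 16 * (1 - t) ^ 4 := by linarith
    nlinarith
  · rw [if_neg h5, one_mul]
    rw [not_lt] at h5
    split_ifs with hd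
    · have h6 : (1 : ℝ) ≤ (1 - t) * (1 + t) ^ 2 := by nlinarith [mul_pos ht0 ht0, mul_pos (mul_pos ht0 ht0) ht0]
      have h7 : (1 : ℝ) ≤ ((1 - t) * (1 + t) ^ 2) ^ 4 := one_le_pow₀ h6
      have e : ((1 - t) * (1 + t) ^ 2) ^ 4 = (1 - t) ^ 4 * (1 + t) ^ 8 := by ring
      rw [e] at h7
      linarith
    · have h1 : ¬ p ∣ a := fun h => hd (Dvd.dvd.mul_right (Dvd.dvd.mul_right (Dvd.dvd.mul_right h _) _) _)
      have h2 : ¬ p ∣ c := fun h => hd (Dvd.dvd.mul_right (Dvd.dvd.mul_right (Dvd.dvd.mul_left h _) _) _)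
      have h3 : ¬ p ∣ Nat.dist a c := fun h => hd (Dvd.dvd.mul_right (Dvd.dvd.mul_left h _) _)
      have h4 : ¬ p ∣ a + c := fun h => hd (Dvd.dvd.mul_left h _)
      rw [nuB_four a c p hp h5 h1 h2 h3 h4, mul_one]
      have := one_add_mul_le_pow (show (-2 : ℝ) ≤ -t by linarith) 4
      push_cast at this ⊢
      have e : (1 + -t : ℝ) = 1 - t := by ring
      rw [e] at this
      linarith

lemma prod_bound (a c y : ℕ) (ha : 1 ≤ a) (hc : 1 ≤ c) (hac : a ≠ c) :
    ∏ p ∈ pz y, (1 - (nuB (QQ a c) p : ℝ) / p) ≤ 16 ^ 5 * Vz y ^ 4 * SS a c := by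
  set h : ℕ := a * c * Nat.dist a c * (a + c) with hh
  have hdist : Nat.dist a c ≠ 0 := by
    intro h0
    exact hac (Nat.eq_of_dist_eq_zero h0)
  have hne : h ≠ 0 := by
    rw [hh]
    have : a * c ≠ 0 := Nat.mul_ne_zero (by omega) (by omega)
    exact Nat.mul_ne_zero (Nat.mul_ne_zero this hdist) (by omega)
  have h1 : ∏ p ∈ pz y, (1 - (nuB (QQ a c) p : ℝ) / p) ≤
      ∏ p ∈ pz y, ((if p < 5 then 16 else 1) * (1 - 1 / (p : ℝ)) ^ 4 *
      (if p ∣ h then (1 + 1 / (p : ℝ)) ^ 8 else 1)) := by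
    apply Finset.prod_le_prod
    · intro p hp
      have hp0 : (0 : ℝ) < p := by exact_mod_cast (mem_pz.1 hp).2.pos
      have : (nuB (QQ a c) p : ℝ) / p ≤ 1 := by
        rw [div_le_one hp0]
        exact_mod_cast nuB_le _ _
      linarith
    · intro p hp
      exact local_bound a c p (mem_pz.1 hp).2
  refine h1.trans ?_
  rw [Finset.prod_mul_distrib, Finset.prod_mul_distrib]
  have e1 : ∏ p ∈ pz y, (1 - 1 / (p : ℝ)) ^ 4 = Vz y ^ 4 := by
    unfold Vz
    rw [Finset.prod_pow]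
  have hV : 0 ≤ Vz y ^ 4 := by positivity
  have e2 : ∏ p ∈ pz y, (if p < 5 then (16 : ℝ) else 1) ≤ 16 ^ 5 := by
    rw [Finset.prod_ite, Finset.prod_const, Finset.prod_const_one, mul_one]
    apply pow_le_pow_right₀ (by norm_num)
    have : (pz y).filter (fun p => p < 5) ⊆ range 5 := by
      intro p hp
      rw [mem_filter] at hp
      exact mem_range.2 hp.2
    exact (card_le_card this).trans (by simp)
  have e3 : ∏ p ∈ pz y, (if p ∣ h then (1 + 1 / (p : ℝ)) ^ 8 else 1) ≤ SS a c := by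
    rw [← Finset.prod_filter, Finset.prod_pow]
    unfold SS
    have hpos : ∀ p : ℕ, (1 : ℝ) ≤ 1 + 1 / (p : ℝ) := by
      intro p
      have : (0 : ℝ) ≤ 1 / (p : ℝ) := by positivity
      linarith
    apply pow_le_pow_left₀ (Finset.prod_nonneg (fun p _ => by linarith [hpos p]))
    calc ∏ p ∈ (pz y).filter (fun p => p ∣ h), (1 + 1 / (p : ℝ)) ≤ gg h := by
          unfold gg
          apply prod_subset_le _ _ _ _ hpos
          intro p hp
          rw [mem_filter, mem_pz] at hp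
          rw [Nat.mem_primeFactors]
          exact ⟨hp.1.2, hp.2, hne⟩
      _ ≤ gg (a * c * Nat.dist a c) * gg (a + c) := gg_mul _ _ (Nat.mul_ne_zero (Nat.mul_ne_zero (by omega) (by omega)) hdist) (by omega)
      _ ≤ (gg (a * c) * gg (Nat.dist a c)) * gg (a + c) := by
          have := gg_mul (a * c) (Nat.dist a c) (Nat.mul_ne_zero (by omega) (by omega)) hdist
          have h2 := one_le_gg (a + c)
          exact mul_le_mul_of_nonneg_right this (by linarith)
      _ ≤ gg a * gg c * gg (Nat.dist a c) * gg (a + c) := by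
          have := gg_mul a c (by omega) (by omega)
          have h2 := one_le_gg (a + c)
          have h3 := one_le_gg (Nat.dist a c)
          exact mul_le_mul_of_nonneg_right (mul_le_mul_of_nonneg_right this (by linarith)) (by linarith)
  rw [e1]
  have h30 : 0 ≤ ∏ p ∈ pz y, (if p ∣ h then (1 + 1 / (p : ℝ)) ^ 8 else 1) := by
    apply Finset.prod_nonneg
    intro p _
    split_ifs <;> positivity
  have h20 : 0 ≤ ∏ p ∈ pz y, (if p < 5 then (16 : ℝ) else 1) := by
    apply Finset.prod_nonneg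
    intro p _
    split_ifs <;> norm_num
  apply mul_le_mul _ e3 h30 (by positivity)
  exact mul_le_mul_of_nonneg_right e2 hV

open Classical in
/-- the exceptional `b` -/
lemma count_bound (n a c y : ℕ) : (cd (Icc 1 n) a c : ℝ) ≤
    (((Icc 1 n).filter (fun b : ℕ => ∀ p ∈ pz y, ¬ QQ a c p b)).card : ℝ) + (5 * y + 2) := by
  classical
  have hsub : (Icc 1 n).filter (fun b => R a b ∧ R c b) ⊆
      (Icc 1 n).filter (fun b : ℕ => ∀ p ∈ pz y, ¬ QQ a c p b) ∪
        (Icc 1 y ∪ (Icc (a - y) (a + y) ∪ Icc (c - y) (c + y))) := by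
    intro b hb
    rw [mem_filter, mem_Icc] at hb
    obtain ⟨⟨hb1, hbn⟩, hab, hcb⟩ := hb
    rw [mem_union, mem_filter, mem_Icc]
    by_cases hq : ∀ p ∈ pz y, ¬ QQ a c p b
    · left; exact ⟨⟨hb1, hbn⟩, hq⟩
    · right
      push Not at hq
      obtain ⟨p, hp, h5, t, ht, hd⟩ := hq
      obtain ⟨hpy, hpp⟩ := mem_pz.1 hp
      have hsum : ∀ x : ℕ, R x b → (p : ℤ) ∣ (b : ℤ) - (-(x : ℤ)) → b ≤ y := by
        intro x hx hd
        have h1 : p ∣ x + b := by
          apply Int.natCast_dvd_natCast.1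
          push_cast
          have e : (b : ℤ) - (-(x : ℤ)) = x + b := by ring
          rwa [e] at hd
        have h2 := (Nat.prime_dvd_prime_iff_eq hpp hx.1.1).1 h1
        omega
      have hdif : ∀ x : ℕ, R x b → (p : ℤ) ∣ (b : ℤ) - (x : ℤ) → b ∈ Icc (x - y) (x + y) := by
        intro x hx hd
        have h1 : p ∣ Nat.dist x b := by
          rcases le_total x b with hac | hac
          · rw [Nat.dist_eq_sub_of_le hac]
            apply Int.natCast_dvd_natCast.1
            rw [Nat.cast_sub hac]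
            exact hd
          · rw [Nat.dist_eq_sub_of_le_right hac]
            apply Int.natCast_dvd_natCast.1
            rw [Nat.cast_sub hac]
            have := (dvd_neg (α := ℤ)).2 hd
            rwa [neg_sub] at this
        have h2 := (Nat.prime_dvd_prime_iff_eq hpp hx.2.1).1 h1
        rw [mem_Icc]
        rw [h2, Nat.dist] at hpy
        omega
      rw [mem_union, mem_union, mem_Icc]
      unfold TT at ht
      simp only [mem_insert, mem_singleton] at ht
      rcases ht with rfl | rfl | rfl | rfl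
      · left; exact ⟨hb1, hsum a hab hd⟩
      · right; left; exact hdif a hab hd
      · left; exact ⟨hb1, hsum c hcb hd⟩
      · right; right; exact hdif c hcb hd
  have h1 := card_le_card hsub
  have h2 := card_union_le ((Icc 1 n).filter (fun b : ℕ => ∀ p ∈ pz y, ¬ QQ a c p b))
    (Icc 1 y ∪ (Icc (a - y) (a + y) ∪ Icc (c - y) (c + y)))
  have h3 := card_union_le (Icc 1 y) (Icc (a - y) (a + y) ∪ Icc (c - y) (c + y))
  have h4 := card_union_le (Icc (a - y) (a + y)) (Icc (c - y) (c + y))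
  have h5 : (Icc 1 y).card = y := by rw [Nat.card_Icc]; omega
  have h6 : (Icc (a - y) (a + y)).card ≤ 2 * y + 1 := by rw [Nat.card_Icc]; omega
  have h7 : (Icc (c - y) (c + y)).card ≤ 2 * y + 1 := by rw [Nat.card_Icc]; omega
  have h8 : cd (Icc 1 n) a c ≤ ((Icc 1 n).filter (fun b : ℕ => ∀ p ∈ pz y, ¬ QQ a c p b)).card + (5 * y + 2) := by
    unfold cd
    omega
  exact_mod_cast h8

end CodegP

open CodegP in
open Classical in
theorem t_codeg (hm : S_mert) : S_codeg := by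
  obtain ⟨CM, hCM, hmert⟩ := hm
  obtain ⟨K, x0, hK1, hF⟩ := sys_fund 4 (by norm_num) 1 one_pos
  set K' : ℕ := max K 3 with hK'
  have hK'3 : 3 ≤ K' := le_max_right _ _
  have hKK' : K ≤ K' := le_max_left _ _
  obtain ⟨n1, hn1⟩ := ev_log' 4 8
  refine ⟨2 * (16 ^ 5 * (2 * K' * CM) ^ 4) + 1, by positivity, max (max ((x0 + 3) ^ K') n1) 3, ?_⟩
  intro n hn a ha c hc hac
  rw [mem_Icc] at ha hc
  have hnx : (x0 + 3) ^ K' ≤ n := le_trans (le_trans (le_max_left _ _) (le_max_left _ _)) hn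
  have hnn1 : n1 ≤ n := le_trans (le_trans (le_max_right _ _) (le_max_left _ _)) hn
  have hn3 : 3 ≤ n := le_trans (le_max_right _ _) hn
  obtain ⟨y, hy1, hy2⟩ := level n K' (by omega) (by omega)
  have hyx : x0 + 3 ≤ y := by
    by_contra h
    rw [not_le] at h
    have : (y + 1) ^ K' ≤ (x0 + 3) ^ K' := Nat.pow_le_pow_left (by omega) _
    omega
  have hyK : y ^ K ≤ n := (Nat.pow_le_pow_right (by omega) hKK').trans hy1
  have hcount := hF n y (by omega) hyK (QQ a c) (QQ_perB a c) n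
  set P : ℝ := ∏ p ∈ pz y, (1 - (nuB (QQ a c) p : ℝ) / p) with hP
  have hPb := prod_bound a c y ha.1 hc.1 hac
  rw [← hP] at hPb
  have hcd := count_bound n a c y
  have hcnt : ((((Icc 1 n).filter (fun b : ℕ => ∀ p ∈ pz y, ¬ QQ a c p b)).card : ℕ) : ℝ) ≤
      2 * (n * P) + √(n : ℝ) := by
    have := (abs_le.1 hcount).2
    linarith
  -- logs
  have hnr : (3 : ℝ) ≤ n := by exact_mod_cast hn3
  have hn0 : (0 : ℝ) < n := by linarith
  set L : ℝ := Real.log n with hL
  have hL0 : 0 < L := Real.log_pos (by linarith)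
  have hyr : (3 : ℝ) ≤ y := by exact_mod_cast (by omega : 3 ≤ y)
  have hly0 : 0 < Real.log y := Real.log_pos (by linarith)
  have hLy : L ≤ 2 * K' * Real.log y := by
    have h1 : (n : ℝ) ≤ ((y : ℝ) ^ 2) ^ K' := by
      have h2 : n ≤ (y ^ 2) ^ K' := hy2.le.trans (Nat.pow_le_pow_left (by nlinarith) _)
      exact_mod_cast h2
    have h3 := Real.log_le_log hn0 h1
    rw [Real.log_pow, Real.log_pow] at h3
    push_cast at h3
    linarith
  have hV : Vz y ≤ 2 * K' * CM / L := by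
    have h1 := hmert y (by omega)
    rw [le_div_iff₀ hL0]
    have hV0 : 0 ≤ Vz y := by
      unfold Vz
      apply Finset.prod_nonneg
      intro p hp
      have hp1 : (1 : ℝ) ≤ p := by exact_mod_cast (mem_pz.1 hp).2.one_le
      have : 1 / (p : ℝ) ≤ 1 := by rw [div_le_one (by linarith)]; exact hp1
      linarith
    have hK0 : (0 : ℝ) ≤ 2 * K' := by positivity
    calc Vz y * L ≤ Vz y * (2 * K' * Real.log y) := by gcongr
      _ = 2 * K' * (Vz y * Real.log y) := by ring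
      _ ≤ 2 * K' * CM := by gcongr
  have hV0 : 0 ≤ Vz y := by
    unfold Vz
    apply Finset.prod_nonneg
    intro p hp
    have hp1 : (1 : ℝ) ≤ p := by exact_mod_cast (mem_pz.1 hp).2.one_le
    have : 1 / (p : ℝ) ≤ 1 := by rw [div_le_one (by linarith)]; exact hp1
    linarith
  have hV4 : Vz y ^ 4 ≤ (2 * K' * CM) ^ 4 / L ^ 4 := by
    rw [← div_pow]
    exact pow_le_pow_left₀ hV0 hV 4
  have hSS : 1 ≤ SS a c := by
    unfold SS
    apply one_le_pow₀
    have h1 := one_le_gg a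
    have h2 := one_le_gg c
    have h3 := one_le_gg (Nat.dist a c)
    have h4 := one_le_gg (a + c)
    have h5 : 1 ≤ gg a * gg c := by nlinarith
    have h6 : 1 ≤ gg a * gg c * gg (Nat.dist a c) := by nlinarith
    nlinarith
  have hnP : n * P ≤ 16 ^ 5 * (2 * K' * CM) ^ 4 * (n / L ^ 4) * SS a c := by
    calc n * P ≤ n * (16 ^ 5 * Vz y ^ 4 * SS a c) := by gcongr
      _ ≤ n * (16 ^ 5 * ((2 * K' * CM) ^ 4 / L ^ 4) * SS a c) := by gcongr
      _ = _ := by ring
  -- errors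
  have hye : (y : ℝ) ≤ √(n : ℝ) := by
    apply Real.le_sqrt_of_sq_le
    have : y ^ 2 ≤ n := (Nat.pow_le_pow_right (by omega) (by omega)).trans hy1
    exact_mod_cast this
  have hs1 : 1 ≤ √(n : ℝ) := by
    apply Real.le_sqrt_of_sq_le; linarith
  have herr : √(n : ℝ) + (5 * y + 2) ≤ n / L ^ 4 := by
    have h1 := hn1 n hnn1
    rw [le_div_iff₀ (by positivity)]
    have h2 : √(n : ℝ) * √(n : ℝ) = n := Real.mul_self_sqrt hn0.le
    calc (√(n : ℝ) + (5 * y + 2)) * L ^ 4 ≤ (8 * √(n : ℝ)) * L ^ 4 := by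
          gcongr
          linarith
      _ = √(n : ℝ) * (8 * L ^ 4) := by ring
      _ ≤ √(n : ℝ) * √(n : ℝ) := by gcongr
      _ = n := h2
  have hnl : 0 ≤ (n : ℝ) / L ^ 4 := by positivity
  calc (cd (Icc 1 n) a c : ℝ) ≤ 2 * (n * P) + (√(n : ℝ) + (5 * y + 2)) := by linarith
    _ ≤ 2 * (16 ^ 5 * (2 * K' * CM) ^ 4 * (n / L ^ 4) * SS a c) + n / L ^ 4 := by linarith
    _ ≤ 2 * (16 ^ 5 * (2 * K' * CM) ^ 4 * (n / L ^ 4) * SS a c) + n / L ^ 4 * SS a c := by
        nlinarith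
    _ = _ := by ring

end Pool.Agent.R521.GG
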