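import Pool.Agent.R521.GG.Stms2
import Pool.Agent.R521.GG.Codeg

/-!
# GG2-C: the codegree bound for rough numbers (sieve of dimension 4) (helper21)
-/

set_option autoImplicit false

namespace Pool.Agent.R521.GG

open Finset
open Pool.Agent.H373R2.T7 (pz Vz mem_pz nuB PerB nuB_le ev_log' sys_fund)

namespace Codeg2P

open CodegP

open Classical in
/-- there are no exceptional `b` -/
lemma count_bound2 (n t a c y : ℕ) (hy : y ^ t ≤ n) :
    (((Icc 1 n).filter (fun b => R2 n t a b ∧ R2 n t c b)).card : ℝ) ≤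
    (((Icc 1 n).filter (fun b : ℕ => ∀ p ∈ pz y, ¬ QQ a c p b)).card : ℝ) := by
  have hsub : (Icc 1 n).filter (fun b => R2 n t a b ∧ R2 n t c b) ⊆
      (Icc 1 n).filter (fun b : ℕ => ∀ p ∈ pz y, ¬ QQ a c p b) := by
    intro b hb
    rw [mem_filter] at hb ⊢
    obtain ⟨hb1, hab, hcb⟩ := hb
    refine ⟨hb1, ?_⟩
    intro p hp hQ
    obtain ⟨_, u, hu, hd⟩ := hQ
    obtain ⟨hpy, hpp⟩ := mem_pz.1 hp
    have hpt : p ^ t ≤ n := (Nat.pow_le_pow_left hpy t).trans hy
    have hsum : ∀ x : ℕ, R2 n t x b → (p : ℤ) ∣ (b : ℤ) - (-(x : ℤ)) → False := by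
      intro x hx hd
      have h1 : p ∣ x + b := by
        apply Int.natCast_dvd_natCast.1
        push_cast
        have e : (b : ℤ) - (-(x : ℤ)) = x + b := by ring
        rwa [e] at hd
      have := hx.1.2 p hpp h1
      omega
    have hdif : ∀ x : ℕ, R2 n t x b → (p : ℤ) ∣ (b : ℤ) - (x : ℤ) → False := by
      intro x hx hd
      have h1 : p ∣ Nat.dist x b := by
        rcases le_total x b with hac | hac
        · rw [Nat.dist_eq_sub_of_le hac]
          apply Int.natCast_dvd_natCast.1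
          rw [Nat.cast_sub hac]
          exact hd
        · rw [Nat.dist_eq_sub_of_le_right hac]
          apply Int.natCast_dvd_natCast.1
          rw [Nat.cast_sub hac]
          have := (dvd_neg (α := ℤ)).2 hd
          rwa [neg_sub] at this
      have := hx.2.2 p hpp h1
      omega
    unfold TT at hu
    simp only [mem_insert, mem_singleton] at hu
    rcases hu with rfl | rfl | rfl | rfl
    · exact hsum a hab hd
    · exact hdif a hab hd
    · exact hsum c hcb hd
    · exact hdif c hcb hd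
  exact_mod_cast card_le_card hsub

end Codeg2P

open CodegP Codeg2P in
open Classical in
theorem t_codeg2 (hm : S_mert) : S_codeg2 := by
  intro t _
  obtain ⟨CM, hCM, hmert⟩ := hm
  obtain ⟨K, x0, hK1, hF⟩ := sys_fund 4 (by norm_num) 1 one_pos
  set K' : ℕ := max (max K 3) t with hK'
  have hK'3 : 3 ≤ K' := (le_max_right _ _).trans (le_max_left _ _)
  have hKK' : K ≤ K' := (le_max_left _ _).trans (le_max_left _ _)
  have htK' : t ≤ K' := le_max_right _ _
  obtain ⟨n1, hn1⟩ := ev_log' 4 8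
  refine ⟨2 * (16 ^ 5 * (2 * K' * CM) ^ 4) + 1, by positivity, max (max ((x0 + 3) ^ K') n1) 3, ?_⟩
  intro n hn a ha c hc hac
  rw [mem_Icc] at ha hc
  have hnx : (x0 + 3) ^ K' ≤ n := le_trans (le_trans (le_max_left _ _) (le_max_left _ _)) hn
  have hnn1 : n1 ≤ n := le_trans (le_trans (le_max_right _ _) (le_max_left _ _)) hn
  have hn3 : 3 ≤ n := le_trans (le_max_right _ _) hn
  obtain ⟨y, hy1, hy2⟩ := level n K' (by omega) (by omega)
  have hyx : x0 + 3 ≤ y := by
    by_contra h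
    rw [not_le] at h
    have : (y + 1) ^ K' ≤ (x0 + 3) ^ K' := Nat.pow_le_pow_left (by omega) _
    omega
  have hyK : y ^ K ≤ n := (Nat.pow_le_pow_right (by omega) hKK').trans hy1
  have hyt : y ^ t ≤ n := (Nat.pow_le_pow_right (by omega) htK').trans hy1
  have hcount := hF n y (by omega) hyK (QQ a c) (QQ_perB a c) n
  set P : ℝ := ∏ p ∈ pz y, (1 - (nuB (QQ a c) p : ℝ) / p) with hP
  have hPb := prod_bound a c y ha.1 hc.1 hac
  rw [← hP] at hPb
  have hcd := count_bound2 n t a c y hyt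
  have hcnt : ((((Icc 1 n).filter (fun b : ℕ => ∀ p ∈ pz y, ¬ QQ a c p b)).card : ℕ) : ℝ) ≤
      2 * (n * P) + √(n : ℝ) := by
    have := (abs_le.1 hcount).2
    linarith
  -- logs
  have hnr : (3 : ℝ) ≤ n := by exact_mod_cast hn3
  have hn0 : (0 : ℝ) < n := by linarith
  set L : ℝ := Real.log n with hL
  have hL0 : 0 < L := Real.log_pos (by linarith)
  have hyr : (3 : ℝ) ≤ y := by exact_mod_cast (by omega : 3 ≤ y)
  have hly0 : 0 < Real.log y := Real.log_pos (by linarith)
  have hLy : L ≤ 2 * K' * Real.log y := by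
    have h1 : (n : ℝ) ≤ ((y : ℝ) ^ 2) ^ K' := by
      have h2 : n ≤ (y ^ 2) ^ K' := hy2.le.trans (Nat.pow_le_pow_left (by nlinarith) _)
      exact_mod_cast h2
    have h3 := Real.log_le_log hn0 h1
    rw [Real.log_pow, Real.log_pow] at h3
    push_cast at h3
    linarith
  have hV : Vz y ≤ 2 * K' * CM / L := by
    have h1 := hmert y (by omega)
    rw [le_div_iff₀ hL0]
    have hV0 : 0 ≤ Vz y := by
      unfold Vz
      apply Finset.prod_nonneg
      intro p hp
      have hp1 : (1 : ℝ) ≤ p := by exact_mod_cast (mem_pz.1 hp).2.one_le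
      have : 1 / (p : ℝ) ≤ 1 := by rw [div_le_one (by linarith)]; exact hp1
      linarith
    have hK0 : (0 : ℝ) ≤ 2 * K' := by positivity
    calc Vz y * L ≤ Vz y * (2 * K' * Real.log y) := by gcongr
      _ = 2 * K' * (Vz y * Real.log y) := by ring
      _ ≤ 2 * K' * CM := by gcongr
  have hV0 : 0 ≤ Vz y := by
    unfold Vz
    apply Finset.prod_nonneg
    intro p hp
    have hp1 : (1 : ℝ) ≤ p := by exact_mod_cast (mem_pz.1 hp).2.one_le
    have : 1 / (p : ℝ) ≤ 1 := by rw [div_le_one (by linarith)]; exact hp1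
    linarith
  have hV4 : Vz y ^ 4 ≤ (2 * K' * CM) ^ 4 / L ^ 4 := by
    rw [← div_pow]
    exact pow_le_pow_left₀ hV0 hV 4
  have hSS : 1 ≤ SS a c := by
    unfold SS
    apply one_le_pow₀
    have h1 := one_le_gg a
    have h2 := one_le_gg c
    have h3 := one_le_gg (Nat.dist a c)
    have h4 := one_le_gg (a + c)
    have h5 : 1 ≤ gg a * gg c := by nlinarith
    have h6 : 1 ≤ gg a * gg c * gg (Nat.dist a c) := by nlinarith
    nlinarith
  have hnP : n * P ≤ 16 ^ 5 * (2 * K' * CM) ^ 4 * (n / L ^ 4) * SS a c := by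
    calc n * P ≤ n * (16 ^ 5 * Vz y ^ 4 * SS a c) := by gcongr
      _ ≤ n * (16 ^ 5 * ((2 * K' * CM) ^ 4 / L ^ 4) * SS a c) := by gcongr
      _ = _ := by ring
  -- errors
  have hs1 : 1 ≤ √(n : ℝ) := by
    apply Real.le_sqrt_of_sq_le; linarith
  have herr : √(n : ℝ) ≤ n / L ^ 4 := by
    have h1 := hn1 n hnn1
    rw [le_div_iff₀ (by positivity)]
    have h2 : √(n : ℝ) * √(n : ℝ) = n := Real.mul_self_sqrt hn0.le
    calc √(n : ℝ) * L ^ 4 ≤ (8 * √(n : ℝ)) * L ^ 4 := by
          gcongr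
          linarith
      _ = √(n : ℝ) * (8 * L ^ 4) := by ring
      _ ≤ √(n : ℝ) * √(n : ℝ) := by gcongr
      _ = n := h2
  have hnl : 0 ≤ (n : ℝ) / L ^ 4 := by positivity
  calc (((Icc 1 n).filter (fun b => R2 n t a b ∧ R2 n t c b)).card : ℝ) ≤
        2 * (n * P) + √(n : ℝ) := hcd.trans hcnt
    _ ≤ 2 * (16 ^ 5 * (2 * K' * CM) ^ 4 * (n / L ^ 4) * SS a c) + n / L ^ 4 := by linarith
    _ ≤ 2 * (16 ^ 5 * (2 * K' * CM) ^ 4 * (n / L ^ 4) * SS a c) + n / L ^ 4 * SS a c := by
        nlinarith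
    _ = _ := by ring

end Pool.Agent.R521.GG
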