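import Pool.Agent.R521.GG.Stms

/-!
# GG-E: moments of `gg` (helper699)
-/

set_option autoImplicit false

namespace Pool.Agent.R521.GG

open Finset
open Pool.Agent.H373R2.T7 (pz Vz mem_pz prod_dvd_iff)

namespace MomP

/-- `(1+1/p)^k - 1` -/
noncomputable def hh (k p : ℕ) : ℝ := (1 + 1 / (p : ℝ)) ^ k - 1

lemma hh_nonneg (k p : ℕ) : 0 ≤ hh k p := by
  unfold hh
  have h0 : (0 : ℝ) ≤ 1 / (p : ℝ) := by positivity
  have : (1 : ℝ) ≤ (1 + 1 / (p : ℝ)) ^ k := one_le_pow₀ (by linarith)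
  linarith

lemma pow_bound (k : ℕ) (x : ℝ) (h0 : 0 ≤ x) (h1 : x ≤ 1) : (1 + x) ^ k ≤ 1 + (2 ^ k - 1) * x := by
  induction k with
  | zero => simp
  | succ k ih =>
    rw [pow_succ]
    have h2 : (0 : ℝ) ≤ 2 ^ k - 1 := by
      have : (1 : ℝ) ≤ 2 ^ k := one_le_pow₀ (by norm_num)
      linarith
    have h3 : x * x ≤ x := by nlinarith
    calc (1 + x) ^ k * (1 + x) ≤ (1 + (2 ^ k - 1) * x) * (1 + x) := by gcongr
      _ = 1 + x + (2 ^ k - 1) * x + (2 ^ k - 1) * (x * x) := by ring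
      _ ≤ 1 + x + (2 ^ k - 1) * x + (2 ^ k - 1) * x := by gcongr
      _ = 1 + (2 ^ (k + 1) - 1) * x := by rw [pow_succ]; ring

lemma hh_le (k p : ℕ) (hp : 1 ≤ p) : hh k p ≤ 2 ^ k / p := by
  unfold hh
  have hp' : (1 : ℝ) ≤ p := by exact_mod_cast hp
  have h1 := pow_bound k (1 / (p : ℝ)) (by positivity) (by rw [div_le_one (by linarith)]; exact hp')
  have h2 : (0 : ℝ) ≤ 1 / (p : ℝ) := by positivity
  have h3 : (2 : ℝ) ^ k / p = 2 ^ k * (1 / p) := by ring
  rw [h3]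
  nlinarith

lemma gg_pow (k n m : ℕ) (hm : m ∈ Icc 1 n) :
    gg m ^ k = ∏ p ∈ pz n, (1 + if p ∣ m then hh k p else 0) := by
  rw [mem_Icc] at hm
  have e : m.primeFactors = (pz n).filter (fun p => p ∣ m) := by
    ext p
    rw [Nat.mem_primeFactors, mem_filter, mem_pz]
    constructor
    · rintro ⟨h1, h2, h3⟩
      exact ⟨⟨(Nat.le_of_dvd (by omega) h2).trans hm.2, h1⟩, h2⟩
    · rintro ⟨⟨_, h1⟩, h2⟩
      exact ⟨h1, h2, by omega⟩
  unfold gg
  rw [← Finset.prod_pow, e, Finset.prod_filter]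
  apply Finset.prod_congr rfl
  intro p _
  split_ifs
  · unfold hh; ring
  · simp

lemma card_dvd (n e : ℕ) : (((Icc 1 n).filter (fun m => e ∣ m)).card : ℝ) ≤ n / e := by
  have h1 : (Icc 1 n).filter (fun m => e ∣ m) = (Ioc 0 n).filter (fun m => e ∣ m) := by
    ext m
    simp only [mem_filter, mem_Icc, mem_Ioc]
    constructor <;> rintro ⟨⟨a, b⟩, c⟩ <;> exact ⟨⟨by omega, b⟩, c⟩
  rw [h1, Nat.Ioc_filter_dvd_card_eq_div]
  exact Nat.cast_div_le

lemma sum_inv_sq (n : ℕ) (hn : 1 ≤ n) : ∑ j ∈ Icc 1 n, 1 / (j : ℝ) ^ 2 ≤ 2 - 1 / (n : ℝ) := by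
  induction n, hn using Nat.le_induction with
  | base => norm_num
  | succ n hn ih =>
    rw [Finset.sum_Icc_succ_top (by omega)]
    have hn' : (1 : ℝ) ≤ n := by exact_mod_cast hn
    have h1 : 1 / ((n + 1 : ℕ) : ℝ) ^ 2 ≤ 1 / n - 1 / ((n + 1 : ℕ) : ℝ) := by
      push_cast
      rw [div_sub_div _ _ (by positivity) (by positivity), div_le_div_iff₀ (by positivity) (by positivity)]
      nlinarith
    linarith

lemma sum_pz (n : ℕ) : ∑ p ∈ pz n, 1 / (p : ℝ) ^ 2 ≤ 2 := by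
  rcases Nat.eq_zero_or_pos n with h | h
  · subst h
    have : pz 0 = ∅ := by unfold pz; simp
    rw [this]; simp
  · have h1 : ∑ p ∈ pz n, 1 / (p : ℝ) ^ 2 ≤ ∑ j ∈ Icc 1 n, 1 / (j : ℝ) ^ 2 := by
      apply Finset.sum_le_sum_of_subset_of_nonneg
      · unfold pz; exact filter_subset _ _
      · intro i _ _; positivity
    have h2 := sum_inv_sq n h
    have h3 : (0 : ℝ) ≤ 1 / (n : ℝ) := by positivity
    linarith

end MomP

open MomP in
theorem t_mom : S_mom := by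
  intro k
  refine ⟨Real.exp (2 ^ k * 2), Real.exp_pos _, ?_⟩
  intro n
  have h1 : ∑ m ∈ Icc 1 n, gg m ^ k =
      ∑ S ∈ (pz n).powerset, ∑ m ∈ Icc 1 n, ∏ p ∈ S, (if p ∣ m then hh k p else 0) := by
    rw [Finset.sum_comm]
    apply Finset.sum_congr rfl
    intro m hm
    rw [gg_pow k n m hm, Finset.prod_one_add]
  rw [h1]
  have h2 : ∀ S ∈ (pz n).powerset, ∑ m ∈ Icc 1 n, ∏ p ∈ S, (if p ∣ m then hh k p else 0) ≤
      n * ∏ p ∈ S, (hh k p / p) := by
    intro S hS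
    rw [mem_powerset] at hS
    have hp : ∀ p ∈ S, p.Prime := fun p hp => (mem_pz.1 (hS hp)).2
    have h3 : ∀ m ∈ Icc 1 n, ∏ p ∈ S, (if p ∣ m then hh k p else 0) =
        if ∏ p ∈ S, p ∣ m then ∏ p ∈ S, hh k p else 0 := by
      intro m _
      rw [Finset.prod_ite_zero]
      simp only [prod_dvd_iff S hp m]
    rw [Finset.sum_congr rfl h3, ← Finset.sum_filter, Finset.sum_const, nsmul_eq_mul]
    have h4 := card_dvd n (∏ p ∈ S, p)
    have h5 : 0 ≤ ∏ p ∈ S, hh k p := Finset.prod_nonneg (fun p _ => hh_nonneg k p)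
    refine (mul_le_mul_of_nonneg_right h4 h5).trans (le_of_eq ?_)
    rw [Finset.prod_div_distrib, Nat.cast_prod]
    ring
  refine (Finset.sum_le_sum h2).trans ?_
  rw [← Finset.mul_sum, ← Finset.prod_one_add, mul_comm]
  apply mul_le_mul_of_nonneg_right _ (Nat.cast_nonneg n)
  calc ∏ p ∈ pz n, (1 + hh k p / p) ≤ ∏ p ∈ pz n, Real.exp (2 ^ k * (1 / (p : ℝ) ^ 2)) := by
        apply Finset.prod_le_prod
        · intro p _
          have := hh_nonneg k p
          positivity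
        · intro p hp
          have hp1 := (mem_pz.1 hp).2.one_le
          have hp' : (0 : ℝ) < p := by exact_mod_cast hp1
          have h6 := hh_le k p hp1
          have h7 : hh k p / p ≤ 2 ^ k * (1 / (p : ℝ) ^ 2) := by
            rw [div_le_iff₀ hp']
            refine h6.trans (le_of_eq ?_)
            field_simp
          have h8 := Real.add_one_le_exp (2 ^ k * (1 / (p : ℝ) ^ 2))
          linarith
    _ = Real.exp (2 ^ k * ∑ p ∈ pz n, 1 / (p : ℝ) ^ 2) := by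
        rw [← Real.exp_sum, Finset.mul_sum]
    _ ≤ Real.exp (2 ^ k * 2) := by
        apply Real.exp_le_exp.2
        have := sum_pz n
        gcongr

end Pool.Agent.R521.GG
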