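import Pool.Agent.R521.GG.Stms2
import Pool.Agent.R521.GG.Mom
import Pool.Agent.R521.GG.Codeg

/-!
# GG2-D: the weighted number of the neighbours for rough numbers (sieve of dimension 2) (helper699)
-/

set_option autoImplicit false

namespace Pool.Agent.R521.GG

open Finset
open Pool.Agent.H373R2.T7 (pz Vz mem_pz prod_dvd_iff nuB PerB nuB_le ev_log' sys_fund)

namespace D2P

open MomP CodegP

lemma prod_subset_le' (s t : Finset ℕ) (hst : s ⊆ t) (f : ℕ → ℝ) (h : ∀ p ∈ t, 1 ≤ f p) :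
    ∏ p ∈ s, f p ≤ ∏ p ∈ t, f p := by
  classical
  have key : ∀ r : Finset ℕ, (∀ p ∈ r, 1 ≤ f p) → 1 ≤ ∏ p ∈ r, f p := by
    intro r hr
    induction r using Finset.induction_on with
    | empty => simp
    | insert a r ha ih =>
      rw [prod_insert ha]
      have h1 := hr a (mem_insert_self _ _)
      have h2 := ih (fun p hp => hr p (mem_insert_of_mem hp))
      nlinarith
  rw [← Finset.prod_sdiff hst]
  have h1 := key (t \ s) (fun p hp => h p (mem_sdiff.1 hp).1)
  have h2 := key s (fun p hp => h p (hst hp))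
  nlinarith

/-- the large primes do not matter -/
lemma gg_le (n b : ℕ) (hb : 1 ≤ b) (hbn : b ≤ n) (hn : 3 ≤ n) :
    gg b ^ 16 ≤ Real.exp (16 / Real.log 2) *
      ∏ p ∈ pz ⌊Real.log n⌋₊, (1 + if p ∣ b then hh 16 p else 0) := by
  classical
  set z := ⌊Real.log n⌋₊ with hz
  have hnr : (3 : ℝ) ≤ n := by exact_mod_cast hn
  have hL0 : 0 < Real.log n := Real.log_pos (by linarith)
  have hl2 : 0 < Real.log 2 := Real.log_pos (by norm_num)
  have e1 : gg b ^ 16 = (∏ p ∈ b.primeFactors.filter (fun p => p ≤ z), (1 + 1 / (p : ℝ)) ^ 16) *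
      ∏ p ∈ b.primeFactors.filter (fun p => ¬ p ≤ z), (1 + 1 / (p : ℝ)) ^ 16 := by
    unfold gg
    rw [← Finset.prod_pow, Finset.prod_filter_mul_prod_filter_not]
  have e2 : ∏ p ∈ b.primeFactors.filter (fun p => p ≤ z), (1 + 1 / (p : ℝ)) ^ 16 =
      ∏ p ∈ pz z, (1 + if p ∣ b then hh 16 p else 0) := by
    have e3 : b.primeFactors.filter (fun p => p ≤ z) = (pz z).filter (fun p => p ∣ b) := by
      ext p
      rw [mem_filter, Nat.mem_primeFactors, mem_filter, mem_pz]
      constructor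
      · rintro ⟨⟨h1, h2, _⟩, h3⟩
        exact ⟨⟨h3, h1⟩, h2⟩
      · rintro ⟨⟨h3, h1⟩, h2⟩
        exact ⟨⟨h1, h2, by omega⟩, h3⟩
    rw [e3, Finset.prod_filter]
    apply Finset.prod_congr rfl
    intro p _
    split_ifs
    · unfold hh; ring
    · simp
  have h3 : ∏ p ∈ b.primeFactors.filter (fun p => ¬ p ≤ z), (1 + 1 / (p : ℝ)) ^ 16 ≤
      Real.exp (16 / Real.log 2) := by
    have h4 : ∀ p ∈ b.primeFactors.filter (fun p => ¬ p ≤ z), (1 + 1 / (p : ℝ)) ^ 16 ≤
        Real.exp (16 / Real.log n) := by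
      intro p hp
      rw [mem_filter, not_le] at hp
      have h5 : Real.log n < p := (Nat.lt_floor_add_one (Real.log n)).trans_le (by exact_mod_cast hp.2)
      have h6 : 1 / (p : ℝ) ≤ 1 / Real.log n := one_div_le_one_div_of_le hL0 h5.le
      have h7 : 1 + 1 / (p : ℝ) ≤ Real.exp (1 / Real.log n) := by
        have := Real.add_one_le_exp (1 / Real.log n)
        linarith
      calc (1 + 1 / (p : ℝ)) ^ 16 ≤ Real.exp (1 / Real.log n) ^ 16 :=
            pow_le_pow_left₀ (by positivity) h7 16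
        _ = Real.exp (16 / Real.log n) := by
            rw [← Real.exp_nat_mul]; congr 1; push_cast; ring
    have h8 : ((b.primeFactors.filter (fun p => ¬ p ≤ z)).card : ℝ) * Real.log 2 ≤ Real.log n := by
      have h9 : 2 ^ (b.primeFactors.filter (fun p => ¬ p ≤ z)).card ≤ b := by
        calc 2 ^ (b.primeFactors.filter (fun p => ¬ p ≤ z)).card ≤ 2 ^ b.primeFactors.card :=
              Nat.pow_le_pow_right (by norm_num) (card_filter_le _ _)
          _ ≤ ∏ p ∈ b.primeFactors, p := by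
              apply Finset.pow_card_le_prod
              intro p hp
              exact (Nat.prime_of_mem_primeFactors hp).two_le
          _ ≤ b := Nat.le_of_dvd (by omega) (Nat.prod_primeFactors_dvd b)
      have h10 : (2 : ℝ) ^ (b.primeFactors.filter (fun p => ¬ p ≤ z)).card ≤ n := by
        have : 2 ^ (b.primeFactors.filter (fun p => ¬ p ≤ z)).card ≤ n := h9.trans hbn
        exact_mod_cast this
      have h11 := Real.log_le_log (by positivity) h10
      rwa [Real.log_pow] at h11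
    calc ∏ p ∈ b.primeFactors.filter (fun p => ¬ p ≤ z), (1 + 1 / (p : ℝ)) ^ 16
        ≤ ∏ p ∈ b.primeFactors.filter (fun p => ¬ p ≤ z), Real.exp (16 / Real.log n) := by
          apply Finset.prod_le_prod
          · intro p _; positivity
          · exact h4
      _ = Real.exp ((b.primeFactors.filter (fun p => ¬ p ≤ z)).card * (16 / Real.log n)) := by
          rw [Finset.prod_const, ← Real.exp_nat_mul]
      _ ≤ Real.exp (16 / Real.log 2) := by
          apply Real.exp_le_exp.2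
          rw [le_div_iff₀ hl2]
          calc _ = ((b.primeFactors.filter (fun p => ¬ p ≤ z)).card * Real.log 2) * (16 / Real.log n) := by ring
            _ ≤ Real.log n * (16 / Real.log n) := by gcongr
            _ = 16 := by field_simp
  rw [e1, e2, mul_comm]
  apply mul_le_mul_of_nonneg_right h3
  apply Finset.prod_nonneg
  intro p _
  have := hh_nonneg 16 p
  split_ifs <;> linarith

/-- the sieve condition -/
def QD (e a : ℕ) (p τ : ℕ) : Prop :=
  3 ≤ p ∧ ((p : ℤ) ∣ (e : ℤ) * τ + a ∨ (p : ℤ) ∣ (e : ℤ) * τ - a)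

lemma QD_per (e a : ℕ) (p n : ℕ) : QD e a p n ↔ QD e a p (n % p) := by
  unfold QD
  have h2 : ((n % p : ℕ) : ℤ) + (p : ℤ) * ((n / p : ℕ) : ℤ) = n := by exact_mod_cast Nat.mod_add_div n p
  have h : ∀ t : ℤ, (p : ℤ) ∣ (e : ℤ) * n + t ↔ (p : ℤ) ∣ (e : ℤ) * ((n % p : ℕ) : ℤ) + t := by
    intro t
    have h1 : (e : ℤ) * n + t = ((e : ℤ) * ((n % p : ℕ) : ℤ) + t) + (p : ℤ) * (e * ((n / p : ℕ) : ℤ)) := by
      rw [← h2]; ring
    rw [h1]
    exact dvd_add_left (dvd_mul_right _ _)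
  simp only [sub_eq_add_neg, h]

lemma nuB_small (e a p : ℕ) (hp : p < 3) : nuB (QD e a) p = 0 := by
  classical
  unfold nuB
  rw [Finset.card_eq_zero, Finset.filter_eq_empty_iff]
  intro r _ h
  exact absurd h.1 (by omega)

lemma nuB_dvd (e a p : ℕ) (he : p ∣ e) (ha : ¬ p ∣ a) : nuB (QD e a) p = 0 := by
  classical
  unfold nuB
  rw [Finset.card_eq_zero, Finset.filter_eq_empty_iff]
  rintro r _ ⟨_, h⟩
  have he' : (p : ℤ) ∣ (e : ℤ) * r := Dvd.dvd.mul_right (Int.natCast_dvd_natCast.2 he) _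
  rcases h with h | h
  · exact ha (Int.natCast_dvd_natCast.1 ((dvd_add_right he').1 h))
  · exact ha (Int.natCast_dvd_natCast.1 ((dvd_sub_right he').1 h))

lemma nuB_eq (e a p : ℕ) (hp : p.Prime) (hp3 : 3 ≤ p) (he : ¬ p ∣ e) :
    nuB (QD e a) p = ({(a : ZMod p) * (e : ZMod p)⁻¹, -((a : ZMod p) * (e : ZMod p)⁻¹)} : Finset (ZMod p)).card := by
  classical
  have : Fact p.Prime := ⟨hp⟩
  have he0 : (e : ZMod p) ≠ 0 := by
    intro h
    exact he ((ZMod.natCast_eq_zero_iff e p).1 h)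
  set x0 : ZMod p := (a : ZMod p) * (e : ZMod p)⁻¹ with hx0
  have hinj : Function.Injective (ZMod.val : ZMod p → ℕ) := ZMod.val_injective p
  rw [← Finset.card_image_of_injective _ hinj]
  unfold nuB
  congr 1
  ext r
  rw [mem_filter, mem_range, mem_image]
  unfold QD
  have c1 : ∀ r : ℕ, (p : ℤ) ∣ (e : ℤ) * r + a ↔ (r : ZMod p) = -x0 := by
    intro r
    rw [← ZMod.intCast_zmod_eq_zero_iff_dvd]
    push_cast
    constructor
    · intro h
      rw [hx0]
      have : (r : ZMod p) = -(a : ZMod p) * (e : ZMod p)⁻¹ := by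
        rw [eq_mul_inv_iff_mul_eq₀ he0]
        linear_combination h
      rw [this]; ring
    · intro h
      rw [h, hx0]
      field_simp
      ring
  have c2 : ∀ r : ℕ, (p : ℤ) ∣ (e : ℤ) * r - a ↔ (r : ZMod p) = x0 := by
    intro r
    rw [← ZMod.intCast_zmod_eq_zero_iff_dvd]
    push_cast
    constructor
    · intro h
      rw [hx0, eq_mul_inv_iff_mul_eq₀ he0]
      linear_combination h
    · intro h
      rw [h, hx0]
      field_simp
      ring
  rw [c1, c2]
  constructor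
  · rintro ⟨hr, _, h | h⟩
    · refine ⟨-x0, by simp, ?_⟩
      rw [← h]
      exact ZMod.val_cast_of_lt hr
    · refine ⟨x0, by simp, ?_⟩
      rw [← h]
      exact ZMod.val_cast_of_lt hr
  · rintro ⟨x, hx, rfl⟩
    refine ⟨ZMod.val_lt x, hp3, ?_⟩
    rw [ZMod.natCast_zmod_val]
    simp only [mem_insert, mem_singleton] at hx
    exact hx.symm

lemma QD_perB (e a : ℕ) (hc : ∀ p : ℕ, p.Prime → p ∣ e → ¬ p ∣ a) : PerB (QD e a) 2 := by
  refine ⟨QD_per e a, ?_⟩
  intro p hp
  by_cases h3 : 3 ≤ p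
  · by_cases he : p ∣ e
    · rw [nuB_dvd e a p he (hc p hp he)]
      omega
    · rw [nuB_eq e a p hp h3 he]
      exact Finset.card_le_two
  · rw [nuB_small e a p (by omega)]
    omega

lemma nuB_two (e a p : ℕ) (hp : p.Prime) (hp3 : 3 ≤ p) (he : ¬ p ∣ e) (ha : ¬ p ∣ a) :
    nuB (QD e a) p = 2 := by
  have : Fact p.Prime := ⟨hp⟩
  rw [nuB_eq e a p hp hp3 he]
  apply Finset.card_pair
  have he0 : (e : ZMod p) ≠ 0 := fun h => he ((ZMod.natCast_eq_zero_iff e p).1 h)
  have ha0 : (a : ZMod p) ≠ 0 := fun h => ha ((ZMod.natCast_eq_zero_iff a p).1 h)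
  have h20 : (2 : ZMod p) ≠ 0 := by
    intro h
    have h1 : ((2 : ℕ) : ZMod p) = 0 := by exact_mod_cast h
    have h2 := (ZMod.natCast_eq_zero_iff 2 p).1 h1
    have := Nat.le_of_dvd (by norm_num) h2
    omega
  intro h
  have h1 : (2 : ZMod p) * ((a : ZMod p) * (e : ZMod p)⁻¹) = 0 := by linear_combination h
  rcases mul_eq_zero.1 h1 with h2 | h2
  · exact h20 h2
  · exact (mul_ne_zero ha0 (inv_ne_zero he0)) h2

lemma nuB_one (e a p : ℕ) (hp : p.Prime) (hp3 : 3 ≤ p) (he : ¬ p ∣ e) :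
    1 ≤ nuB (QD e a) p := by
  rw [nuB_eq e a p hp hp3 he]
  exact Finset.card_pos.2 ⟨_, mem_insert_self _ _⟩

/-- one prime -/
lemma local_bound (e a p : ℕ) (hp : p.Prime) :
    1 - (nuB (QD e a) p : ℝ) / p ≤ (if p < 3 then 4 else 1) * (1 - 1 / (p : ℝ)) ^ 2 *
      (if p ∣ a then (1 - 1 / (p : ℝ))⁻¹ else 1) * (if p ∣ e then 4 else 1) := by
  have hp2 : (2 : ℝ) ≤ p := by exact_mod_cast hp.two_le
  have hp0 : (0 : ℝ) < p := by linarith
  set t : ℝ := 1 / (p : ℝ) with ht
  have ht0 : 0 < t := by positivity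
  have ht2 : t ≤ 1 / 2 := one_div_le_one_div_of_le (by norm_num) hp2
  have hnu : (nuB (QD e a) p : ℝ) / p = nuB (QD e a) p * t := by rw [ht]; ring
  rw [hnu]
  have hnn : 0 ≤ (nuB (QD e a) p : ℝ) * t := by positivity
  have hu : 0 < 1 - t := by linarith
  have hinv : 1 ≤ (1 - t)⁻¹ := by
    rw [one_le_inv₀ hu]; linarith
  have hsq : 1 / 4 ≤ (1 - t) ^ 2 := by nlinarith
  have v1 : (1 : ℝ) ≤ (if p ∣ a then (1 - t)⁻¹ else 1) := by split_ifs <;> linarith
  have v2 : (1 : ℝ) ≤ (if p ∣ e then (4 : ℝ) else 1) := by split_ifs <;> norm_num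
  by_cases h3 : p < 3
  · rw [if_pos h3]
    have w1 : (1 : ℝ) ≤ 4 * (1 - t) ^ 2 := by linarith
    have w2 : (1 : ℝ) ≤ 4 * (1 - t) ^ 2 * (if p ∣ a then (1 - t)⁻¹ else 1) := by nlinarith
    nlinarith
  · rw [if_neg h3, one_mul]
    rw [not_lt] at h3
    by_cases he : p ∣ e
    · rw [if_pos he]
      have w2 : (1 / 4 : ℝ) ≤ (1 - t) ^ 2 * (if p ∣ a then (1 - t)⁻¹ else 1) := by nlinarith
      nlinarith
    · rw [if_neg he, mul_one]
      by_cases ha : p ∣ a
      · rw [if_pos ha]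
        have h1 : (1 : ℝ) ≤ nuB (QD e a) p := by exact_mod_cast nuB_one e a p hp h3 he
        have e1 : (1 - t) ^ 2 * (1 - t)⁻¹ = 1 - t := by field_simp
        rw [e1]
        nlinarith
      · rw [if_neg ha, nuB_two e a p hp h3 he ha]
        push_cast
        nlinarith

lemma wt_eq (a : ℕ) (ha : 1 ≤ a) : wt a = ∏ p ∈ a.primeFactors, (1 - 1 / (p : ℝ))⁻¹ := by
  unfold wt
  have h1 := Nat.totient_eq_mul_prod_factors a
  have h2 : (a.totient : ℝ) = a * ∏ p ∈ a.primeFactors, (1 - (p : ℝ)⁻¹) := by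
    have := congrArg (fun q : ℚ => (q : ℝ)) h1
    push_cast at this
    exact this
  have ha0 : (0 : ℝ) < a := by exact_mod_cast ha
  rw [h2, Finset.prod_inv_distrib]
  simp only [one_div]
  rw [div_eq_mul_inv, mul_inv, ← mul_assoc, mul_inv_cancel₀ ha0.ne', one_mul]

lemma one_le_wt (a : ℕ) (ha : 1 ≤ a) : 1 ≤ wt a := by
  unfold wt
  have h1 : (0 : ℝ) < a.totient := by exact_mod_cast Nat.totient_pos.2 ha
  rw [le_div_iff₀ h1, one_mul]
  exact_mod_cast Nat.totient_le a

lemma prod_bound (a y : ℕ) (ha : 1 ≤ a) (S : Finset ℕ) (hS : ∀ p ∈ S, p.Prime) :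
    ∏ p ∈ pz y, (1 - (nuB (QD (∏ p ∈ S, p) a) p : ℝ) / p) ≤ 4 ^ 3 * Vz y ^ 2 * wt a * 4 ^ S.card := by
  classical
  set e : ℕ := ∏ p ∈ S, p with he
  have hnn1 : ∀ p ∈ pz y, 0 ≤ 1 - (nuB (QD e a) p : ℝ) / p := by
    intro p hp
    have hp0 : (0 : ℝ) < p := by exact_mod_cast (mem_pz.1 hp).2.pos
    have : (nuB (QD e a) p : ℝ) / p ≤ 1 := by
      rw [div_le_one hp0]
      exact_mod_cast nuB_le _ _
    linarith
  have h1 : ∏ p ∈ pz y, (1 - (nuB (QD e a) p : ℝ) / p) ≤
      ∏ p ∈ pz y, ((if p < 3 then 4 else 1) * (1 - 1 / (p : ℝ)) ^ 2 *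
      (if p ∣ a then (1 - 1 / (p : ℝ))⁻¹ else 1) * (if p ∣ e then 4 else 1)) :=
    Finset.prod_le_prod hnn1 (fun p hp => local_bound e a p (mem_pz.1 hp).2)
  refine h1.trans ?_
  rw [Finset.prod_mul_distrib, Finset.prod_mul_distrib, Finset.prod_mul_distrib]
  have hfac : ∀ p : ℕ, p.Prime → 1 ≤ (1 - 1 / (p : ℝ))⁻¹ := by
    intro p hp
    have hp2 : (2 : ℝ) ≤ p := by exact_mod_cast hp.two_le
    have ht0 : 0 < 1 / (p : ℝ) := by positivity
    have ht2 : 1 / (p : ℝ) ≤ 1 / 2 := one_div_le_one_div_of_le (by norm_num) hp2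
    rw [one_le_inv₀ (by linarith)]
    linarith
  have e1 : ∏ p ∈ pz y, (1 - 1 / (p : ℝ)) ^ 2 = Vz y ^ 2 := by
    unfold Vz
    rw [Finset.prod_pow]
  have e2 : ∏ p ∈ pz y, (if p < 3 then (4 : ℝ) else 1) ≤ 4 ^ 3 := by
    rw [Finset.prod_ite, Finset.prod_const, Finset.prod_const_one, mul_one]
    apply pow_le_pow_right₀ (by norm_num)
    have : (pz y).filter (fun p => p < 3) ⊆ range 3 := by
      intro p hp
      rw [mem_filter] at hp
      exact mem_range.2 hp.2
    exact (card_le_card this).trans (by simp)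
  have e3 : ∏ p ∈ pz y, (if p ∣ a then (1 - 1 / (p : ℝ))⁻¹ else 1) ≤ wt a := by
    rw [← Finset.prod_filter, wt_eq a ha]
    apply prod_subset_le'
    · intro p hp
      rw [mem_filter, mem_pz] at hp
      rw [Nat.mem_primeFactors]
      exact ⟨hp.1.2, hp.2, by omega⟩
    · intro p hp
      exact hfac p (Nat.prime_of_mem_primeFactors hp)
  have e4 : ∏ p ∈ pz y, (if p ∣ e then (4 : ℝ) else 1) ≤ 4 ^ S.card := by
    rw [Finset.prod_ite, Finset.prod_const, Finset.prod_const_one, mul_one]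
    apply pow_le_pow_right₀ (by norm_num)
    apply card_le_card
    intro p hp
    rw [mem_filter, mem_pz] at hp
    obtain ⟨q, hq, hpq⟩ := (hp.1.2.prime.dvd_finsetProd_iff _).1 hp.2
    rwa [(Nat.prime_dvd_prime_iff_eq hp.1.2 (hS q hq)).1 hpq]
  have n2 : 0 ≤ ∏ p ∈ pz y, (if p < 3 then (4 : ℝ) else 1) := by
    apply Finset.prod_nonneg
    intro p _
    split_ifs <;> norm_num
  have n3 : 0 ≤ ∏ p ∈ pz y, (if p ∣ a then (1 - 1 / (p : ℝ))⁻¹ else 1) := by
    apply Finset.prod_nonneg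
    intro p hp
    have := hfac p (mem_pz.1 hp).2
    split_ifs <;> linarith
  have n4 : 0 ≤ ∏ p ∈ pz y, (if p ∣ e then (4 : ℝ) else 1) := by
    apply Finset.prod_nonneg
    intro p _
    split_ifs <;> norm_num
  rw [e1]
  have hw : 0 ≤ wt a := zero_le_one.trans (one_le_wt a ha)
  apply mul_le_mul _ e4 n4 (by positivity)
  apply mul_le_mul _ e3 n3 (by positivity)
  exact mul_le_mul_of_nonneg_right e2 (by positivity)

lemma prod_one_add_inv (z : ℕ) : ∏ j ∈ Icc 1 z, (1 + 1 / (j : ℝ)) = z + 1 := by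
  induction z with
  | zero => simp
  | succ z ih =>
    rw [Finset.prod_Icc_succ_top (by omega), ih]
    push_cast
    have : (z : ℝ) + 1 ≠ 0 := by positivity
    field_simp

lemma prod_hh (z : ℕ) : ∏ p ∈ pz z, (1 + hh 16 p) ≤ ((z : ℝ) + 1) ^ 16 := by
  have e : ∏ p ∈ pz z, (1 + hh 16 p) = (∏ p ∈ pz z, (1 + 1 / (p : ℝ))) ^ 16 := by
    rw [← Finset.prod_pow]
    apply Finset.prod_congr rfl
    intro p _
    unfold hh; ring
  rw [e]
  apply pow_le_pow_left₀
  · apply Finset.prod_nonneg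
    intro p _
    positivity
  · rw [← prod_one_add_inv]
    apply prod_subset_le'
    · unfold pz; exact filter_subset _ _
    · intro p _
      have : (0 : ℝ) ≤ 1 / (p : ℝ) := by positivity
      linarith

lemma prod_hh4 (z : ℕ) : ∏ p ∈ pz z, (1 + 4 * hh 16 p / p) ≤ Real.exp (4 * 2 ^ 16 * 2) := by
  calc ∏ p ∈ pz z, (1 + 4 * hh 16 p / p) ≤ ∏ p ∈ pz z, Real.exp (4 * 2 ^ 16 * (1 / (p : ℝ) ^ 2)) := by
        apply Finset.prod_le_prod
        · intro p _
          have := hh_nonneg 16 p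
          positivity
        · intro p hp
          have hp1 := (mem_pz.1 hp).2.one_le
          have hp' : (0 : ℝ) < p := by exact_mod_cast hp1
          have h6 := hh_le 16 p hp1
          have h7 : 4 * hh 16 p / p ≤ 4 * 2 ^ 16 * (1 / (p : ℝ) ^ 2) := by
            rw [div_le_iff₀ hp']
            calc 4 * hh 16 p ≤ 4 * (2 ^ 16 / p) := by gcongr
              _ = _ := by field_simp
          have h8 := Real.add_one_le_exp (4 * 2 ^ 16 * (1 / (p : ℝ) ^ 2))
          linarith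
    _ = Real.exp (4 * 2 ^ 16 * ∑ p ∈ pz z, 1 / (p : ℝ) ^ 2) := by
        rw [← Real.exp_sum, Finset.mul_sum]
    _ ≤ Real.exp (4 * 2 ^ 16 * 2) := by
        apply Real.exp_le_exp.2
        have := sum_pz z
        gcongr

end D2P

open MomP CodegP D2P in
open Classical in
theorem t_wsum2 (hm : S_mert) : S_wsum2 := by
  intro t ht
  obtain ⟨CM, hCM, hmert⟩ := hm
  obtain ⟨K, x0, hK1, hF⟩ := sys_fund 2 (by norm_num) 1 one_pos
  set K' : ℕ := max K t with hK'
  have hK't : t ≤ K' := le_max_right _ _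
  have hKK' : K ≤ K' := le_max_left _ _
  obtain ⟨n1, hn1⟩ := ev_log' 18 (2 ^ 16)
  obtain ⟨n2, hn2⟩ := ev_log' t 1
  set C1 : ℝ := Real.exp (16 / Real.log 2) with hC1
  have hC1p : 0 < C1 := Real.exp_pos _
  set C2 : ℝ := Real.exp (4 * 2 ^ 16 * 2) with hC2
  have hC2p : 0 < C2 := Real.exp_pos _
  refine ⟨C1 * (2 * (4 ^ 3 * (2 * K' * CM) ^ 2 * C2) + 1), by positivity,
    max (max ((x0 + 3) ^ K') n1) (max n2 3), ?_⟩
  intro n hn a ha
  rw [mem_Icc] at ha
  have hnx : (x0 + 3) ^ K' ≤ n := le_trans (le_trans (le_max_left _ _) (le_max_left _ _)) hn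
  have hnn1 : n1 ≤ n := le_trans (le_trans (le_max_right _ _) (le_max_left _ _)) hn
  have hnn2 : n2 ≤ n := le_trans (le_trans (le_max_left _ _) (le_max_right _ _)) hn
  have hn3 : 3 ≤ n := le_trans (le_trans (le_max_right _ _) (le_max_right _ _)) hn
  obtain ⟨y, hy1, hy2⟩ := level n K' (by omega) (by omega)
  have hyx : x0 + 3 ≤ y := by
    by_contra h
    rw [not_le] at h
    have : (y + 1) ^ K' ≤ (x0 + 3) ^ K' := Nat.pow_le_pow_left (by omega) _
    omega
  have hyK : y ^ K ≤ n := (Nat.pow_le_pow_right (by omega) hKK').trans hy1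
  have hyt : y ^ t ≤ n := (Nat.pow_le_pow_right (by omega) hK't).trans hy1
  -- logs
  have hnr : (3 : ℝ) ≤ n := by exact_mod_cast hn3
  have hn0 : (0 : ℝ) < n := by linarith
  set L : ℝ := Real.log n with hL
  have hL0 : 0 < L := Real.log_pos (by linarith)
  have hL1 : 1 ≤ L := by
    rw [hL, Real.le_log_iff_exp_le hn0]
    have := Real.exp_one_lt_d9
    linarith
  have hyr : (3 : ℝ) ≤ y := by exact_mod_cast (by omega : 3 ≤ y)
  have hly0 : 0 < Real.log y := Real.log_pos (by linarith)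
  have hLy : L ≤ 2 * K' * Real.log y := by
    have h1 : (n : ℝ) ≤ ((y : ℝ) ^ 2) ^ K' := by
      have h2 : n ≤ (y ^ 2) ^ K' := hy2.le.trans (Nat.pow_le_pow_left (by nlinarith) _)
      exact_mod_cast h2
    have h3 := Real.log_le_log hn0 h1
    rw [Real.log_pow, Real.log_pow] at h3
    push_cast at h3
    linarith
  have hV0 : 0 ≤ Vz y := by
    unfold Vz
    apply Finset.prod_nonneg
    intro p hp
    have hp1 : (1 : ℝ) ≤ p := by exact_mod_cast (mem_pz.1 hp).2.one_le
    have : 1 / (p : ℝ) ≤ 1 := by rw [div_le_one (by linarith)]; exact hp1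
    linarith
  have hV : Vz y ≤ 2 * K' * CM / L := by
    have h1 := hmert y (by omega)
    rw [le_div_iff₀ hL0]
    calc Vz y * L ≤ Vz y * (2 * K' * Real.log y) := by gcongr
      _ = 2 * K' * (Vz y * Real.log y) := by ring
      _ ≤ 2 * K' * CM := by gcongr
  have hV2 : Vz y ^ 2 ≤ (2 * K' * CM) ^ 2 / L ^ 2 := by
    rw [← div_pow]
    exact pow_le_pow_left₀ hV0 hV 2
  have hw1 := one_le_wt a ha.1
  set z : ℕ := ⌊L⌋₊ with hz
  have hzL : (z : ℝ) ≤ L := Nat.floor_le hL0.le
  -- the count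
  have hcount : ∀ S ∈ (pz z).powerset,
      (((Icc 1 n).filter (fun b => R2 n t a b ∧ ∏ p ∈ S, p ∣ b)).card : ℝ) ≤
        2 * (4 ^ 3 * Vz y ^ 2 * wt a) * n * ∏ p ∈ S, (4 / (p : ℝ)) + √(n : ℝ) := by
    intro S hS
    rw [mem_powerset] at hS
    have hSp : ∀ p ∈ S, p.Prime := fun p hp => (mem_pz.1 (hS hp)).2
    set e : ℕ := ∏ p ∈ S, p with he
    have he0 : 0 < e := Finset.prod_pos (fun p hp => (hSp p hp).pos)
    have hprod0 : 0 ≤ ∏ p ∈ S, (4 / (p : ℝ)) := Finset.prod_nonneg (fun p _ => by positivity)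
    by_cases hc : ∃ p : ℕ, p.Prime ∧ p ∣ e ∧ p ∣ a
    · obtain ⟨p, hp, hpe, hpa⟩ := hc
      have hempty : (Icc 1 n).filter (fun b => R2 n t a b ∧ e ∣ b) = ∅ := by
        rw [Finset.filter_eq_empty_iff]
        rintro b _ ⟨hR, hb⟩
        have h1 := hR.1.2 p hp (Nat.dvd_add hpa (hpe.trans hb))
        have hpz : p ∈ pz z := by
          obtain ⟨q, hq, hpq⟩ := (hp.prime.dvd_finsetProd_iff _).1 hpe
          rw [(Nat.prime_dvd_prime_iff_eq hp (hSp q hq)).1 hpq]
          exact hS hq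
        have hpL : (p : ℝ) ≤ L := by
          have : (p : ℝ) ≤ z := by exact_mod_cast (mem_pz.1 hpz).1
          linarith
        have h2 : (n : ℝ) < (p : ℝ) ^ t := by exact_mod_cast h1
        have h3 : (p : ℝ) ^ t ≤ L ^ t := pow_le_pow_left₀ (by positivity) hpL t
        have h4 := hn2 n hnn2
        rw [one_mul] at h4
        have h5 : √(n : ℝ) ≤ n := by
          rw [Real.sqrt_le_left (by linarith)]
          nlinarith
        linarith
      rw [hempty, card_empty, Nat.cast_zero]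
      positivity
    · have hc' : ∀ p : ℕ, p.Prime → p ∣ e → ¬ p ∣ a := fun p hp h1 h2 => hc ⟨p, hp, h1, h2⟩
      have hcnt := hF n y (by omega) hyK (QD e a) (QD_perB e a hc') (n / e)
      set P : ℝ := ∏ p ∈ pz y, (1 - (nuB (QD e a) p : ℝ) / p) with hP
      have hPb := prod_bound a y ha.1 S hSp
      rw [← he, ← hP] at hPb
      have h1 : ((Icc 1 n).filter (fun b => R2 n t a b ∧ e ∣ b)).card ≤
          ((Icc 1 (n / e)).filter (fun τ : ℕ => ∀ p ∈ pz y, ¬ QD e a p τ)).card := by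
        apply Finset.card_le_card_of_injOn (fun b => b / e)
        · intro b hb
          rw [Finset.mem_coe, mem_filter, mem_Icc] at hb
          obtain ⟨⟨hb1, hbn⟩, hR, hd⟩ := hb
          obtain ⟨τ, rfl⟩ := hd
          rw [Finset.mem_coe, mem_filter, mem_Icc]
          simp only [Nat.mul_div_cancel_left τ he0]
          have hτ1 : 1 ≤ τ := by
            rcases Nat.eq_zero_or_pos τ with h | h
            · subst h; simp at hb1
            · exact h
          refine ⟨⟨hτ1, (Nat.le_div_iff_mul_le he0).2 (by rw [mul_comm]; exact hbn)⟩, ?_⟩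
          rintro p hp ⟨_, h3⟩
          obtain ⟨hpy, hpp⟩ := mem_pz.1 hp
          have hpt : p ^ t ≤ n := (Nat.pow_le_pow_left hpy t).trans hyt
          rcases h3 with h3 | h3
          · have h4 : p ∣ a + e * τ := by
              apply Int.natCast_dvd_natCast.1
              push_cast
              rw [add_comm]
              exact h3
            have := hR.1.2 p hpp h4
            omega
          · have h4 : p ∣ Nat.dist a (e * τ) := by
              rcases le_total a (e * τ) with hac | hac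
              · rw [Nat.dist_eq_sub_of_le hac]
                apply Int.natCast_dvd_natCast.1
                rw [Nat.cast_sub hac]
                push_cast
                exact h3
              · rw [Nat.dist_eq_sub_of_le_right hac]
                apply Int.natCast_dvd_natCast.1
                rw [Nat.cast_sub hac]
                push_cast
                have := (dvd_neg (α := ℤ)).2 h3
                rwa [neg_sub] at this
            have := hR.2.2 p hpp h4
            omega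
        · intro b hb b' hb' hbb
          rw [Finset.mem_coe, mem_filter] at hb hb'
          obtain ⟨τ, rfl⟩ := hb.2.2
          obtain ⟨τ', rfl⟩ := hb'.2.2
          simp only [Nat.mul_div_cancel_left τ he0, Nat.mul_div_cancel_left τ' he0] at hbb
          rw [hbb]
      have h2 : (((Icc 1 n).filter (fun b => R2 n t a b ∧ e ∣ b)).card : ℝ) ≤
          ((((Icc 1 (n / e)).filter (fun τ : ℕ => ∀ p ∈ pz y, ¬ QD e a p τ)).card : ℕ) : ℝ) := by
        exact_mod_cast h1
      have h3 := (abs_le.1 hcnt).2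
      have hP0 : 0 ≤ P := by
        apply Finset.prod_nonneg
        intro p hp
        have hp0 : (0 : ℝ) < p := by exact_mod_cast (mem_pz.1 hp).2.pos
        have : (nuB (QD e a) p : ℝ) / p ≤ 1 := by
          rw [div_le_one hp0]
          exact_mod_cast nuB_le _ _
        linarith
      have h4 : ((n / e : ℕ) : ℝ) ≤ n / e := Nat.cast_div_le
      have her : (0 : ℝ) < e := by exact_mod_cast he0
      have h5 : ((n / e : ℕ) : ℝ) * P ≤ (n / e) * (4 ^ 3 * Vz y ^ 2 * wt a * 4 ^ S.card) :=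
        mul_le_mul h4 hPb hP0 (by positivity)
      have h6 : (n / e) * (4 ^ 3 * Vz y ^ 2 * wt a * 4 ^ S.card) =
          (4 ^ 3 * Vz y ^ 2 * wt a) * n * ∏ p ∈ S, (4 / (p : ℝ)) := by
        rw [Finset.prod_div_distrib, Finset.prod_const, he, Nat.cast_prod]
        ring
      rw [h6] at h5
      linarith
  -- the sum
  have hstep1 : ∑ b ∈ (Icc 1 n).filter (fun b => R2 n t a b), gg b ^ 16 ≤
      C1 * ∑ b ∈ (Icc 1 n).filter (fun b => R2 n t a b),
        ∏ p ∈ pz z, (1 + if p ∣ b then hh 16 p else 0) := by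
    rw [Finset.mul_sum]
    apply Finset.sum_le_sum
    intro b hb
    rw [mem_filter, mem_Icc] at hb
    exact gg_le n b hb.1.1 hb.1.2 hn3
  have hstep2 : ∑ b ∈ (Icc 1 n).filter (fun b => R2 n t a b),
        ∏ p ∈ pz z, (1 + if p ∣ b then hh 16 p else 0) =
      ∑ S ∈ (pz z).powerset, (∏ p ∈ S, hh 16 p) *
        (((Icc 1 n).filter (fun b => R2 n t a b ∧ ∏ p ∈ S, p ∣ b)).card : ℝ) := by
    have h1 : ∀ b ∈ (Icc 1 n).filter (fun b => R2 n t a b),
        ∏ p ∈ pz z, (1 + if p ∣ b then hh 16 p else 0) =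
        ∑ S ∈ (pz z).powerset, ∏ p ∈ S, (if p ∣ b then hh 16 p else 0) := by
      intro b _
      rw [Finset.prod_one_add]
    rw [Finset.sum_congr rfl h1, Finset.sum_comm]
    apply Finset.sum_congr rfl
    intro S hS
    rw [mem_powerset] at hS
    have hSp : ∀ p ∈ S, p.Prime := fun p hp => (mem_pz.1 (hS hp)).2
    have h3 : ∀ b ∈ (Icc 1 n).filter (fun b => R2 n t a b),
        ∏ p ∈ S, (if p ∣ b then hh 16 p else 0) =
        if ∏ p ∈ S, p ∣ b then ∏ p ∈ S, hh 16 p else 0 := by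
      intro b _
      rw [Finset.prod_ite_zero]
      simp only [prod_dvd_iff S hSp b]
    rw [Finset.sum_congr rfl h3, ← Finset.sum_filter, Finset.sum_const, nsmul_eq_mul,
      Finset.filter_filter, mul_comm]
  have hstep3 : ∑ S ∈ (pz z).powerset, (∏ p ∈ S, hh 16 p) *
        (((Icc 1 n).filter (fun b => R2 n t a b ∧ ∏ p ∈ S, p ∣ b)).card : ℝ) ≤
      2 * (4 ^ 3 * Vz y ^ 2 * wt a) * n * C2 + (2 * L) ^ 16 * √(n : ℝ) := by
    calc _ ≤ ∑ S ∈ (pz z).powerset, (∏ p ∈ S, hh 16 p) *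
          (2 * (4 ^ 3 * Vz y ^ 2 * wt a) * n * ∏ p ∈ S, (4 / (p : ℝ)) + √(n : ℝ)) := by
          apply Finset.sum_le_sum
          intro S hS
          apply mul_le_mul_of_nonneg_left (hcount S hS)
          exact Finset.prod_nonneg (fun p _ => hh_nonneg 16 p)
      _ = 2 * (4 ^ 3 * Vz y ^ 2 * wt a) * n * ∏ p ∈ pz z, (1 + 4 * hh 16 p / p) +
          (∏ p ∈ pz z, (1 + hh 16 p)) * √(n : ℝ) := by
          rw [Finset.prod_one_add, Finset.prod_one_add, Finset.mul_sum, Finset.sum_mul,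
            ← Finset.sum_add_distrib]
          apply Finset.sum_congr rfl
          intro S _
          have e5 : ∏ p ∈ S, (4 * hh 16 p / (p : ℝ)) = (∏ p ∈ S, hh 16 p) * ∏ p ∈ S, (4 / (p : ℝ)) := by
            rw [← Finset.prod_mul_distrib]
            apply Finset.prod_congr rfl
            intro p _
            ring
          rw [e5]
          ring
      _ ≤ _ := by
          have h1 := prod_hh4 z
          have h2 : ∏ p ∈ pz z, (1 + hh 16 p) ≤ (2 * L) ^ 16 := by
            refine (prod_hh z).trans ?_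
            apply pow_le_pow_left₀ (by positivity)
            linarith
          gcongr
  -- the error
  have herr : (2 * L) ^ 16 * √(n : ℝ) ≤ n / L ^ 2 := by
    have h1 := hn1 n hnn1
    rw [le_div_iff₀ (by positivity)]
    have h2 : √(n : ℝ) * √(n : ℝ) = n := Real.mul_self_sqrt hn0.le
    calc (2 * L) ^ 16 * √(n : ℝ) * L ^ 2 = √(n : ℝ) * (2 ^ 16 * L ^ 18) := by ring
      _ ≤ √(n : ℝ) * √(n : ℝ) := by gcongr
      _ = n := h2
  have hLL : LL n = n / L ^ 2 := rfl
  have hnl : 0 ≤ (n : ℝ) / L ^ 2 := by positivity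
  have hmain : 2 * (4 ^ 3 * Vz y ^ 2 * wt a) * n * C2 ≤
      2 * (4 ^ 3 * (2 * K' * CM) ^ 2 * C2) * (wt a * (n / L ^ 2)) := by
    calc 2 * (4 ^ 3 * Vz y ^ 2 * wt a) * n * C2
        ≤ 2 * (4 ^ 3 * ((2 * K' * CM) ^ 2 / L ^ 2) * wt a) * n * C2 := by gcongr
      _ = _ := by ring
  calc ∑ b ∈ (Icc 1 n).filter (fun b => R2 n t a b), gg b ^ 16
      ≤ C1 * (2 * (4 ^ 3 * Vz y ^ 2 * wt a) * n * C2 + (2 * L) ^ 16 * √(n : ℝ)) := by
        refine hstep1.trans ?_
        rw [hstep2]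
        gcongr
    _ ≤ C1 * (2 * (4 ^ 3 * (2 * K' * CM) ^ 2 * C2) * (wt a * (n / L ^ 2)) + wt a * (n / L ^ 2)) := by
        have h7 : n / L ^ 2 ≤ wt a * (n / L ^ 2) := by nlinarith
        have h8 := herr.trans h7
        gcongr
    _ = C1 * (2 * (4 ^ 3 * (2 * K' * CM) ^ 2 * C2) + 1) * wt a * LL n := by
        rw [hLL]; ring

end Pool.Agent.R521.GG
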