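import Pool.Agent.R521.GG.Br

set_option autoImplicit false

/-!
# The Goldbach graphs and the theorem, from the pieces
-/

namespace Pool.Agent.R521.GG

open Finset

/-- An odd prime less than `2 n`. -/
def OddPrimeBelow (n m : ℕ) : Prop := m.Prime ∧ Odd m ∧ m < 2 * n

/-- The finite Goldbach graph `G_n` on `{0, 2, 4, …, 2 n}`: distinct `a`, `b` are adjacent iff
`(a + b)/2` and `|a - b|/2` are odd primes less than `2 n`. -/
def goldbach (n : ℕ) : SimpleGraph {a : ℕ // Even a ∧ a ≤ 2 * n} where
  Adj a b := a ≠ b ∧ OddPrimeBelow n (((a : ℕ) + b) / 2) ∧ OddPrimeBelow n (Nat.dist a b / 2)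
  symm := ⟨fun a b h => ⟨h.1.symm, by rw [add_comm (b : ℕ)]; exact h.2.1,
    by rw [Nat.dist_comm]; exact h.2.2⟩⟩
  loopless := ⟨fun _ h => h.1 rfl⟩

/-- The finite near Goldbach graph `G(n)` on `{2, 4, …, 2 n}`: distinct `a`, `b` are adjacent iff
each of `(a + b)/2` and `|a - b|/2` is `1` or an odd prime less than `2 n`. -/
def nearGoldbach (n : ℕ) : SimpleGraph {a : ℕ // Even a ∧ 2 ≤ a ∧ a ≤ 2 * n} where
  Adj a b := a ≠ b ∧ (((a : ℕ) + b) / 2 = 1 ∨ OddPrimeBelow n (((a : ℕ) + b) / 2)) ∧
    (Nat.dist a b / 2 = 1 ∨ OddPrimeBelow n (Nat.dist a b / 2))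
  symm := ⟨fun a b h => ⟨h.1.symm, by rw [add_comm (b : ℕ)]; exact h.2.1,
    by rw [Nat.dist_comm]; exact h.2.2⟩⟩
  loopless := ⟨fun _ h => h.1 rfl⟩

/-- There is a set `X` of vertices of `G` which contains all the vertices with at most `n / (log n) ^ U` exceptions,
such that the subgraph of `G` induced on `X` has at most `C` connected components, any two vertices of the same
component of this subgraph are at a distance of at most `C` in it, and every vertex of `X` has at least
`c n / (log n) ^ 2` neighbours in `X`. -/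
def AlmostBounded {V : Type} (G : SimpleGraph V) (C : ℕ) (c : ℝ) (U n : ℕ) : Prop :=
  ∃ X : Set V, (Xᶜ.ncard : ℝ) ≤ n / Real.log n ^ U ∧
    Nat.card (G.induce X).ConnectedComponent ≤ C ∧
    (∀ u v : X, (G.induce X).Reachable u v → (G.induce X).dist u v ≤ C) ∧
    ∀ u : X, c * (n / Real.log n ^ 2) ≤ (((G.induce X).neighborSet u).ncard : ℝ)

lemma R_lt {n a b : ℕ} (ha : a ∈ Icc 1 n) (hb : b ∈ Icc 1 n) (h : R a b) : a ≠ b ∧ a + b < 2 * n ∧ Nat.dist a b < 2 * n := by
  rw [mem_Icc] at ha hb
  have hne : a ≠ b := by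
    rintro rfl
    have := h.2.1
    rw [Nat.dist_self] at this
    exact Nat.not_prime_zero this
  refine ⟨hne, by omega, ?_⟩
  simp only [Nat.dist]
  omega

lemma dist_two (a b : ℕ) : Nat.dist (2 * a) (2 * b) / 2 = Nat.dist a b := by
  simp only [Nat.dist]
  omega

theorem fin_of (hgr : S_graph) (hm : S_mom) (hc : S_codeg) (hw : S_wsum) (hg : S_gold) (ht : S_twin) (hp : S_peel) :
    ∃ (C : ℕ) (c : ℝ), 0 < c ∧ ∀ U : ℕ, ∃ N : ℕ, ∀ n : ℕ, N ≤ n →
      AlmostBounded (goldbach n) C c U n ∧ AlmostBounded (nearGoldbach n) C c U n := by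
  obtain ⟨c, K, hc0, hK, hmain⟩ := main hm hc hw hg ht hp
  refine ⟨7 * K, c, hc0, fun U => ?_⟩
  obtain ⟨n₁, h1⟩ := hmain (U + 1)
  have hlogt : Filter.Tendsto (fun n : ℕ => Real.log n) Filter.atTop Filter.atTop :=
    Real.tendsto_log_atTop.comp tendsto_natCast_atTop_atTop
  obtain ⟨n₂, h2⟩ := Filter.eventually_atTop.1 (hlogt.eventually_ge_atTop 2)
  -- `n / log ^ (U + 1) n` is at least one
  have hbig : ∃ n₃ : ℕ, ∀ n : ℕ, n₃ ≤ n → 1 ≤ (n : ℝ) / Real.log n ^ (U + 1) := by
    have h3 := isLittleO_log_rpow_rpow_atTop (s := (1 : ℝ)) ((U + 1 : ℕ) : ℝ) (by norm_num)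
    have h4 := h3.bound (c := 1) (by norm_num)
    have h5 := (tendsto_natCast_atTop_atTop (R := ℝ)).eventually h4
    obtain ⟨n₀, h0⟩ := Filter.eventually_atTop.1 h5
    refine ⟨n₀ + 3, fun n hn => ?_⟩
    have h6 := h0 n (by omega)
    have hn3 : (1 : ℝ) < n := by exact_mod_cast (by omega : 1 < n)
    have hl : 0 < Real.log n := Real.log_pos hn3
    rw [Real.norm_of_nonneg (by positivity), Real.norm_of_nonneg (by positivity), Real.rpow_natCast, Real.rpow_one, one_mul] at h6
    rw [le_div_iff₀ (by positivity), one_mul]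
    exact h6
  obtain ⟨n₃, h3⟩ := hbig
  refine ⟨n₁ + n₂ + n₃ + 1, fun n hn => ?_⟩
  obtain ⟨X, hX, hXc, hXd, hXf⟩ := h1 n (by omega)
  have a2 := h2 n (by omega)
  have a3 := h3 n (by omega)
  have hcount : ((Icc 1 n \ X).card : ℝ) + 1 ≤ n / Real.log n ^ U := by
    have hl : 0 < Real.log n := by linarith
    have e : (n : ℝ) / Real.log n ^ U = n / Real.log n ^ (U + 1) * Real.log n := by
      rw [pow_succ]
      field_simp
    rw [e]
    have h0 : 0 < (n : ℝ) / Real.log n ^ (U + 1) := by linarith
    nlinarith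
  haveI i1 : Finite {a : ℕ // Even a ∧ a ≤ 2 * n} :=
    Finite.of_injective (β := Fin (2 * n + 1)) (fun v => ⟨v.1, by have := v.2.2; omega⟩) (by
      intro u v huv
      apply Subtype.ext
      exact Fin.mk.inj_iff.1 huv)
  haveI i2 : Finite {a : ℕ // Even a ∧ 2 ≤ a ∧ a ≤ 2 * n} :=
    Finite.of_injective (β := Fin (2 * n + 1)) (fun v => ⟨v.1, by have := v.2.2.2; omega⟩) (by
      intro u v huv
      apply Subtype.ext
      exact Fin.mk.inj_iff.1 huv)
  constructor
  · -- the Goldbach graph
    have hb := bridge hgr (V := {a : ℕ // Even a ∧ a ≤ 2 * n}) (hK := hK) (G := goldbach n) (n := n) (X := X) (hX := hX)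
      (φ := fun m => if hm : m ≤ n then ⟨2 * m, even_two_mul m, by omega⟩ else ⟨0, ⟨0, rfl⟩, by omega⟩)
      (h := fun v => v.1 / 2)
      (hφ := by
        intro m hm
        rw [mem_Icc] at hm
        simp only [hm.2, dif_pos]
        omega)
      (hinj := by
        intro u v huv
        apply Subtype.ext
        obtain ⟨⟨a, hu⟩, _⟩ := u.2
        obtain ⟨⟨b, hv⟩, _⟩ := v.2
        simp only at huv
        omega)
      (hbig := by
        intro v
        have := v.2.2
        show v.1 / 2 ≤ n
        omega)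
      (hadj := by
        intro a ha b hb hR
        obtain ⟨r1, r2, r3⟩ := R_lt ha hb hR
        have ha' := (mem_Icc.1 ha).2
        have hb' := (mem_Icc.1 hb).2
        simp only [ha', hb', dif_pos]
        refine ⟨?_, ⟨?_, ?_, ?_⟩, ⟨?_, ?_, ?_⟩⟩
        · intro h
          have := congrArg Subtype.val h
          simp only at this
          omega
        · show ((2 * a + 2 * b) / 2).Prime
          rw [← mul_add, Nat.mul_div_cancel_left _ (by norm_num)]
          exact hR.1.1
        · show Odd ((2 * a + 2 * b) / 2)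
          rw [← mul_add, Nat.mul_div_cancel_left _ (by norm_num)]
          exact hR.1.2
        · show (2 * a + 2 * b) / 2 < 2 * n
          omega
        · show (Nat.dist (2 * a) (2 * b) / 2).Prime
          rw [dist_two]
          exact hR.2.1
        · show Odd (Nat.dist (2 * a) (2 * b) / 2)
          rw [dist_two]
          exact hR.2.2
        · show Nat.dist (2 * a) (2 * b) / 2 < 2 * n
          rw [dist_two]
          exact r3)
      (hclose := hXf)
    obtain ⟨b1, b2, b3, b4⟩ := hb
    refine ⟨{v | v.1 / 2 ∈ X}, ?_, by omega, fun u v huv => (b3 u v huv).le, fun u => ?_⟩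
    · refine le_trans ?_ hcount
      exact_mod_cast b1
    · refine (hXd (u.1.1 / 2) u.2).trans ?_
      exact_mod_cast b4 u
  · have hn1 : 1 ≤ n := by omega
    have hb := bridge hgr (V := {a : ℕ // Even a ∧ 2 ≤ a ∧ a ≤ 2 * n}) (hK := hK) (G := nearGoldbach n) (n := n) (X := X) (hX := hX)
      (φ := fun m => if hm : 1 ≤ m ∧ m ≤ n then ⟨2 * m, even_two_mul m, by omega, by omega⟩ else ⟨2, even_two, by omega, by omega⟩)
      (h := fun v => v.1 / 2)
      (hφ := by
        intro m hm
        rw [mem_Icc] at hm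
        simp only [hm, and_self, dif_pos]
        omega)
      (hinj := by
        intro u v huv
        apply Subtype.ext
        obtain ⟨⟨a, hu⟩, _⟩ := u.2
        obtain ⟨⟨b, hv⟩, _⟩ := v.2
        simp only at huv
        omega)
      (hbig := by
        intro v
        have := v.2.2
        show v.1 / 2 ≤ n
        omega)
      (hadj := by
        intro a ha b hb hR
        obtain ⟨r1, r2, r3⟩ := R_lt ha hb hR
        have ha' := mem_Icc.1 ha
        have hb' := mem_Icc.1 hb
        simp only [ha', hb', and_self, dif_pos]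
        refine ⟨?_, Or.inr ⟨?_, ?_, ?_⟩, Or.inr ⟨?_, ?_, ?_⟩⟩
        · intro h
          have := congrArg Subtype.val h
          simp only at this
          omega
        · show ((2 * a + 2 * b) / 2).Prime
          rw [← mul_add, Nat.mul_div_cancel_left _ (by norm_num)]
          exact hR.1.1
        · show Odd ((2 * a + 2 * b) / 2)
          rw [← mul_add, Nat.mul_div_cancel_left _ (by norm_num)]
          exact hR.1.2
        · show (2 * a + 2 * b) / 2 < 2 * n
          omega
        · show (Nat.dist (2 * a) (2 * b) / 2).Prime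
          rw [dist_two]
          exact hR.2.1
        · show Odd (Nat.dist (2 * a) (2 * b) / 2)
          rw [dist_two]
          exact hR.2.2
        · show Nat.dist (2 * a) (2 * b) / 2 < 2 * n
          rw [dist_two]
          exact r3)
      (hclose := hXf)
    obtain ⟨b1, b2, b3, b4⟩ := hb
    refine ⟨{v | v.1 / 2 ∈ X}, ?_, by omega, fun u v huv => (b3 u v huv).le, fun u => ?_⟩
    · refine le_trans ?_ hcount
      exact_mod_cast b1
    · refine (hXd (u.1.1 / 2) u.2).trans ?_
      exact_mod_cast b4 u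

end Pool.Agent.R521.GG
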