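import Pool.Agent.R521.GG.H3

set_option autoImplicit false

/-!
# The graphs with one prime and one almost prime, from the pieces
-/

namespace Pool.Agent.R521.GG

open Finset

/-- `m` is an odd prime or a product of two odd primes -/
def OddSemi (m : ℕ) : Prop := Odd m ∧ (m.Prime ∨ ∃ p q : ℕ, p.Prime ∧ q.Prime ∧ m = p * q)

/-- The graph on `{0, 2, 4, …, 2 n}`: distinct `a`, `b` are adjacent iff `|a - b|/2` is an odd prime and
`(a + b)/2` is an odd prime or a product of two odd primes. -/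
def chenDiff (n : ℕ) : SimpleGraph {a : ℕ // Even a ∧ a ≤ 2 * n} where
  Adj a b := a ≠ b ∧ OddSemi (((a : ℕ) + b) / 2) ∧ ((Nat.dist a b / 2).Prime ∧ Odd (Nat.dist a b / 2))
  symm := ⟨fun a b h => ⟨h.1.symm, by rw [add_comm (b : ℕ)]; exact h.2.1,
    by rw [Nat.dist_comm]; exact h.2.2⟩⟩
  loopless := ⟨fun _ h => h.1 rfl⟩

/-- The graph on `{0, 2, 4, …, 2 n}`: distinct `a`, `b` are adjacent iff `(a + b)/2` is an odd prime and
`|a - b|/2` is an odd prime or a product of two odd primes. -/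
def chenSum (n : ℕ) : SimpleGraph {a : ℕ // Even a ∧ a ≤ 2 * n} where
  Adj a b := a ≠ b ∧ ((((a : ℕ) + b) / 2).Prime ∧ Odd (((a : ℕ) + b) / 2)) ∧ OddSemi (Nat.dist a b / 2)
  symm := ⟨fun a b h => ⟨h.1.symm, by rw [add_comm (b : ℕ)]; exact h.2.1,
    by rw [Nat.dist_comm]; exact h.2.2⟩⟩
  loopless := ⟨fun _ h => h.1 rfl⟩

lemma semi_of_length {m : ℕ} (hm : 2 ≤ m) (h : m.primeFactorsList.length ≤ 2) :
    m.Prime ∨ ∃ p q : ℕ, p.Prime ∧ q.Prime ∧ m = p * q := by
  have hprod := Nat.prod_primeFactorsList (n := m) (by omega)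
  have hpr : ∀ p ∈ m.primeFactorsList, p.Prime := fun p hp => Nat.prime_of_mem_primeFactorsList hp
  rcases hl : m.primeFactorsList with _ | ⟨p, _ | ⟨q, _ | ⟨r, l⟩⟩⟩
  · rw [hl] at hprod
    simp at hprod
    omega
  · rw [hl] at hprod hpr
    simp at hprod
    left
    rw [← hprod]
    exact hpr p (by simp)
  · rw [hl] at hprod hpr
    simp at hprod
    right
    exact ⟨p, q, hpr p (by simp), hpr q (by simp), hprod.symm⟩
  · rw [hl] at h
    simp at h

theorem bridge2 (hgr : S_graph) {V : Type} [Finite V] (G : SimpleGraph V) (n K : ℕ)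
    (A : ℕ → ℕ → Prop) (φ : ℕ → V) (h : V → ℕ) (hφ : ∀ m ∈ Icc 1 n, h (φ m) = m) (hinj : Function.Injective h)
    (hbig : ∀ v, h v ≤ n)
    (hadj : ∀ a ∈ Icc 1 n, ∀ b ∈ Icc 1 n, A a b → G.Adj (φ a) (φ b))
    (hclose : ∀ f : Fin K → ℕ, (∀ i, f i ∈ Icc 1 n) → Function.Injective f → ∃ i j, i ≠ j ∧
        ∃ b₁ ∈ Icc 1 n, ∃ b₂ ∈ Icc 1 n, ∃ b₃ ∈ Icc 1 n, ∃ b₄ ∈ Icc 1 n, ∃ b₅ ∈ Icc 1 n,
          A (f i) b₁ ∧ A b₁ b₂ ∧ A b₂ b₃ ∧ A b₃ b₄ ∧ A b₄ b₅ ∧ A b₅ (f j)) :
    Nat.card G.ConnectedComponent < K + 1 ∧ ∀ u v, G.Reachable u v → G.dist u v < 7 * (K + 1) := by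
  classical
  have hφh : ∀ v, 1 ≤ h v → φ (h v) = v := fun v hv => hinj (hφ _ (mem_Icc.2 ⟨hv, hbig v⟩))
  obtain ⟨g1, g2⟩ := hgr V G (K + 1) 6 (by omega) (by
    intro f hf
    obtain ⟨i₀, hi₀⟩ : ∃ i₀ : Fin (K + 1), ∀ i, i ≠ i₀ → 1 ≤ h (f i) := by
      by_cases hz : ∃ i₀, h (f i₀) = 0
      · obtain ⟨i₀, hz⟩ := hz
        refine ⟨i₀, fun i hi => ?_⟩
        by_contra hcon
        have : h (f i) = 0 := by omega
        exact hi (hf (hinj (this.trans hz.symm)))
      · push Not at hz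
        exact ⟨0, fun i _ => Nat.one_le_iff_ne_zero.2 (hz i)⟩
    obtain ⟨i, j, hij, b₁, h1, b₂, h2, b₃, h3, b₄, h4, b₅, h5, r1, r2, r3, r4, r5, r6⟩ :=
      hclose (fun i => h (f (i₀.succAbove i)))
        (fun i => mem_Icc.2 ⟨hi₀ _ (Fin.succAbove_ne i₀ i), hbig _⟩)
        (fun i j hij => Fin.succAbove_right_injective (hf (hinj hij)))
    refine ⟨i₀.succAbove i, i₀.succAbove j, fun h => hij (Fin.succAbove_right_injective h), ?_⟩
    have hi := hi₀ _ (Fin.succAbove_ne i₀ i)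
    have hj := hi₀ _ (Fin.succAbove_ne i₀ j)
    have e1 : G.Adj (f (i₀.succAbove i)) (φ b₁) := by
      rw [← hφh _ hi]
      exact hadj _ (mem_Icc.2 ⟨hi, hbig _⟩) _ h1 r1
    have e2 := hadj _ h1 _ h2 r2
    have e3 := hadj _ h2 _ h3 r3
    have e4 := hadj _ h3 _ h4 r4
    have e5 := hadj _ h4 _ h5 r5
    have e6 : G.Adj (φ b₅) (f (i₀.succAbove j)) := by
      rw [← hφh _ hj]
      exact hadj _ h5 _ (mem_Icc.2 ⟨hj, hbig _⟩) r6
    exact ⟨SimpleGraph.Walk.cons e1 (SimpleGraph.Walk.cons e2 (SimpleGraph.Walk.cons e3 (SimpleGraph.Walk.cons e4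
      (SimpleGraph.Walk.cons e5 (SimpleGraph.Walk.cons e6 SimpleGraph.Walk.nil))))), le_rfl⟩)
  refine ⟨g1, fun u v huv => ?_⟩
  have := g2 u v huv
  omega

lemma dist_two' (a b : ℕ) : Nat.dist (2 * a) (2 * b) / 2 = Nat.dist a b := by
  simp only [Nat.dist]
  omega

lemma sum_two (a b : ℕ) : (2 * a + 2 * b) / 2 = a + b := by omega

lemma R2_symm {n t a b : ℕ} (h : R2 n t a b) : R2 n t b a := by
  unfold R2 at h ⊢
  rw [add_comm b a, Nat.dist_comm b a]
  exact h

lemma CD_symm {a b : ℕ} (h : CD a b) : CD b a := by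
  unfold CD at h ⊢
  rw [add_comm b a, Nat.dist_comm b a]
  exact h

lemma CS_symm {a b : ℕ} (h : CS a b) : CS b a := by
  unfold CS at h ⊢
  rw [add_comm b a, Nat.dist_comm b a]
  exact h

open Classical in
theorem fin2_of (hgr : S_graph) (hm : S_mom) (hc : S_codeg2) (hw : S_wsum2) (hD : S_chenD) (hS : S_chenS) :
    ∃ C N : ℕ, ∀ n : ℕ, N ≤ n →
      (Nat.card (chenDiff n).ConnectedComponent ≤ C ∧
        ∀ u v, (chenDiff n).Reachable u v → (chenDiff n).dist u v ≤ C) ∧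
      (Nat.card (chenSum n).ConnectedComponent ≤ C ∧
        ∀ u v, (chenSum n).Reachable u v → (chenSum n).dist u v ≤ C) := by
  obtain ⟨t₁, ht₁, hD⟩ := hD
  obtain ⟨t₂, ht₂, δ₂, hδ₂, m₂, hS⟩ := hS
  obtain ⟨K₁, hK₁, n₁, h1⟩ := generic hm (fun n a b => R2 n t₁ a b ∧ CD a b) (fun n a b => R2 n t₁ a b)
    (fun n a b h => ⟨R2_symm h.1, CD_symm h.2⟩) (fun n a b h => h.1) (hc t₁ ht₁) (hw t₁ ht₁) (by
      obtain ⟨δ, hδ, n₀, h⟩ := hD
      refine ⟨δ, hδ, n₀, fun n hn a ha => ?_⟩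
      convert h n hn a ha)
  obtain ⟨m₃, hm₃, hLL⟩ := LL_large (4 / δ₂)
  obtain ⟨K₂, hK₂, n₂, h2⟩ := generic hm (fun n a b => R2 n t₂ a b ∧ CS a b ∧ Nat.dist a b ≠ 1) (fun n a b => R2 n t₂ a b)
    (fun n a b h => ⟨R2_symm h.1, CS_symm h.2.1, by rw [Nat.dist_comm]; exact h.2.2⟩) (fun n a b h => h.1) (hc t₂ ht₂) (hw t₂ ht₂) (by
      refine ⟨δ₂ / 2, by positivity, m₂ + m₃, fun n hn a ha => ?_⟩
      have e1 := hS n (by omega) a ha
      obtain ⟨e2, -⟩ := hLL n (by omega)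
      have hwt := wt_one_le (mem_Icc.1 ha).1
      have hsub : (Icc 1 n).filter (fun b => R2 n t₂ a b ∧ CS a b) ⊆
          (Icc 1 n).filter (fun b => R2 n t₂ a b ∧ CS a b ∧ Nat.dist a b ≠ 1) ∪ {a - 1, a + 1} := by
        intro b hb
        rw [mem_filter] at hb
        rw [mem_union, mem_filter, mem_insert, mem_singleton]
        by_cases h : Nat.dist a b = 1
        · right
          simp only [Nat.dist] at h
          omega
        · left
          exact ⟨hb.1, hb.2.1, hb.2.2, h⟩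
      have h3 := (card_le_card hsub).trans (card_union_le _ _)
      have h4 : ({a - 1, a + 1} : Finset ℕ).card ≤ 2 := card_le_two
      have h5 : ((((Icc 1 n).filter (fun b => R2 n t₂ a b ∧ CS a b)).card : ℕ) : ℝ) ≤
          (((Icc 1 n).filter (fun b => R2 n t₂ a b ∧ CS a b ∧ Nat.dist a b ≠ 1)).card : ℝ) + 2 := by
        exact_mod_cast h3.trans (Nat.add_le_add_left h4 _)
      have h6 : 2 ≤ δ₂ / 2 * wt a * LL n := by
        have h7 : 2 ≤ δ₂ / 2 * LL n := by
          calc (2 : ℝ) = δ₂ / 2 * (4 / δ₂) := by field_simp; norm_num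
            _ ≤ δ₂ / 2 * LL n := mul_le_mul_of_nonneg_left e2 (by positivity)
        have h8 : δ₂ / 2 * wt a * LL n = (δ₂ / 2 * LL n) * wt a := by ring
        rw [h8]
        nlinarith
      have h9 : δ₂ * wt a * LL n = δ₂ / 2 * wt a * LL n + δ₂ / 2 * wt a * LL n := by ring
      have h10 : δ₂ / 2 * wt a * LL n ≤ (((Icc 1 n).filter (fun b => R2 n t₂ a b ∧ CS a b ∧ Nat.dist a b ≠ 1)).card : ℝ) := by
        linarith
      convert h10)
  refine ⟨7 * (K₁ + K₂ + 1), n₁ + n₂ + 1, fun n hn => ?_⟩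
  have i1 : Finite {a : ℕ // Even a ∧ a ≤ 2 * n} :=
    Finite.of_injective (β := Fin (2 * n + 1)) (fun v => ⟨v.1, by have := v.2.2; omega⟩) (by
      intro u v huv
      apply Subtype.ext
      exact Fin.mk.inj_iff.1 huv)
  have hφ : ∀ m ∈ Icc 1 n, (fun v : {a : ℕ // Even a ∧ a ≤ 2 * n} => v.1 / 2)
      ((fun m => if hm : m ≤ n then ⟨2 * m, even_two_mul m, by omega⟩ else ⟨0, ⟨0, rfl⟩, by omega⟩ :
        ℕ → {a : ℕ // Even a ∧ a ≤ 2 * n}) m) = m := by
    intro m hm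
    rw [mem_Icc] at hm
    simp only [hm.2, dif_pos]
    omega
  have hinj : Function.Injective (fun v : {a : ℕ // Even a ∧ a ≤ 2 * n} => v.1 / 2) := by
    intro u v huv
    apply Subtype.ext
    obtain ⟨⟨a, hu⟩, _⟩ := u.2
    obtain ⟨⟨b, hv⟩, _⟩ := v.2
    simp only at huv
    omega
  have hbig : ∀ v : {a : ℕ // Even a ∧ a ≤ 2 * n}, (fun v : {a : ℕ // Even a ∧ a ≤ 2 * n} => v.1 / 2) v ≤ n := by
    intro v
    have := v.2.2
    show v.1 / 2 ≤ n
    omega
  constructor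
  · obtain ⟨g1, g2⟩ := bridge2 hgr (chenDiff n) n K₁ (fun a b => R2 n t₁ a b ∧ CD a b) _ _ hφ hinj hbig (by
        intro a ha b hb hR
        have ha' := (mem_Icc.1 ha).2
        have hb' := (mem_Icc.1 hb).2
        have ha1 := (mem_Icc.1 ha).1
        have hb1 := (mem_Icc.1 hb).1
        simp only [ha', hb', dif_pos]
        refine ⟨?_, ⟨?_, ?_⟩, ?_, ?_⟩
        · intro h
          have h3 := congrArg Subtype.val h
          simp only at h3
          have h4 : a = b := by omega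
          have h5 := hR.2.1
          rw [h4, Nat.dist_self] at h5
          exact Nat.not_prime_zero h5
        · show Odd ((2 * a + 2 * b) / 2)
          rw [sum_two]
          exact hR.1.1.1
        · show ((2 * a + 2 * b) / 2).Prime ∨ ∃ p q : ℕ, p.Prime ∧ q.Prime ∧ (2 * a + 2 * b) / 2 = p * q
          rw [sum_two]
          exact semi_of_length (by omega) hR.2.2
        · show (Nat.dist (2 * a) (2 * b) / 2).Prime
          rw [dist_two']
          exact hR.2.1
        · show Odd (Nat.dist (2 * a) (2 * b) / 2)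
          rw [dist_two']
          exact hR.1.2.1) (h1 n (by omega))
    exact ⟨by omega, fun u v huv => by have := g2 u v huv; omega⟩
  · obtain ⟨g1, g2⟩ := bridge2 hgr (chenSum n) n K₂ (fun a b => R2 n t₂ a b ∧ CS a b ∧ Nat.dist a b ≠ 1) _ _ hφ hinj hbig (by
        intro a ha b hb hR
        have ha' := (mem_Icc.1 ha).2
        have hb' := (mem_Icc.1 hb).2
        have hodd : Odd (Nat.dist a b) := hR.1.2.1
        have hd0 : Nat.dist a b ≠ 0 := by
          intro h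
          rw [h] at hodd
          exact absurd hodd (by decide)
        simp only [ha', hb', dif_pos]
        refine ⟨?_, ⟨?_, ?_⟩, ?_, ?_⟩
        · intro h
          have h3 := congrArg Subtype.val h
          simp only at h3
          have h4 : a = b := by omega
          apply hd0
          rw [h4, Nat.dist_self]
        · show ((2 * a + 2 * b) / 2).Prime
          rw [sum_two]
          exact hR.2.1.1
        · show Odd ((2 * a + 2 * b) / 2)
          rw [sum_two]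
          exact hR.1.1.1
        · show Odd (Nat.dist (2 * a) (2 * b) / 2)
          rw [dist_two']
          exact hodd
        · show (Nat.dist (2 * a) (2 * b) / 2).Prime ∨ ∃ p q : ℕ, p.Prime ∧ q.Prime ∧ Nat.dist (2 * a) (2 * b) / 2 = p * q
          rw [dist_two']
          have := hR.2.2
          exact semi_of_length (by omega) hR.2.1.2) (h2 n (by omega))
    exact ⟨by omega, fun u v huv => by have := g2 u v huv; omega⟩

end Pool.Agent.R521.GG
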