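import Pool.Agent.R521.GG.Stms

set_option autoImplicit false

/-!
# The number of edges inside a small set
-/

namespace Pool.Agent.R521.GG

open Finset

lemma R_symm1 {a b : ℕ} (h : R a b) : R b a := by
  unfold R at h ⊢
  rw [add_comm b a, Nat.dist_comm b a]
  exact h

lemma R_comm1 (a b : ℕ) : R a b ↔ R b a := ⟨R_symm1, R_symm1⟩

lemma gg_one_le (h : ℕ) : 1 ≤ gg h := by
  unfold gg
  calc (1 : ℝ) = ∏ _p ∈ h.primeFactors, (1 : ℝ) := by rw [prod_const_one]
    _ ≤ _ := by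
      apply prod_le_prod (fun _ _ => zero_le_one)
      intro p _
      have : (0 : ℝ) ≤ 1 / (p : ℝ) := by positivity
      linarith

lemma gg_pos (h : ℕ) : 0 < gg h := lt_of_lt_of_le one_pos (gg_one_le h)

lemma SS_one_le (a c : ℕ) : 1 ≤ SS a c := by
  unfold SS
  apply one_le_pow₀
  have h1 := gg_one_le a
  have h2 := gg_one_le c
  have h3 := gg_one_le (Nat.dist a c)
  have h4 := gg_one_le (a + c)
  have h12 : 1 ≤ gg a * gg c := one_le_mul_of_one_le_of_one_le h1 h2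
  have h123 : 1 ≤ gg a * gg c * gg (Nat.dist a c) := one_le_mul_of_one_le_of_one_le h12 h3
  exact one_le_mul_of_one_le_of_one_le h123 h4

lemma wt_one_le {a : ℕ} (ha : 1 ≤ a) : 1 ≤ wt a := by
  unfold wt
  have h1 : 0 < a.totient := Nat.totient_pos.2 ha
  have h2 : (0 : ℝ) < a.totient := by exact_mod_cast h1
  rw [le_div_iff₀ h2, one_mul]
  exact_mod_cast Nat.totient_le a

lemma sum_inj_le (S T : Finset ℕ) (g : ℕ → ℕ) (F : ℕ → ℝ) (hF : ∀ m, 0 ≤ F m)
    (hinj : ∀ x ∈ S, ∀ y ∈ S, g x = g y → x = y) (hg : ∀ c ∈ S, g c ∈ T) :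
    ∑ c ∈ S, F (g c) ≤ ∑ m ∈ T, F m := by
  rw [← sum_image (s := S) (g := g) (f := F) hinj]
  apply sum_le_sum_of_subset_of_nonneg
  · intro m hm
    rw [mem_image] at hm
    obtain ⟨c, hc, rfl⟩ := hm
    exact hg c hc
  · intro m _ _
    exact hF m

lemma mul3_pow_le (x y z : ℝ) (hx : 0 ≤ x) (hy : 0 ≤ y) (hz : 0 ≤ z) (k : ℕ) :
    (x * y * z) ^ k ≤ x ^ (3 * k) + y ^ (3 * k) + z ^ (3 * k) := by
  obtain ⟨m, hm⟩ : ∃ m, m = max x (max y z) := ⟨_, rfl⟩
  have h1 : x ≤ m := by rw [hm]; exact le_max_left _ _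
  have h2 : y ≤ m := by rw [hm]; exact (le_max_left _ _).trans (le_max_right _ _)
  have h3 : z ≤ m := by rw [hm]; exact (le_max_right _ _).trans (le_max_right _ _)
  have h4 : (x * y * z) ^ k ≤ m ^ (3 * k) := by
    have : x * y * z ≤ m ^ 3 := by
      calc x * y * z ≤ m * m * m := by
            apply mul_le_mul (mul_le_mul h1 h2 hy (hx.trans h1)) h3 hz
            exact mul_nonneg (hx.trans h1) (hx.trans h1)
        _ = m ^ 3 := by ring
    calc (x * y * z) ^ k ≤ (m ^ 3) ^ k := pow_le_pow_left₀ (by positivity) this k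
      _ = m ^ (3 * k) := by rw [pow_mul]
  have hx' : 0 ≤ x ^ (3 * k) := by positivity
  have hy' : 0 ≤ y ^ (3 * k) := by positivity
  have hz' : 0 ≤ z ^ (3 * k) := by positivity
  have h5 : m = x ∨ m = y ∨ m = z := by
    rcases le_total x (max y z) with h | h
    · rcases le_total y z with h' | h'
      · right; right; rw [hm, max_eq_right h, max_eq_right h']
      · right; left; rw [hm, max_eq_right h, max_eq_left h']
    · left; rw [hm, max_eq_left h]
  rcases h5 with h5 | h5 | h5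
  · rw [h5] at h4; linarith
  · rw [h5] at h4; linarith
  · rw [h5] at h4; linarith

lemma mom_pair (hm : S_mom) (k : ℕ) : ∃ C : ℝ, 0 < C ∧ ∀ n : ℕ, ∀ a ∈ Icc 1 n,
    ∑ c ∈ (Icc 1 n).filter (fun c => c ≠ a), (gg c * gg (Nat.dist a c) * gg (a + c)) ^ k ≤ C * n := by
  obtain ⟨C, hC, h⟩ := hm (3 * k)
  refine ⟨5 * C, by positivity, fun n a ha => ?_⟩
  rw [mem_Icc] at ha
  have hF : ∀ m, 0 ≤ gg m ^ (3 * k) := fun m => pow_nonneg (gg_pos m).le _
  have h0 : ∑ c ∈ (Icc 1 n).filter (fun c => c ≠ a), (gg c * gg (Nat.dist a c) * gg (a + c)) ^ k ≤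
      ∑ c ∈ (Icc 1 n).filter (fun c => c ≠ a), (gg c ^ (3 * k) + gg (Nat.dist a c) ^ (3 * k) + gg (a + c) ^ (3 * k)) :=
    sum_le_sum fun c _ => mul3_pow_le _ _ _ (gg_pos _).le (gg_pos _).le (gg_pos _).le k
  rw [sum_add_distrib, sum_add_distrib] at h0
  have h1 : ∑ c ∈ (Icc 1 n).filter (fun c => c ≠ a), gg c ^ (3 * k) ≤ C * n :=
    (sum_le_sum_of_subset_of_nonneg (filter_subset _ _) fun m _ _ => hF m).trans (h n)
  have h2 : ∑ c ∈ (Icc 1 n).filter (fun c => c ≠ a), gg (a + c) ^ (3 * k) ≤ C * (2 * n) := by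
    have := (sum_inj_le ((Icc 1 n).filter (fun c => c ≠ a)) (Icc 1 (2 * n)) (fun c => a + c) (fun m => gg m ^ (3 * k)) hF
      (by intro x _ y _ hxy; simpa using hxy) (by
        intro c hc
        rw [mem_filter, mem_Icc] at hc
        rw [mem_Icc]
        omega)).trans (h (2 * n))
    push_cast at this
    exact this
  have h3 : ∑ c ∈ (Icc 1 n).filter (fun c => c ≠ a), gg (Nat.dist a c) ^ (3 * k) ≤ C * n + C * n := by
    have e : (Icc 1 n).filter (fun c => c ≠ a) = (Icc 1 n).filter (fun c => c < a) ∪ (Icc 1 n).filter (fun c => a < c) := by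
      ext c
      simp only [mem_filter, mem_union, mem_Icc]
      omega
    have hd : Disjoint ((Icc 1 n).filter (fun c => c < a)) ((Icc 1 n).filter (fun c => a < c)) := by
      rw [disjoint_left]
      intro c h1 h2
      rw [mem_filter] at h1 h2
      omega
    rw [e, sum_union hd]
    apply add_le_add
    · refine (sum_inj_le _ (Icc 1 n) (fun c => Nat.dist a c) (fun m => gg m ^ (3 * k)) hF ?_ ?_).trans (h n)
      · intro x hx y hy hxy
        rw [mem_filter, mem_Icc] at hx hy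
        simp only [Nat.dist] at hxy
        omega
      · intro x hx
        rw [mem_filter, mem_Icc] at hx
        simp only [Nat.dist, mem_Icc]
        omega
    · refine (sum_inj_le _ (Icc 1 n) (fun c => Nat.dist a c) (fun m => gg m ^ (3 * k)) hF ?_ ?_).trans (h n)
      · intro x hx y hy hxy
        rw [mem_filter, mem_Icc] at hx hy
        simp only [Nat.dist] at hxy
        omega
      · intro x hx
        rw [mem_filter, mem_Icc] at hx
        simp only [Nat.dist, mem_Icc]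
        omega
  linarith

lemma SS_pow (a c j : ℕ) : SS a c ^ j = gg a ^ (8 * j) * (gg c * gg (Nat.dist a c) * gg (a + c)) ^ (8 * j) := by
  unfold SS
  rw [← pow_mul, ← mul_pow]
  congr 1
  ring

lemma SS_sum (hm : S_mom) (j : ℕ) : ∃ C : ℝ, 0 < C ∧ ∀ n : ℕ, ∀ a ∈ Icc 1 n,
    ∑ c ∈ (Icc 1 n).filter (fun c => c ≠ a), SS a c ^ j ≤ C * gg a ^ (8 * j) * n := by
  obtain ⟨C, hC, h⟩ := mom_pair hm (8 * j)
  refine ⟨C, hC, fun n a ha => ?_⟩
  simp only [SS_pow]
  rw [← mul_sum]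
  have := mul_le_mul_of_nonneg_left (h n a ha) (pow_nonneg (gg_pos a).le (8 * j))
  calc _ ≤ gg a ^ (8 * j) * (C * n) := this
    _ = _ := by ring

lemma SS_sum2 (hm : S_mom) (j : ℕ) : ∃ C : ℝ, 0 < C ∧ ∀ n : ℕ,
    ∑ a ∈ Icc 1 n, ∑ c ∈ (Icc 1 n).filter (fun c => c ≠ a), SS a c ^ j ≤ C * (n : ℝ) ^ 2 := by
  obtain ⟨C, hC, h⟩ := SS_sum hm j
  obtain ⟨C', hC', h'⟩ := hm (8 * j)
  refine ⟨C * C', by positivity, fun n => ?_⟩
  calc _ ≤ ∑ a ∈ Icc 1 n, C * gg a ^ (8 * j) * n := sum_le_sum fun a ha => h n a ha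
    _ = C * n * ∑ a ∈ Icc 1 n, gg a ^ (8 * j) := by
        rw [mul_sum]
        exact sum_congr rfl fun a _ => by ring
    _ ≤ C * n * (C' * n) := mul_le_mul_of_nonneg_left (h' n) (by positivity)
    _ = _ := by ring

lemma cd_self (Y : Finset ℕ) (a : ℕ) : cd Y a a = dg Y a := by
  unfold cd dg
  simp only [and_self]

lemma cd_mono {Y Z : Finset ℕ} (h : Y ⊆ Z) (a c : ℕ) : cd Y a c ≤ cd Z a c := by
  unfold cd
  exact card_le_card (filter_subset_filter _ h)

lemma dg_mono1 {Y Z : Finset ℕ} (h : Y ⊆ Z) (a : ℕ) : dg Y a ≤ dg Z a := by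
  unfold dg
  exact card_le_card (filter_subset_filter _ h)

lemma dg_le (Y : Finset ℕ) (a : ℕ) : dg Y a ≤ Y.card := card_filter_le _ _

/-- the sum of the squares of the degrees -/
lemma sum_dg_sq (Y : Finset ℕ) : ∑ b ∈ Y, (dg Y b : ℝ) ^ 2 = ∑ a ∈ Y, ∑ c ∈ Y, (cd Y a c : ℝ) := by
  have h1 : ∀ b, (dg Y b : ℝ) = ∑ a ∈ Y, if R b a then (1 : ℝ) else 0 := by
    intro b
    unfold dg
    rw [card_filter]
    push_cast
    rfl
  have h2 : ∀ a c, (cd Y a c : ℝ) = ∑ b ∈ Y, (if R b a then (1 : ℝ) else 0) * (if R b c then (1 : ℝ) else 0) := by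
    intro a c
    unfold cd
    rw [card_filter]
    push_cast
    apply sum_congr rfl
    intro b _
    rw [if_congr (and_congr (R_comm1 a b) (R_comm1 c b)) rfl rfl]
    by_cases h1 : R b a <;> by_cases h2 : R b c <;> simp [h1, h2]
  simp only [h1, h2]
  calc ∑ b ∈ Y, (∑ a ∈ Y, if R b a then (1 : ℝ) else 0) ^ 2
      = ∑ b ∈ Y, ∑ a ∈ Y, ∑ c ∈ Y, (if R b a then (1 : ℝ) else 0) * (if R b c then (1 : ℝ) else 0) := by
        apply sum_congr rfl
        intro b _
        rw [sq, sum_mul_sum]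
    _ = ∑ a ∈ Y, ∑ b ∈ Y, ∑ c ∈ Y, (if R b a then (1 : ℝ) else 0) * (if R b c then (1 : ℝ) else 0) := sum_comm
    _ = _ := by
        apply sum_congr rfl
        intro a _
        exact sum_comm

lemma thr (T S : ℝ) (hT : 0 < T) (hS : 0 ≤ S) : S ≤ T + S ^ 3 / T ^ 2 := by
  rcases le_total S T with h | h
  · have : 0 ≤ S ^ 3 / T ^ 2 := by positivity
    linarith
  · have : S ≤ S ^ 3 / T ^ 2 := by
      rw [le_div_iff₀ (by positivity)]
      have : T ^ 2 ≤ S ^ 2 := pow_le_pow_left₀ hT.le h 2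
      nlinarith
    linarith

lemma thr2 (T S : ℝ) (hT : 0 < T) (hS : 0 ≤ S) : S ≤ T + S ^ 2 / T := by
  rcases le_total S T with h | h
  · have : 0 ≤ S ^ 2 / T := by positivity
    linarith
  · have : S ≤ S ^ 2 / T := by
      rw [le_div_iff₀ hT]
      nlinarith
    linarith

/-- `n / log² n` is large -/
lemma LL_large (M : ℝ) : ∃ n₀ : ℕ, 2 ≤ n₀ ∧ ∀ n : ℕ, n₀ ≤ n → M ≤ LL n ∧ M * n ≤ LL n ^ 2 := by
  have h1 := isLittleO_log_rpow_rpow_atTop (s := (1 / 2 : ℝ)) (4 : ℝ) (by norm_num)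
  have h1' := h1.bound (c := 1 / (|M| + 1)) (by positivity)
  have h3 := (tendsto_natCast_atTop_atTop (R := ℝ)).eventually h1'
  obtain ⟨n₀, h0⟩ := Filter.eventually_atTop.1 h3
  refine ⟨n₀ + 3, by omega, fun n hn => ?_⟩
  have h4 := h0 n (by omega)
  have hn3 : (3 : ℝ) ≤ n := by exact_mod_cast (by omega : 3 ≤ n)
  have hn0 : (0 : ℝ) < n := by linarith
  have hl1 : 1 ≤ Real.log n := by
    have h5 : Real.log 3 ≤ Real.log n := Real.log_le_log (by norm_num) hn3
    have h6 : 1 ≤ Real.log 3 := by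
      rw [Real.le_log_iff_exp_le (by norm_num)]
      have := Real.exp_one_lt_d9
      linarith
    linarith
  have hl0 : 0 < Real.log n := by linarith
  rw [Real.norm_of_nonneg (by positivity), Real.norm_of_nonneg (by positivity)] at h4
  have e4 : Real.log (n : ℝ) ^ (4 : ℝ) = Real.log n ^ 4 := by
    rw [← Real.rpow_natCast]
    norm_num
  rw [e4] at h4
  have hs : (n : ℝ) ^ (1 / 2 : ℝ) = √(n : ℝ) := (Real.sqrt_eq_rpow _).symm
  rw [hs] at h4
  have hsq : √(n : ℝ) * √(n : ℝ) = n := Real.mul_self_sqrt hn0.le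
  have hs1 : 1 ≤ √(n : ℝ) := by rw [Real.one_le_sqrt]; linarith
  have h6 : (|M| + 1) * Real.log n ^ 4 ≤ √(n : ℝ) := by
    calc (|M| + 1) * Real.log n ^ 4 ≤ (|M| + 1) * (1 / (|M| + 1) * √(n : ℝ)) :=
          mul_le_mul_of_nonneg_left h4 (by positivity)
      _ = √(n : ℝ) := by field_simp
  have hM : M ≤ |M| + 1 := by linarith [le_abs_self M]
  have h7 : M * Real.log n ^ 4 ≤ √(n : ℝ) := (mul_le_mul_of_nonneg_right hM (by positivity)).trans h6
  have h8 : √(n : ℝ) ≤ n := by nlinarith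
  have h24 : Real.log n ^ 2 ≤ Real.log n ^ 4 := pow_le_pow_right₀ hl1 (by norm_num)
  constructor
  · unfold LL
    rw [le_div_iff₀ (by positivity)]
    calc M * Real.log n ^ 2 ≤ (|M| + 1) * Real.log n ^ 2 := mul_le_mul_of_nonneg_right hM (by positivity)
      _ ≤ (|M| + 1) * Real.log n ^ 4 := mul_le_mul_of_nonneg_left h24 (by positivity)
      _ ≤ n := h6.trans h8
  · unfold LL
    rw [div_pow, ← pow_mul, le_div_iff₀ (by positivity)]
    calc M * n * Real.log n ^ (2 * 2) = (M * Real.log n ^ 4) * n := by ring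
      _ ≤ (n : ℝ) * n := mul_le_mul_of_nonneg_right (h7.trans h8) hn0.le
      _ = (n : ℝ) ^ 2 := by ring

/-- few edges inside a small set -/
theorem few_edges (hm : S_mom) (hc : S_codeg) (c : ℝ) (hc0 : 0 < c) : ∃ η : ℝ, 0 < η ∧ ∃ n₀ : ℕ, ∀ n : ℕ, n₀ ≤ n →
    ∀ Y ⊆ Icc 1 n, Y.Nonempty → (Y.card : ℝ) ≤ η * n → ∑ a ∈ Y, (dg Y a : ℝ) < c * LL n * Y.card := by
  obtain ⟨C₁, hC₁, n₁, h1⟩ := hc
  obtain ⟨K₃, hK₃, h3⟩ := SS_sum2 hm 3
  obtain ⟨τ, hτ⟩ : ∃ τ : ℝ, τ = c ^ 2 / (16 * C₁) := ⟨_, rfl⟩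
  have hτ0 : 0 < τ := by rw [hτ]; positivity
  obtain ⟨n₂, hn₂, h2⟩ := LL_large (2 / c)
  refine ⟨τ ^ 3 / K₃, by positivity, n₁ + n₂, fun n hn Y hY hne hcard => ?_⟩
  have hn2 : 2 ≤ n := by omega
  have hnr : (0 : ℝ) < n := by exact_mod_cast (by omega : 0 < n)
  have hlog : 0 < Real.log n := Real.log_pos (by exact_mod_cast (by omega : 1 < n))
  have hy : (0 : ℝ) < Y.card := by exact_mod_cast card_pos.2 hne
  obtain ⟨hLL, _⟩ := h2 n (by omega)
  have hL0 : 0 < LL n := by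
    have : 0 < 2 / c := by positivity
    linarith
  by_contra hcon
  push Not at hcon
  obtain ⟨e, he⟩ : ∃ e : ℝ, e = ∑ a ∈ Y, (dg Y a : ℝ) := ⟨_, rfl⟩
  rw [← he] at hcon
  obtain ⟨T, hT⟩ : ∃ T : ℝ, T = τ * n / Y.card := ⟨_, rfl⟩
  have hT0 : 0 < T := by rw [hT]; positivity
  have hCS : e ^ 2 ≤ Y.card * ∑ b ∈ Y, (dg Y b : ℝ) ^ 2 := by
    rw [he]
    exact sq_sum_le_card_mul_sum_sq
  have hoff : ∑ a ∈ Y, ∑ d ∈ Y, (cd Y a d : ℝ) ≤ e + C₁ * (n / Real.log n ^ 4) * (2 * τ * n * Y.card) := by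
    have e1 : ∀ a ∈ Y, ∑ d ∈ Y, (cd Y a d : ℝ) = dg Y a + ∑ d ∈ Y.filter (fun d => d ≠ a), (cd Y a d : ℝ) := by
      intro a ha
      rw [filter_ne', ← cd_self Y a]
      exact (add_sum_erase Y (fun d => (cd Y a d : ℝ)) ha).symm
    have e2 : ∑ a ∈ Y, ∑ d ∈ Y, (cd Y a d : ℝ) = e + ∑ a ∈ Y, ∑ d ∈ Y.filter (fun d => d ≠ a), (cd Y a d : ℝ) := by
      rw [sum_congr rfl e1, sum_add_distrib, he]
    rw [e2]
    apply add_le_add le_rfl
    have e3 : ∀ a ∈ Y, ∀ d ∈ Y.filter (fun d => d ≠ a), (cd Y a d : ℝ) ≤ C₁ * (n / Real.log n ^ 4) * (T + SS a d ^ 3 / T ^ 2) := by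
      intro a ha d hd
      rw [mem_filter] at hd
      have h5 : (cd Y a d : ℝ) ≤ (cd (Icc 1 n) a d : ℝ) := by exact_mod_cast cd_mono hY a d
      refine h5.trans ((h1 n (by omega) a (hY ha) d (hY hd.1) (Ne.symm hd.2)).trans ?_)
      exact mul_le_mul_of_nonneg_left (thr T _ hT0 (zero_le_one.trans (SS_one_le a d))) (by positivity)
    calc ∑ a ∈ Y, ∑ d ∈ Y.filter (fun d => d ≠ a), (cd Y a d : ℝ)
        ≤ ∑ a ∈ Y, ∑ d ∈ Y.filter (fun d => d ≠ a), C₁ * (n / Real.log n ^ 4) * (T + SS a d ^ 3 / T ^ 2) :=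
          sum_le_sum fun a ha => sum_le_sum fun d hd => e3 a ha d hd
      _ = C₁ * (n / Real.log n ^ 4) * (∑ a ∈ Y, ∑ d ∈ Y.filter (fun d => d ≠ a), T +
            (∑ a ∈ Y, ∑ d ∈ Y.filter (fun d => d ≠ a), SS a d ^ 3) / T ^ 2) := by
          have e4 : ∀ a ∈ Y, ∑ d ∈ Y.filter (fun d => d ≠ a), C₁ * (n / Real.log n ^ 4) * (T + SS a d ^ 3 / T ^ 2) =
              C₁ * (n / Real.log n ^ 4) * (∑ d ∈ Y.filter (fun d => d ≠ a), T +
                (∑ d ∈ Y.filter (fun d => d ≠ a), SS a d ^ 3) / T ^ 2) := by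
            intro a _
            rw [← mul_sum, sum_add_distrib, sum_div]
          rw [sum_congr rfl e4, ← mul_sum, sum_add_distrib, sum_div]
      _ ≤ C₁ * (n / Real.log n ^ 4) * (2 * τ * n * Y.card) := by
          apply mul_le_mul_of_nonneg_left _ (by positivity)
          have f1 : ∑ a ∈ Y, ∑ d ∈ Y.filter (fun d => d ≠ a), T ≤ Y.card * (Y.card * T) := by
            rw [← nsmul_eq_mul]
            apply sum_le_card_nsmul
            intro a _
            rw [sum_const, nsmul_eq_mul]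
            apply mul_le_mul_of_nonneg_right _ hT0.le
            exact_mod_cast card_filter_le _ _
          have f2 : ∑ a ∈ Y, ∑ d ∈ Y.filter (fun d => d ≠ a), SS a d ^ 3 ≤ K₃ * (n : ℝ) ^ 2 := by
            refine le_trans ?_ (h3 n)
            have hp : ∀ a d, 0 ≤ SS a d ^ 3 := fun a d => pow_nonneg (zero_le_one.trans (SS_one_le a d)) _
            calc _ ≤ ∑ a ∈ Y, ∑ d ∈ (Icc 1 n).filter (fun d => d ≠ a), SS a d ^ 3 := by
                  apply sum_le_sum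
                  intro a _
                  apply sum_le_sum_of_subset_of_nonneg (filter_subset_filter _ hY)
                  intro d _ _
                  exact hp a d
              _ ≤ _ := by
                  apply sum_le_sum_of_subset_of_nonneg hY
                  intro a _ _
                  exact sum_nonneg fun d _ => hp a d
          have f3 : (Y.card : ℝ) * (Y.card * T) = τ * n * Y.card := by
            rw [hT]
            field_simp
          have f4 : K₃ * (n : ℝ) ^ 2 / T ^ 2 ≤ τ * n * Y.card := by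
            have e5 : K₃ * (n : ℝ) ^ 2 / T ^ 2 = (K₃ / τ ^ 2 * Y.card) * Y.card := by
              rw [hT]
              field_simp
            rw [e5]
            apply mul_le_mul_of_nonneg_right _ hy.le
            calc K₃ / τ ^ 2 * Y.card ≤ K₃ / τ ^ 2 * (τ ^ 3 / K₃ * n) := mul_le_mul_of_nonneg_left hcard (by positivity)
              _ = τ * n := by field_simp
          have f5 := div_le_div_of_nonneg_right f2 (sq_nonneg T)
          linarith
  rw [sum_dg_sq Y] at hCS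
  have h6 : e ^ 2 ≤ Y.card * (e + C₁ * (n / Real.log n ^ 4) * (2 * τ * n * Y.card)) :=
    hCS.trans (mul_le_mul_of_nonneg_left hoff hy.le)
  have hLLd : LL n ^ 2 = n / Real.log n ^ 4 * n := by
    unfold LL
    rw [div_pow, ← pow_mul]
    ring
  have h7 : (Y.card : ℝ) * (e + C₁ * (n / Real.log n ^ 4) * (2 * τ * n * Y.card)) =
      Y.card * e + 2 * τ * C₁ * (LL n * Y.card) ^ 2 := by
    rw [mul_pow, hLLd]
    ring
  rw [h7] at h6
  obtain ⟨t, ht⟩ : ∃ t : ℝ, t = e / Y.card := ⟨_, rfl⟩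
  have het : e = t * Y.card := by rw [ht]; field_simp
  have ht1 : c * LL n ≤ t := by
    rw [ht, le_div_iff₀ hy]
    exact hcon
  have ht2 : 2 ≤ t := by
    have : 2 ≤ c * LL n := by
      calc 2 = c * (2 / c) := by field_simp
        _ ≤ c * LL n := mul_le_mul_of_nonneg_left hLL hc0.le
    linarith
  have h8 : t ^ 2 ≤ t + 2 * τ * C₁ * LL n ^ 2 := by
    have h9 : t ^ 2 * (Y.card : ℝ) ^ 2 ≤ (t + 2 * τ * C₁ * LL n ^ 2) * (Y.card : ℝ) ^ 2 := by
      rw [het] at h6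
      nlinarith
    exact le_of_mul_le_mul_right h9 (pow_pos hy 2)
  have h9 : 2 * τ * C₁ = c ^ 2 / 8 := by
    rw [hτ]
    field_simp
    ring
  rw [h9] at h8
  have h10 : (c * LL n) ^ 2 ≤ t ^ 2 := pow_le_pow_left₀ (by positivity) ht1 2
  have h11 : t ≤ t ^ 2 / 2 := by nlinarith
  have h12 : 0 < (c * LL n) ^ 2 := by positivity
  nlinarith

end Pool.Agent.R521.GG
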