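import Pool.Agent.R521.GG.H1

set_option autoImplicit false

/-!
# The growth of the balls and the main theorem on the halves
-/

namespace Pool.Agent.R521.GG

open Finset

open Classical in
/-- the vertices of `X` at distance two -/
noncomputable def N2 (X : Finset ℕ) (b : ℕ) : Finset ℕ := X.filter (fun g => ∃ m ∈ X, R b m ∧ R m g)

lemma sum_dg_nb (X : Finset ℕ) (b : ℕ) : ∑ m ∈ X.filter (fun m => R b m), (dg X m : ℝ) = ∑ g ∈ N2 X b, (cd X b g : ℝ) := by
  classical
  have h1 : ∀ m, (dg X m : ℝ) = ∑ g ∈ X, if R m g then (1 : ℝ) else 0 := by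
    intro b
    unfold dg
    rw [card_filter]
    push_cast
    rfl
  have h2 : ∀ g, (cd X b g : ℝ) = ∑ m ∈ X.filter (fun m => R b m), (if R m g then (1 : ℝ) else 0) := by
    intro g
    unfold cd
    rw [card_filter, sum_filter]
    push_cast
    apply sum_congr rfl
    intro m _
    by_cases h1 : R b m
    · by_cases h2 : R m g
      · simp [h1, h2, R_symm1 h2]
      · have h3 : ¬ R g m := fun h => h2 (R_symm1 h)
        simp [h1, h2, h3]
    · simp [h1]
  rw [sum_congr rfl (fun m _ => h1 m), sum_comm]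
  symm
  apply sum_subset_zero_on_sdiff
  · unfold N2
    exact filter_subset _ _
  · intro g hg
    rw [mem_sdiff] at hg
    apply sum_eq_zero
    intro m hm
    rw [mem_filter] at hm
    have : ¬ R m g := by
      intro h
      apply hg.2
      unfold N2
      rw [mem_filter]
      exact ⟨hg.1, m, hm.1, hm.2, h⟩
    simp [this]
  · intro g _
    exact h2 g

/-- the number of the vertices at distance two -/
theorem growth (hm : S_mom) (hc : S_codeg) (δ T₀ : ℝ) (hδ : 0 < δ) (hT₀ : 0 < T₀) : ∃ c : ℝ, 0 < c ∧ ∃ n₀ : ℕ, ∀ n : ℕ, n₀ ≤ n →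
    ∀ X ⊆ Icc 1 n, (∀ a ∈ X, δ * LL n ≤ dg X a) → ∀ b ∈ X, gg b ^ 16 ≤ T₀ → c * n ≤ ((N2 X b).card : ℝ) := by
  classical
  obtain ⟨C₁, hC₁, n₁, h1⟩ := hc
  obtain ⟨K, hK, h3⟩ := SS_sum hm 2
  obtain ⟨T, hT⟩ : ∃ T : ℝ, T = 4 * C₁ * K * T₀ / δ ^ 2 := ⟨_, rfl⟩
  have hT0 : 0 < T := by rw [hT]; positivity
  obtain ⟨n₂, hn₂, h2⟩ := LL_large (4 / δ ^ 2)
  refine ⟨δ ^ 2 / (2 * C₁ * T), by positivity, n₁ + n₂, fun n hn X hX hdeg b hb hgb => ?_⟩
  have hn2 : 2 ≤ n := by omega
  have hnr : (0 : ℝ) < n := by exact_mod_cast (by omega : 0 < n)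
  have hlog : 0 < Real.log n := Real.log_pos (by exact_mod_cast (by omega : 1 < n))
  obtain ⟨hLL, hLL2⟩ := h2 n (by omega)
  have hL0 : 0 < LL n := by
    have : 0 < 4 / δ ^ 2 := by positivity
    linarith
  have hLLd : LL n ^ 2 = n / Real.log n ^ 4 * n := by
    unfold LL
    rw [div_pow, ← pow_mul]
    ring
  have hlow : (δ * LL n) * (δ * LL n) ≤ ∑ m ∈ X.filter (fun m => R b m), (dg X m : ℝ) := by
    calc (δ * LL n) * (δ * LL n) ≤ (dg X b : ℝ) * (δ * LL n) := mul_le_mul_of_nonneg_right (hdeg b hb) (by positivity)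
      _ = ((X.filter (fun m => R b m)).card : ℝ) * (δ * LL n) := by rfl
      _ ≤ _ := by
        rw [← nsmul_eq_mul]
        apply card_nsmul_le_sum
        intro m hm
        rw [mem_filter] at hm
        exact hdeg m hm.1
  rw [sum_dg_nb] at hlow
  have hup : ∑ g ∈ N2 X b, (cd X b g : ℝ) ≤ n + C₁ * (n / Real.log n ^ 4) * (T * (N2 X b).card + K * T₀ * n / T) := by
    have e1 : ∑ g ∈ N2 X b, (cd X b g : ℝ) ≤ (cd X b b : ℝ) + ∑ g ∈ (N2 X b).filter (fun g => g ≠ b), (cd X b g : ℝ) := by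
      have hsub : N2 X b ⊆ insert b ((N2 X b).filter (fun g => g ≠ b)) := by
        intro g hg
        rw [mem_insert, mem_filter]
        by_cases h : g = b
        · exact Or.inl h
        · exact Or.inr ⟨hg, h⟩
      refine (sum_le_sum_of_subset_of_nonneg hsub fun _ _ _ => Nat.cast_nonneg _).trans ?_
      rw [sum_insert]
      rw [mem_filter]
      tauto
    have e2 : (cd X b b : ℝ) ≤ n := by
      rw [cd_self]
      have := (dg_le X b).trans (card_le_card hX)
      rw [Nat.card_Icc] at this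
      exact_mod_cast (by omega : dg X b ≤ n)
    have e3 : ∀ g ∈ (N2 X b).filter (fun g => g ≠ b), (cd X b g : ℝ) ≤ C₁ * (n / Real.log n ^ 4) * (T + SS b g ^ 2 / T) := by
      intro g hg
      rw [mem_filter] at hg
      have hgX : g ∈ X := by
        have := hg.1
        unfold N2 at this
        exact (mem_filter.1 this).1
      have h5 : (cd X b g : ℝ) ≤ (cd (Icc 1 n) b g : ℝ) := by exact_mod_cast cd_mono hX b g
      refine h5.trans ((h1 n (by omega) b (hX hb) g (hX hgX) (Ne.symm hg.2)).trans ?_)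
      exact mul_le_mul_of_nonneg_left (thr2 T _ hT0 (zero_le_one.trans (SS_one_le b g))) (by positivity)
    have e4 : ∑ g ∈ (N2 X b).filter (fun g => g ≠ b), (cd X b g : ℝ) ≤
        C₁ * (n / Real.log n ^ 4) * (T * (N2 X b).card + K * T₀ * n / T) := by
      calc ∑ g ∈ (N2 X b).filter (fun g => g ≠ b), (cd X b g : ℝ)
          ≤ ∑ g ∈ (N2 X b).filter (fun g => g ≠ b), C₁ * (n / Real.log n ^ 4) * (T + SS b g ^ 2 / T) := sum_le_sum e3
        _ = C₁ * (n / Real.log n ^ 4) * (((N2 X b).filter (fun g => g ≠ b)).card * T +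
              (∑ g ∈ (N2 X b).filter (fun g => g ≠ b), SS b g ^ 2) / T) := by
            rw [← mul_sum, sum_add_distrib, sum_div, sum_const, nsmul_eq_mul]
        _ ≤ _ := by
            apply mul_le_mul_of_nonneg_left _ (by positivity)
            apply add_le_add
            · rw [mul_comm]
              apply mul_le_mul_of_nonneg_left _ hT0.le
              exact_mod_cast card_filter_le _ _
            · apply div_le_div_of_nonneg_right _ hT0.le
              have hsub : (N2 X b).filter (fun g => g ≠ b) ⊆ (Icc 1 n).filter (fun g => g ≠ b) := by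
                apply filter_subset_filter
                intro g hg
                unfold N2 at hg
                exact hX (mem_filter.1 hg).1
              have hp : ∀ g, 0 ≤ SS b g ^ 2 := fun g => pow_nonneg (zero_le_one.trans (SS_one_le b g)) _
              refine (sum_le_sum_of_subset_of_nonneg hsub fun g _ _ => hp g).trans ?_
              refine (h3 n b (hX hb)).trans ?_
              have : gg b ^ (8 * 2) ≤ T₀ := hgb
              apply mul_le_mul_of_nonneg_right _ hnr.le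
              exact mul_le_mul_of_nonneg_left this hK.le
    linarith
  have h5 : (δ * LL n) ^ 2 ≤ n + C₁ * (n / Real.log n ^ 4) * (T * (N2 X b).card + K * T₀ * n / T) := by
    rw [sq]
    exact hlow.trans hup
  -- the two small terms
  have s1 : (n : ℝ) ≤ (δ * LL n) ^ 2 / 4 := by
    rw [mul_pow]
    have : 4 / δ ^ 2 * n * (δ ^ 2 / 4) ≤ LL n ^ 2 * (δ ^ 2 / 4) := mul_le_mul_of_nonneg_right hLL2 (by positivity)
    have e : 4 / δ ^ 2 * (n : ℝ) * (δ ^ 2 / 4) = n := by field_simp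
    rw [e] at this
    linarith
  have s2 : C₁ * (n / Real.log n ^ 4) * (K * T₀ * n / T) = (δ * LL n) ^ 2 / 4 := by
    rw [mul_pow, hLLd, hT]
    field_simp
  have h6 : (δ * LL n) ^ 2 / 2 ≤ C₁ * (n / Real.log n ^ 4) * (T * (N2 X b).card) := by
    have : C₁ * (n / Real.log n ^ 4) * (T * (N2 X b).card + K * T₀ * n / T) =
      C₁ * (n / Real.log n ^ 4) * (T * (N2 X b).card) + C₁ * (n / Real.log n ^ 4) * (K * T₀ * n / T) := by ring
    rw [this, s2] at h5
    linarith
  rw [mul_pow, hLLd] at h6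
  have hq : 0 < (n : ℝ) / Real.log n ^ 4 := by positivity
  have h7 : (n / Real.log n ^ 4) * (δ ^ 2 * n / 2) ≤ (n / Real.log n ^ 4) * (C₁ * T * (N2 X b).card) := by
    calc (n / Real.log n ^ 4) * (δ ^ 2 * n / 2) = δ ^ 2 * (n / Real.log n ^ 4 * n) / 2 := by ring
      _ ≤ C₁ * (n / Real.log n ^ 4) * (T * (N2 X b).card) := h6
      _ = _ := by ring
  have h8 := le_of_mul_le_mul_left h7 hq
  rw [div_mul_eq_mul_div, div_le_iff₀ (by positivity)]
  calc δ ^ 2 * (n : ℝ) = 2 * (δ ^ 2 * n / 2) := by ring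
    _ ≤ 2 * (C₁ * T * (N2 X b).card) := mul_le_mul_of_nonneg_left h8 (by norm_num)
    _ = _ := by ring

/-- a neighbour with a small value of `gg` -/
lemma good_nb (C₄ δ L : ℝ) (n : ℕ) (hC₄ : 0 < C₄) (hδ : 0 < δ) (hL : 0 < L) (X : Finset ℕ) (hX : X ⊆ Icc 1 n) (a : ℕ) (ha : a ∈ X)
    (hw : ∑ b ∈ (Icc 1 n).filter (fun b => R a b), gg b ^ 16 ≤ C₄ * wt a * L) (hd : δ * L * wt a ≤ dg X a) :
    ∃ b ∈ X, R a b ∧ gg b ^ 16 ≤ C₄ / δ := by
  by_contra hcon
  push Not at hcon
  have hwt : 0 < wt a := by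
    have := hX ha
    rw [mem_Icc] at this
    exact lt_of_lt_of_le one_pos (wt_one_le this.1)
  have hpos : 0 < (dg X a : ℝ) := lt_of_lt_of_le (by positivity) hd
  have h1 : (C₄ / δ) * dg X a < ∑ b ∈ X.filter (fun b => R a b), gg b ^ 16 := by
    have hne : (X.filter (fun b => R a b)).Nonempty := by
      rw [← card_pos]
      exact_mod_cast hpos
    calc (C₄ / δ) * dg X a = ∑ b ∈ X.filter (fun b => R a b), (C₄ / δ) := by
          rw [sum_const, nsmul_eq_mul, mul_comm]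
          rfl
      _ < _ := by
          apply sum_lt_sum_of_nonempty hne
          intro b hb
          rw [mem_filter] at hb
          exact hcon b hb.1 hb.2
  have h2 : ∑ b ∈ X.filter (fun b => R a b), gg b ^ 16 ≤ ∑ b ∈ (Icc 1 n).filter (fun b => R a b), gg b ^ 16 := by
    apply sum_le_sum_of_subset_of_nonneg (filter_subset_filter _ hX)
    intro b _ _
    exact pow_nonneg (gg_pos b).le _
  have h3 : (C₄ / δ) * (δ * L * wt a) ≤ (C₄ / δ) * dg X a := mul_le_mul_of_nonneg_left hd (by positivity)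
  have h4 : (C₄ / δ) * (δ * L * wt a) = C₄ * wt a * L := by field_simp
  linarith

lemma low_all (hg : S_gold) (ht : S_twin) : ∃ δ : ℝ, 0 < δ ∧ ∀ U : ℕ, ∃ n₀ : ℕ, ∀ n : ℕ, n₀ ≤ n →
    (((Icc 1 n).filter (fun a => (dg (Icc 1 n) a : ℝ) < δ * wt a * LL n)).card : ℝ) ≤ 2 * (n / Real.log n ^ U) := by
  obtain ⟨δ₁, hδ₁, h1⟩ := hg
  obtain ⟨δ₂, hδ₂, h2⟩ := ht
  refine ⟨min δ₁ δ₂, lt_min hδ₁ hδ₂, fun U => ?_⟩
  obtain ⟨n₁, h1⟩ := h1 U
  obtain ⟨n₂, h2⟩ := h2 U
  refine ⟨n₁ + n₂ + 1, fun n hn => ?_⟩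
  have a1 := h1 n (by omega)
  have a2 := h2 n (by omega)
  have hLL : 0 ≤ LL n := by unfold LL; positivity
  have hsub : (Icc 1 n).filter (fun a => (dg (Icc 1 n) a : ℝ) < min δ₁ δ₂ * wt a * LL n) ⊆
      (Icc 1 n).filter (fun a => n < 2 * a ∧ (dg (Icc 1 n) a : ℝ) < δ₁ * wt a * LL n) ∪
      (Icc 1 n).filter (fun a => 2 * a ≤ n ∧ (dg (Icc 1 n) a : ℝ) < δ₂ * wt a * LL n) := by
    intro a ha
    rw [mem_filter] at ha
    have hwt : 0 ≤ wt a := zero_le_one.trans (wt_one_le (mem_Icc.1 ha.1).1)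
    rw [mem_union, mem_filter, mem_filter]
    rcases Nat.lt_or_ge n (2 * a) with h | h
    · left
      refine ⟨ha.1, h, ha.2.trans_le ?_⟩
      exact mul_le_mul_of_nonneg_right (mul_le_mul_of_nonneg_right (min_le_left _ _) hwt) hLL
    · right
      refine ⟨ha.1, h, ha.2.trans_le ?_⟩
      exact mul_le_mul_of_nonneg_right (mul_le_mul_of_nonneg_right (min_le_right _ _) hwt) hLL
  have h3 := (card_le_card hsub).trans (card_union_le _ _)
  have h4 : (((Icc 1 n).filter (fun a => (dg (Icc 1 n) a : ℝ) < min δ₁ δ₂ * wt a * LL n)).card : ℝ) ≤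
      ((((Icc 1 n).filter (fun a => n < 2 * a ∧ (dg (Icc 1 n) a : ℝ) < δ₁ * wt a * LL n)).card +
      ((Icc 1 n).filter (fun a => 2 * a ≤ n ∧ (dg (Icc 1 n) a : ℝ) < δ₂ * wt a * LL n)).card : ℕ) : ℝ) := by exact_mod_cast h3
  push_cast at h4
  linarith

/-- the main theorem for the halves of the vertices -/
theorem main (hm : S_mom) (hc : S_codeg) (hw : S_wsum) (hg : S_gold) (ht : S_twin) (hp : S_peel) :
    ∃ (c : ℝ) (K : ℕ), 0 < c ∧ 1 ≤ K ∧ ∀ U : ℕ, ∃ n₀ : ℕ, ∀ n : ℕ, n₀ ≤ n → ∃ X ⊆ Icc 1 n,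
      ((Icc 1 n \ X).card : ℝ) ≤ n / Real.log n ^ U ∧ (∀ a ∈ X, c * (n / Real.log n ^ 2) ≤ dg X a) ∧
      ∀ f : Fin K → ℕ, (∀ i, f i ∈ X) → Function.Injective f → ∃ i j, i ≠ j ∧
        ∃ b₁ ∈ X, ∃ b₂ ∈ X, ∃ b₃ ∈ X, ∃ b₄ ∈ X, ∃ b₅ ∈ X,
          R (f i) b₁ ∧ R b₁ b₂ ∧ R b₂ b₃ ∧ R b₃ b₄ ∧ R b₄ b₅ ∧ R b₅ (f j) := by
  classical
  obtain ⟨δ, hδ, hlow⟩ := low_all hg ht
  obtain ⟨C₄, hC₄, n₄, h4⟩ := hw
  obtain ⟨c, hc0, n₅, h5⟩ := growth hm hc (δ / 2) (C₄ / (δ / 2)) (by positivity) (by positivity)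
  obtain ⟨η, hη, n₆, h6⟩ := few_edges hm hc (δ / 4) (by positivity)
  obtain ⟨K, hK⟩ := exists_nat_gt (1 / c)
  refine ⟨δ / 2, K + 1, by positivity, by omega, fun U => ?_⟩
  obtain ⟨n₇, h7⟩ := hlow (U + 1)
  obtain ⟨n₈, hn₈, h8⟩ := LL_large 1
  -- log n is large
  have hlogt : Filter.Tendsto (fun n : ℕ => Real.log n) Filter.atTop Filter.atTop :=
    Real.tendsto_log_atTop.comp tendsto_natCast_atTop_atTop
  obtain ⟨n₉, h9⟩ := Filter.eventually_atTop.1 (hlogt.eventually_ge_atTop (4 + 8 / η))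
  obtain ⟨m₁, hm₁⟩ := exists_nat_ge (4 / η)
  refine ⟨n₄ + n₅ + n₆ + n₇ + n₈ + n₉ + m₁ + 3, fun n hn => ?_⟩
  have hnr : (0 : ℝ) < n := by exact_mod_cast (by omega : 0 < n)
  have hlog := h9 n (by omega)
  have hη8 : 0 < 8 / η := by positivity
  have hlog4 : 4 ≤ Real.log n := by linarith
  have hlog0 : 0 < Real.log n := by linarith
  have hlogη : 8 / η ≤ Real.log n := by linarith
  obtain ⟨hLL1, _⟩ := h8 n (by omega)
  have hL0 : 0 < LL n := by linarith
  obtain ⟨E, hE⟩ : ∃ E, E = (Icc 1 n).filter (fun a => (dg (Icc 1 n) a : ℝ) < δ * wt a * LL n) := ⟨_, rfl⟩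
  have hEcard := h7 n (by omega)
  rw [← hE] at hEcard
  have hpw : (n : ℝ) / Real.log n ^ (U + 1) ≤ n / Real.log n := by
    apply div_le_div_of_nonneg_left hnr.le hlog0
    calc Real.log n = Real.log n ^ 1 := (pow_one _).symm
      _ ≤ Real.log n ^ (U + 1) := pow_le_pow_right₀ (by linarith) (by omega)
  have hE1 : (E.card : ℝ) ≤ η * n / 4 := by
    refine hEcard.trans ?_
    have h10 : (n : ℝ) / Real.log n ≤ η * n / 8 := by
      rw [div_le_iff₀ hlog0]
      calc (n : ℝ) = η * n / 8 * (8 / η) := by field_simp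
        _ ≤ η * n / 8 * Real.log n := mul_le_mul_of_nonneg_left hlogη (by positivity)
    linarith
  obtain ⟨X, hX, hXc, hXd⟩ := hp (Icc 1 n) E wt (δ / 2 * LL n) (by positivity) (by rw [hE]; exact filter_subset _ _)
    (fun a ha => wt_one_le (mem_Icc.1 ha).1) (by
      intro a ha haE
      rw [hE, mem_filter, not_and, not_lt] at haE
      have := haE ha
      calc 2 * (δ / 2 * LL n) * wt a = δ * wt a * LL n := by ring
        _ ≤ _ := this) (by
      intro Y hY hYc
      have hne : Y.Nonempty := by rw [← card_pos]; omega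
      have hcY : (Y.card : ℝ) ≤ η * n := by
        rw [hYc]
        push_cast
        have : 1 ≤ η * n / 4 := by
          have h11 : (m₁ : ℝ) ≤ n := by exact_mod_cast (by omega : m₁ ≤ n)
          have h12 : 4 / η ≤ n := hm₁.trans h11
          rw [div_le_iff₀ hη] at h12
          linarith
        linarith
      have := h6 n (by omega) Y hY hne hcY
      calc ∑ a ∈ Y, (dg Y a : ℝ) < δ / 4 * LL n * Y.card := this
        _ = _ := by ring)
  have hdX : ∀ a ∈ X, δ / 2 * LL n * wt a ≤ dg X a := fun a ha => (hXd a ha).2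
  have hdX' : ∀ a ∈ X, δ / 2 * LL n ≤ dg X a := by
    intro a ha
    refine le_trans ?_ (hdX a ha)
    have := wt_one_le (mem_Icc.1 (hX ha)).1
    have h0 : 0 < δ / 2 * LL n := by positivity
    nlinarith
  refine ⟨X, hX, ?_, ?_, ?_⟩
  · have h10 : ((Icc 1 n \ X).card : ℝ) ≤ 2 * E.card := by exact_mod_cast hXc
    have h11 : 4 * ((n : ℝ) / Real.log n ^ (U + 1)) ≤ n / Real.log n ^ U := by
      rw [pow_succ, ← div_div]
      have h12 : 0 ≤ (n : ℝ) / Real.log n ^ U := by positivity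
      rw [mul_div_assoc', div_le_iff₀ hlog0]
      nlinarith
    linarith
  · intro a ha
    exact hdX' a ha
  · intro f hf hinj
    have hb : ∀ i, ∃ b ∈ X, R (f i) b ∧ gg b ^ 16 ≤ C₄ / (δ / 2) := by
      intro i
      exact good_nb C₄ (δ / 2) (LL n) n hC₄ (by positivity) hL0 X hX (f i) (hf i)
        (h4 n (by omega) (f i) (hX (hf i))) (hdX (f i) (hf i))
    choose b hbX hRb hbT using hb
    have hgr : ∀ i, c * n ≤ ((N2 X (b i)).card : ℝ) := fun i =>
      h5 n (by omega) X hX hdX' (b i) (hbX i) (hbT i)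
    -- two of the sets meet
    have hmeet : ∃ i j, i ≠ j ∧ ¬ Disjoint (N2 X (b i)) (N2 X (b j)) := by
      by_contra hcon
      push Not at hcon
      have h10 : (univ.biUnion (fun i => N2 X (b i))).card = ∑ i, (N2 X (b i)).card :=
        card_biUnion (fun i _ j _ hij => hcon i j hij)
      have h11 : (univ.biUnion (fun i => N2 X (b i))).card ≤ n := by
        have : univ.biUnion (fun i => N2 X (b i)) ⊆ Icc 1 n := by
          intro g hg
          rw [mem_biUnion] at hg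
          obtain ⟨i, _, hg⟩ := hg
          unfold N2 at hg
          exact hX (mem_filter.1 hg).1
        have := card_le_card this
        rw [Nat.card_Icc] at this
        omega
      have h12 : ((K + 1 : ℕ) : ℝ) * (c * n) ≤ n := by
        calc ((K + 1 : ℕ) : ℝ) * (c * n) = ∑ _i : Fin (K + 1), c * (n : ℝ) := by
              rw [sum_const, card_univ, Fintype.card_fin, nsmul_eq_mul]
          _ ≤ ∑ i : Fin (K + 1), ((N2 X (b i)).card : ℝ) := sum_le_sum fun i _ => hgr i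
          _ = (((univ.biUnion (fun i => N2 X (b i))).card : ℕ) : ℝ) := by rw [h10]; push_cast; rfl
          _ ≤ n := by exact_mod_cast h11
      have h13 : 1 < K * c := by
        rwa [div_lt_iff₀ hc0] at hK
      push_cast at h12
      nlinarith
    obtain ⟨i, j, hij, hnd⟩ := hmeet
    rw [not_disjoint_iff] at hnd
    obtain ⟨g, hg1, hg2⟩ := hnd
    unfold N2 at hg1 hg2
    rw [mem_filter] at hg1 hg2
    obtain ⟨hgX, m, hmX, r1, r2⟩ := hg1
    obtain ⟨_, m', hmX', r3, r4⟩ := hg2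
    exact ⟨i, j, hij, b i, hbX i, m, hmX, g, hgX, m', hmX', b j, hbX j, hRb i, r1, r2, R_symm1 r4, R_symm1 r3,
      R_symm1 (hRb j)⟩

end Pool.Agent.R521.GG
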