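import Pool.Agent.R521.GG.Stms

set_option autoImplicit false

/-!
# Project GG (helper521), second theorem: edges with one prime and one almost prime, all vertices

Definitions and the exact statements of the pieces.
-/

namespace Pool.Agent.R521.GG

open Finset

/-- `m` is odd and all prime factors of `m` are larger than `n ^ (1 / t)` -/
def Rgh (n t m : ℕ) : Prop := Odd m ∧ ∀ q : ℕ, q.Prime → q ∣ m → n < q ^ t

/-- `a + b` and `|a - b|` are odd without small prime factors -/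
def R2 (n t a b : ℕ) : Prop := Rgh n t (a + b) ∧ Rgh n t (Nat.dist a b)

open Classical in
/-- GG2-C: the codegree bound for rough numbers, sieve of dimension 4 -/
def S_codeg2 : Prop := ∀ t : ℕ, 1 ≤ t → ∃ C : ℝ, 0 < C ∧ ∃ n₀ : ℕ, ∀ n : ℕ, n₀ ≤ n → ∀ a ∈ Icc 1 n, ∀ c ∈ Icc 1 n, a ≠ c →
  (((Icc 1 n).filter (fun b => R2 n t a b ∧ R2 n t c b)).card : ℝ) ≤ C * (n / Real.log n ^ 4) * SS a c

open Classical in
/-- GG2-D: the weighted number of the neighbours for rough numbers, sieve of dimension 2 -/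
def S_wsum2 : Prop := ∀ t : ℕ, 1 ≤ t → ∃ C : ℝ, 0 < C ∧ ∃ n₀ : ℕ, ∀ n : ℕ, n₀ ≤ n → ∀ a ∈ Icc 1 n,
  ∑ b ∈ (Icc 1 n).filter (fun b => R2 n t a b), gg b ^ 16 ≤ C * wt a * LL n

/-- `|a - b|` is a prime and `a + b` has at most two prime factors -/
def CD (a b : ℕ) : Prop := (Nat.dist a b).Prime ∧ (a + b).primeFactorsList.length ≤ 2

/-- `a + b` is a prime and `|a - b|` has at most two prime factors -/
def CS (a b : ℕ) : Prop := (a + b).Prime ∧ (Nat.dist a b).primeFactorsList.length ≤ 2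

open Classical in
/-- GG2-F: every vertex has many neighbours, prime difference (Chen's theorem) -/
def S_chenD : Prop := ∃ t : ℕ, 1 ≤ t ∧ ∃ δ : ℝ, 0 < δ ∧ ∃ n₀ : ℕ, ∀ n : ℕ, n₀ ≤ n → ∀ a ∈ Icc 1 n,
  δ * wt a * LL n ≤ (((Icc 1 n).filter (fun b => R2 n t a b ∧ CD a b)).card : ℝ)

open Classical in
/-- GG2-G: every vertex has many neighbours, prime sum (Chen's theorem) -/
def S_chenS : Prop := ∃ t : ℕ, 1 ≤ t ∧ ∃ δ : ℝ, 0 < δ ∧ ∃ n₀ : ℕ, ∀ n : ℕ, n₀ ≤ n → ∀ a ∈ Icc 1 n,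
  δ * wt a * LL n ≤ (((Icc 1 n).filter (fun b => R2 n t a b ∧ CS a b)).card : ℝ)

/-- GG2-V: the sieve product -/
def S_prodV : Prop := ∃ c : ℝ, 0 < c ∧ ∀ X a : ℕ, 2 ≤ X → 1 ≤ a → a ≤ X →
  c * wt a / Real.log X ^ 2 ≤ ∏ q ∈ (Icc 1 X).filter Nat.Prime, (1 - ((if q ∣ 2 * a then 1 else 2 : ℕ) : ℝ) / q)

end Pool.Agent.R521.GG
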