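import Pool.Agent.R521.GG.H2
import Pool.Agent.R521.GG.Stms2

set_option autoImplicit false

/-!
# Graphs on `{1, ..., n}` in which every vertex has many neighbours: the general argument
-/

namespace Pool.Agent.R521.GG

open Finset

section
open Classical

variable (A : ℕ → ℕ → Prop)

/-- the neighbours of `a` in `{1, ..., n}` -/
noncomputable def nb (n a : ℕ) : Finset ℕ := (Icc 1 n).filter (fun b => A a b)

/-- the common neighbours -/
noncomputable def cn (n a c : ℕ) : Finset ℕ := (Icc 1 n).filter (fun b => A a b ∧ A c b)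

/-- `g` is at distance two from `b` -/
def At2 (n b g : ℕ) : Prop := ∃ m ∈ Icc 1 n, A b m ∧ A m g

/-- the vertices at distance two -/
noncomputable def M2 (n b : ℕ) : Finset ℕ := (Icc 1 n).filter (fun g => At2 A n b g)

lemma sum_nb (hs : ∀ a b, A a b → A b a) (n b : ℕ) :
    ∑ m ∈ nb A n b, ((nb A n m).card : ℝ) = ∑ g ∈ M2 A n b, ((cn A n b g).card : ℝ) := by
  have h1 : ∀ m, ((nb A n m).card : ℝ) = ∑ g ∈ Icc 1 n, if A m g then (1 : ℝ) else 0 := by
    intro b
    unfold nb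
    rw [card_filter]
    push_cast
    rfl
  have h2 : ∀ g, ((cn A n b g).card : ℝ) = ∑ m ∈ nb A n b, (if A m g then (1 : ℝ) else 0) := by
    intro g
    unfold cn nb
    rw [card_filter, sum_filter]
    push_cast
    apply sum_congr rfl
    intro m _
    by_cases h1 : A b m
    · by_cases h2 : A m g
      · simp [h1, h2, hs _ _ h2]
      · have h3 : ¬ A g m := fun h => h2 (hs _ _ h)
        simp [h1, h2, h3]
    · simp [h1]
  rw [sum_congr rfl (fun m _ => h1 m), sum_comm]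
  symm
  apply sum_subset_zero_on_sdiff
  · unfold M2
    exact filter_subset _ _
  · intro g hg
    rw [mem_sdiff] at hg
    apply sum_eq_zero
    intro m hm
    unfold nb at hm
    rw [mem_filter] at hm
    have : ¬ A m g := by
      intro h
      apply hg.2
      unfold M2
      rw [mem_filter]
      exact ⟨hg.1, m, hm.1, hm.2, h⟩
    simp [this]
  · intro g _
    exact h2 g

end

open Classical in
/-- the general theorem -/
theorem generic (hm : S_mom) (A Q : ℕ → ℕ → ℕ → Prop) (hs : ∀ n a b, A n a b → A n b a) (hAQ : ∀ n a b, A n a b → Q n a b)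
    (hcod : ∃ C : ℝ, 0 < C ∧ ∃ n₀ : ℕ, ∀ n : ℕ, n₀ ≤ n → ∀ a ∈ Icc 1 n, ∀ c ∈ Icc 1 n, a ≠ c →
      (((Icc 1 n).filter (fun b => Q n a b ∧ Q n c b)).card : ℝ) ≤ C * (n / Real.log n ^ 4) * SS a c)
    (hws : ∃ C : ℝ, 0 < C ∧ ∃ n₀ : ℕ, ∀ n : ℕ, n₀ ≤ n → ∀ a ∈ Icc 1 n,
      ∑ b ∈ (Icc 1 n).filter (fun b => Q n a b), gg b ^ 16 ≤ C * wt a * LL n)
    (hdeg : ∃ δ : ℝ, 0 < δ ∧ ∃ n₀ : ℕ, ∀ n : ℕ, n₀ ≤ n → ∀ a ∈ Icc 1 n,
      δ * wt a * LL n ≤ (((Icc 1 n).filter (fun b => A n a b)).card : ℝ)) :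
    ∃ K : ℕ, 1 ≤ K ∧ ∃ n₀ : ℕ, ∀ n : ℕ, n₀ ≤ n → ∀ f : Fin K → ℕ, (∀ i, f i ∈ Icc 1 n) → Function.Injective f →
      ∃ i j, i ≠ j ∧ ∃ b₁ ∈ Icc 1 n, ∃ b₂ ∈ Icc 1 n, ∃ b₃ ∈ Icc 1 n, ∃ b₄ ∈ Icc 1 n, ∃ b₅ ∈ Icc 1 n,
          A n (f i) b₁ ∧ A n b₁ b₂ ∧ A n b₂ b₃ ∧ A n b₃ b₄ ∧ A n b₄ b₅ ∧ A n b₅ (f j) := by
  obtain ⟨C₁, hC₁, n₁, h1⟩ := hcod
  obtain ⟨C₄, hC₄, n₄, h4⟩ := hws
  obtain ⟨δ, hδ, n₅, h5⟩ := hdeg
  obtain ⟨K, hK, h3⟩ := SS_sum hm 2
  obtain ⟨T₀, hT₀⟩ : ∃ T₀ : ℝ, T₀ = C₄ / δ := ⟨_, rfl⟩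
  have hT₀0 : 0 < T₀ := by rw [hT₀]; positivity
  obtain ⟨T, hT⟩ : ∃ T : ℝ, T = 4 * C₁ * K * T₀ / δ ^ 2 := ⟨_, rfl⟩
  have hT0 : 0 < T := by rw [hT]; positivity
  obtain ⟨n₂, hn₂, h2⟩ := LL_large (4 / δ ^ 2)
  obtain ⟨c, hcd⟩ : ∃ c : ℝ, c = δ ^ 2 / (2 * C₁ * T) := ⟨_, rfl⟩
  have hc0 : 0 < c := by rw [hcd]; positivity
  obtain ⟨M, hM⟩ := exists_nat_gt (1 / c)
  refine ⟨M + 1, by omega, n₁ + n₂ + n₄ + n₅, fun n hn f hf hinj => ?_⟩
  have hn2 : 2 ≤ n := by omega
  have hnr : (0 : ℝ) < n := by exact_mod_cast (by omega : 0 < n)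
  have hlog : 0 < Real.log n := Real.log_pos (by exact_mod_cast (by omega : 1 < n))
  obtain ⟨hLL, hLL2⟩ := h2 n (by omega)
  have hL0 : 0 < LL n := by
    have : 0 < 4 / δ ^ 2 := by positivity
    linarith
  have hLLd : LL n ^ 2 = n / Real.log n ^ 4 * n := by
    unfold LL
    rw [div_pow, ← pow_mul]
    ring
  have hdegw : ∀ a ∈ Icc 1 n, δ * wt a * LL n ≤ ((nb (A n) n a).card : ℝ) := fun a ha => h5 n (by omega) a ha
  have hdeg1 : ∀ a ∈ Icc 1 n, δ * LL n ≤ ((nb (A n) n a).card : ℝ) := by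
    intro a ha
    refine le_trans ?_ (hdegw a ha)
    have := wt_one_le (mem_Icc.1 ha).1
    have h0 : 0 < δ * LL n := by positivity
    nlinarith
  have hcn : ∀ a ∈ Icc 1 n, ∀ d ∈ Icc 1 n, a ≠ d → ((cn (A n) n a d).card : ℝ) ≤ C₁ * (n / Real.log n ^ 4) * SS a d := by
    intro a ha d hd hne
    refine le_trans ?_ (h1 n (by omega) a ha d hd hne)
    have hsub : cn (A n) n a d ⊆ (Icc 1 n).filter (fun b => Q n a b ∧ Q n d b) := by
      intro b hb
      unfold cn at hb
      rw [mem_filter] at hb ⊢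
      exact ⟨hb.1, hAQ _ _ _ hb.2.1, hAQ _ _ _ hb.2.2⟩
    exact_mod_cast card_le_card hsub
  -- growth
  have hgrow : ∀ b ∈ Icc 1 n, gg b ^ 16 ≤ T₀ → c * n ≤ ((M2 (A n) n b).card : ℝ) := by
    intro b hb hgb
    have hlow : (δ * LL n) * (δ * LL n) ≤ ∑ m ∈ nb (A n) n b, ((nb (A n) n m).card : ℝ) := by
      calc (δ * LL n) * (δ * LL n) ≤ ((nb (A n) n b).card : ℝ) * (δ * LL n) := mul_le_mul_of_nonneg_right (hdeg1 b hb) (by positivity)
        _ ≤ _ := by
          rw [← nsmul_eq_mul]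
          apply card_nsmul_le_sum
          intro m hm
          unfold nb at hm
          rw [mem_filter] at hm
          exact hdeg1 m hm.1
    rw [sum_nb (A n) (hs n)] at hlow
    have hup : ∑ g ∈ M2 (A n) n b, ((cn (A n) n b g).card : ℝ) ≤
        n + C₁ * (n / Real.log n ^ 4) * (T * (M2 (A n) n b).card + K * T₀ * n / T) := by
      have e1 : ∑ g ∈ M2 (A n) n b, ((cn (A n) n b g).card : ℝ) ≤ ((cn (A n) n b b).card : ℝ) +
          ∑ g ∈ (M2 (A n) n b).filter (fun g => g ≠ b), ((cn (A n) n b g).card : ℝ) := by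
        have hsub : M2 (A n) n b ⊆ insert b ((M2 (A n) n b).filter (fun g => g ≠ b)) := by
          intro g hg
          rw [mem_insert, mem_filter]
          by_cases h : g = b
          · exact Or.inl h
          · exact Or.inr ⟨hg, h⟩
        refine (sum_le_sum_of_subset_of_nonneg hsub fun _ _ _ => Nat.cast_nonneg _).trans ?_
        rw [sum_insert]
        rw [mem_filter]
        tauto
      have e2 : ((cn (A n) n b b).card : ℝ) ≤ n := by
        have : (cn (A n) n b b).card ≤ n := by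
          unfold cn
          refine (card_filter_le _ _).trans ?_
          rw [Nat.card_Icc]
          omega
        exact_mod_cast this
      have e3 : ∀ g ∈ (M2 (A n) n b).filter (fun g => g ≠ b), ((cn (A n) n b g).card : ℝ) ≤
          C₁ * (n / Real.log n ^ 4) * (T + SS b g ^ 2 / T) := by
        intro g hg
        rw [mem_filter] at hg
        have hgX : g ∈ Icc 1 n := by
          have := hg.1
          unfold M2 at this
          exact (mem_filter.1 this).1
        refine (hcn b hb g hgX (Ne.symm hg.2)).trans ?_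
        exact mul_le_mul_of_nonneg_left (thr2 T _ hT0 (zero_le_one.trans (SS_one_le b g))) (by positivity)
      have e4 : ∑ g ∈ (M2 (A n) n b).filter (fun g => g ≠ b), ((cn (A n) n b g).card : ℝ) ≤
          C₁ * (n / Real.log n ^ 4) * (T * (M2 (A n) n b).card + K * T₀ * n / T) := by
        calc ∑ g ∈ (M2 (A n) n b).filter (fun g => g ≠ b), ((cn (A n) n b g).card : ℝ)
            ≤ ∑ g ∈ (M2 (A n) n b).filter (fun g => g ≠ b), C₁ * (n / Real.log n ^ 4) * (T + SS b g ^ 2 / T) := sum_le_sum e3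
          _ = C₁ * (n / Real.log n ^ 4) * (((M2 (A n) n b).filter (fun g => g ≠ b)).card * T +
                (∑ g ∈ (M2 (A n) n b).filter (fun g => g ≠ b), SS b g ^ 2) / T) := by
              rw [← mul_sum, sum_add_distrib, sum_div, sum_const, nsmul_eq_mul]
          _ ≤ _ := by
              apply mul_le_mul_of_nonneg_left _ (by positivity)
              apply add_le_add
              · rw [mul_comm]
                apply mul_le_mul_of_nonneg_left _ hT0.le
                exact_mod_cast card_filter_le _ _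
              · apply div_le_div_of_nonneg_right _ hT0.le
                have hsub : (M2 (A n) n b).filter (fun g => g ≠ b) ⊆ (Icc 1 n).filter (fun g => g ≠ b) := by
                  apply filter_subset_filter
                  unfold M2
                  exact filter_subset _ _
                have hp : ∀ g, 0 ≤ SS b g ^ 2 := fun g => pow_nonneg (zero_le_one.trans (SS_one_le b g)) _
                refine (sum_le_sum_of_subset_of_nonneg hsub fun g _ _ => hp g).trans ?_
                refine (h3 n b hb).trans ?_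
                have : gg b ^ (8 * 2) ≤ T₀ := hgb
                apply mul_le_mul_of_nonneg_right _ hnr.le
                exact mul_le_mul_of_nonneg_left this hK.le
      linarith
    have h5 : (δ * LL n) ^ 2 ≤ n + C₁ * (n / Real.log n ^ 4) * (T * (M2 (A n) n b).card + K * T₀ * n / T) := by
      rw [sq]
      exact hlow.trans hup
    have s1 : (n : ℝ) ≤ (δ * LL n) ^ 2 / 4 := by
      rw [mul_pow]
      have : 4 / δ ^ 2 * n * (δ ^ 2 / 4) ≤ LL n ^ 2 * (δ ^ 2 / 4) := mul_le_mul_of_nonneg_right hLL2 (by positivity)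
      have e : 4 / δ ^ 2 * (n : ℝ) * (δ ^ 2 / 4) = n := by field_simp
      rw [e] at this
      linarith
    have s2 : C₁ * (n / Real.log n ^ 4) * (K * T₀ * n / T) = (δ * LL n) ^ 2 / 4 := by
      rw [mul_pow, hLLd, hT]
      field_simp
    have h6 : (δ * LL n) ^ 2 / 2 ≤ C₁ * (n / Real.log n ^ 4) * (T * (M2 (A n) n b).card) := by
      have : C₁ * (n / Real.log n ^ 4) * (T * (M2 (A n) n b).card + K * T₀ * n / T) =
        C₁ * (n / Real.log n ^ 4) * (T * (M2 (A n) n b).card) + C₁ * (n / Real.log n ^ 4) * (K * T₀ * n / T) := by ring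
      rw [this, s2] at h5
      linarith
    rw [mul_pow, hLLd] at h6
    have hq : 0 < (n : ℝ) / Real.log n ^ 4 := by positivity
    have h7 : (n / Real.log n ^ 4) * (δ ^ 2 * n / 2) ≤ (n / Real.log n ^ 4) * (C₁ * T * (M2 (A n) n b).card) := by
      calc (n / Real.log n ^ 4) * (δ ^ 2 * n / 2) = δ ^ 2 * (n / Real.log n ^ 4 * n) / 2 := by ring
        _ ≤ C₁ * (n / Real.log n ^ 4) * (T * (M2 (A n) n b).card) := h6
        _ = _ := by ring
    have h8 := le_of_mul_le_mul_left h7 hq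
    rw [hcd, div_mul_eq_mul_div, div_le_iff₀ (by positivity)]
    calc δ ^ 2 * (n : ℝ) = 2 * (δ ^ 2 * n / 2) := by ring
      _ ≤ 2 * (C₁ * T * (M2 (A n) n b).card) := mul_le_mul_of_nonneg_left h8 (by norm_num)
      _ = _ := by ring
  -- a good neighbour
  have hgood : ∀ a ∈ Icc 1 n, ∃ b ∈ Icc 1 n, A n a b ∧ gg b ^ 16 ≤ T₀ := by
    intro a ha
    by_contra hcon
    push Not at hcon
    have hwt : 0 < wt a := lt_of_lt_of_le one_pos (wt_one_le (mem_Icc.1 ha).1)
    have hd := hdegw a ha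
    have hpos : 0 < ((nb (A n) n a).card : ℝ) := lt_of_lt_of_le (by positivity) hd
    have h6 : T₀ * ((nb (A n) n a).card : ℝ) < ∑ b ∈ nb (A n) n a, gg b ^ 16 := by
      have hne : (nb (A n) n a).Nonempty := by
        rw [← card_pos]
        exact_mod_cast hpos
      calc T₀ * ((nb (A n) n a).card : ℝ) = ∑ b ∈ nb (A n) n a, T₀ := by
            rw [sum_const, nsmul_eq_mul, mul_comm]
        _ < _ := by
            apply sum_lt_sum_of_nonempty hne
            intro b hb
            unfold nb at hb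
            rw [mem_filter] at hb
            exact hcon b hb.1 hb.2
    have h7 : ∑ b ∈ nb (A n) n a, gg b ^ 16 ≤ ∑ b ∈ (Icc 1 n).filter (fun b => Q n a b), gg b ^ 16 := by
      unfold nb
      apply sum_le_sum_of_subset_of_nonneg
      · intro b hb
        rw [mem_filter] at hb ⊢
        exact ⟨hb.1, hAQ _ _ _ hb.2⟩
      · intro b _ _
        exact pow_nonneg (gg_pos b).le _
    have h8 := h4 n (by omega) a ha
    have h9 : T₀ * (δ * wt a * LL n) ≤ T₀ * ((nb (A n) n a).card : ℝ) := mul_le_mul_of_nonneg_left hd hT₀0.le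
    have h10 : T₀ * (δ * wt a * LL n) = C₄ * wt a * LL n := by
      rw [hT₀]
      field_simp
    linarith
  have hb : ∀ i, ∃ b ∈ Icc 1 n, A n (f i) b ∧ gg b ^ 16 ≤ T₀ := fun i => hgood (f i) (hf i)
  choose b hbX hRb hbT using hb
  have hgr : ∀ i, c * n ≤ ((M2 (A n) n (b i)).card : ℝ) := fun i => hgrow (b i) (hbX i) (hbT i)
  have hmeet : ∃ i j, i ≠ j ∧ ¬ Disjoint (M2 (A n) n (b i)) (M2 (A n) n (b j)) := by
    by_contra hcon
    push Not at hcon
    have h10 : (univ.biUnion (fun i => M2 (A n) n (b i))).card = ∑ i, (M2 (A n) n (b i)).card :=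
      card_biUnion (fun i _ j _ hij => hcon i j hij)
    have h11 : (univ.biUnion (fun i => M2 (A n) n (b i))).card ≤ n := by
      have : univ.biUnion (fun i => M2 (A n) n (b i)) ⊆ Icc 1 n := by
        intro g hg
        rw [mem_biUnion] at hg
        obtain ⟨i, _, hg⟩ := hg
        unfold M2 at hg
        exact (mem_filter.1 hg).1
      have := card_le_card this
      rw [Nat.card_Icc] at this
      omega
    have h12 : ((M + 1 : ℕ) : ℝ) * (c * n) ≤ n := by
      calc ((M + 1 : ℕ) : ℝ) * (c * n) = ∑ _i : Fin (M + 1), c * (n : ℝ) := by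
            rw [sum_const, card_univ, Fintype.card_fin, nsmul_eq_mul]
        _ ≤ ∑ i : Fin (M + 1), ((M2 (A n) n (b i)).card : ℝ) := sum_le_sum fun i _ => hgr i
        _ = (((univ.biUnion (fun i => M2 (A n) n (b i))).card : ℕ) : ℝ) := by rw [h10]; push_cast; rfl
        _ ≤ n := by exact_mod_cast h11
    have h13 : 1 < M * c := by
      rwa [div_lt_iff₀ hc0] at hM
    push_cast at h12
    nlinarith
  obtain ⟨i, j, hij, hnd⟩ := hmeet
  rw [not_disjoint_iff] at hnd
  obtain ⟨g, hg1, hg2⟩ := hnd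
  unfold M2 at hg1 hg2
  rw [mem_filter] at hg1 hg2
  obtain ⟨hgX, m, hmX, r1, r2⟩ := hg1
  obtain ⟨_, m', hmX', r3, r4⟩ := hg2
  exact ⟨i, j, hij, b i, hbX i, m, hmX, g, hgX, m', hmX', b j, hbX j, hRb i, r1, r2, hs _ _ _ r4, hs _ _ _ r3,
    hs _ _ _ (hRb j)⟩

end Pool.Agent.R521.GG
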