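import Pool.Agent.R521.GG.Stms
import Pool.Agent.Helper256.KM.Mertens

set_option autoImplicit false

namespace Pool.Agent.R521.GG

open Finset
open Pool.Agent.H373R2.T7 (pz Vz mem_pz)

theorem t_mert : S_mert := by
  obtain ⟨C, hC⟩ := Pool.Agent.Helper256.KM.mertens_inv
  refine ⟨max 1 (Real.exp C), by positivity, fun y hy2 => ?_⟩
  have hV0 : 0 ≤ Vz y := by
    unfold Vz
    apply prod_nonneg
    intro p hp
    have hp2 : (2 : ℝ) ≤ p := by exact_mod_cast (mem_pz.1 hp).2.two_le
    rw [sub_nonneg, div_le_one (by linarith)]; linarith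
  rcases Nat.lt_or_ge y 3 with h3 | hy
  · have h2 : y = 2 := by omega
    subst h2
    have hV1 : Vz 2 ≤ 1 := by
      unfold Vz
      apply prod_le_one
      · intro p hp
        have hp2 : (2 : ℝ) ≤ p := by exact_mod_cast (mem_pz.1 hp).2.two_le
        rw [sub_nonneg, div_le_one (by linarith)]; linarith
      · intro p hp
        have hp2 : (0 : ℝ) < p := by exact_mod_cast (mem_pz.1 hp).2.pos
        have : 0 < 1 / (p : ℝ) := by positivity
        linarith
    have hl : Real.log ((2 : ℕ) : ℝ) ≤ 1 := by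
      have := Real.log_two_lt_d9
      push_cast
      linarith
    have hl0 : 0 ≤ Real.log ((2 : ℕ) : ℝ) := Real.log_natCast_nonneg 2
    calc Vz 2 * Real.log ((2 : ℕ) : ℝ) ≤ 1 * 1 := mul_le_mul hV1 hl hl0 (by norm_num)
      _ ≤ _ := by rw [mul_one]; exact le_max_left _ _
  have hy3 : (3 : ℝ) ≤ y := by exact_mod_cast hy
  have hl : 0 < Real.log y := Real.log_pos (by linarith)
  have h1 : Vz y ≤ Real.exp (-∑ p ∈ pz y, 1 / (p : ℝ)) := by
    rw [← sum_neg_distrib, Real.exp_sum]
    unfold Vz
    apply prod_le_prod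
    · intro p hp
      have hp2 : (2 : ℝ) ≤ p := by exact_mod_cast (mem_pz.1 hp).2.two_le
      rw [sub_nonneg, div_le_one (by linarith)]; linarith
    · intro p _
      have := Real.add_one_le_exp (-(1 / (p : ℝ)))
      linarith
  have h2 := (abs_le.1 (hC y hy)).1
  have h3 : Real.exp (-∑ p ∈ pz y, 1 / (p : ℝ)) ≤ Real.exp (C - Real.log (Real.log y)) := by
    apply Real.exp_le_exp.2
    unfold pz
    linarith
  rw [Real.exp_sub, Real.exp_log hl] at h3
  have h4 := h1.trans h3
  calc Vz y * Real.log y ≤ (Real.exp C / Real.log y) * Real.log y := mul_le_mul_of_nonneg_right h4 hl.le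
    _ = Real.exp C := by field_simp
    _ ≤ _ := le_max_right _ _

end Pool.Agent.R521.GG
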