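import Pool.Agent.H373R2.T7.LamZ

set_option autoImplicit false

/-!
# Project GG (helper521): Goldbach graphs (MP_443e5f_co)

Definitions and the exact statements of the pieces. The vertex `2 a` of the graph is represented by `a`.
-/

namespace Pool.Agent.R521.GG

open Finset
open Pool.Agent.H373R2.T7 (pz Vz)

/-- adjacency of `2 a` and `2 b`: `a + b` and `|a - b|` are odd primes -/
def R (a b : ℕ) : Prop := ((a + b).Prime ∧ Odd (a + b)) ∧ ((Nat.dist a b).Prime ∧ Odd (Nat.dist a b))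

instance (a b : ℕ) : Decidable (R a b) := by
  unfold R
  infer_instance

/-- the number of the neighbours of `a` in `Y` -/
def dg (Y : Finset ℕ) (a : ℕ) : ℕ := (Y.filter (fun b => R a b)).card

/-- the number of the common neighbours of `a` and `c` in `Y` -/
def cd (Y : Finset ℕ) (a c : ℕ) : ℕ := (Y.filter (fun b => R a b ∧ R c b)).card

noncomputable def gg (h : ℕ) : ℝ := ∏ p ∈ h.primeFactors, (1 + 1 / (p : ℝ))

noncomputable def LL (n : ℕ) : ℝ := n / Real.log n ^ 2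

noncomputable def wt (a : ℕ) : ℝ := a / a.totient

noncomputable def SS (a c : ℕ) : ℝ := (gg a * gg c * gg (Nat.dist a c) * gg (a + c)) ^ 8

/-- GG-M (Mertens): upper bound of the product -/
def S_mert : Prop := ∃ C : ℝ, 0 < C ∧ ∀ y : ℕ, 2 ≤ y → Vz y * Real.log y ≤ C

/-- GG-E: moments of `gg` -/
def S_mom : Prop := ∀ k : ℕ, ∃ C : ℝ, 0 < C ∧ ∀ n : ℕ, ∑ m ∈ Icc 1 n, gg m ^ k ≤ C * n

/-- GG-C: the number of the common neighbours (sieve of dimension 4) -/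
def S_codeg : Prop := ∃ C : ℝ, 0 < C ∧ ∃ n₀ : ℕ, ∀ n : ℕ, n₀ ≤ n → ∀ a ∈ Icc 1 n, ∀ c ∈ Icc 1 n, a ≠ c →
  (cd (Icc 1 n) a c : ℝ) ≤ C * (n / Real.log n ^ 4) * SS a c

/-- GG-D: the weighted number of the neighbours (sieve of dimension 2) -/
def S_wsum : Prop := ∃ C : ℝ, 0 < C ∧ ∃ n₀ : ℕ, ∀ n : ℕ, n₀ ≤ n → ∀ a ∈ Icc 1 n,
  ∑ b ∈ (Icc 1 n).filter (fun b => R a b), gg b ^ 16 ≤ C * wt a * LL n

/-- GG-F: degrees from the Goldbach representations of `2 a`, for almost all `a > n / 2` -/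
def S_gold : Prop := ∃ δ : ℝ, 0 < δ ∧ ∀ U : ℕ, ∃ n₀ : ℕ, ∀ n : ℕ, n₀ ≤ n →
  (((Icc 1 n).filter (fun a => n < 2 * a ∧ (dg (Icc 1 n) a : ℝ) < δ * wt a * LL n)).card : ℝ) ≤ n / Real.log n ^ U

/-- GG-G: degrees from the pairs of primes with difference `2 a`, for almost all `a ≤ n / 2` -/
def S_twin : Prop := ∃ δ : ℝ, 0 < δ ∧ ∀ U : ℕ, ∃ n₀ : ℕ, ∀ n : ℕ, n₀ ≤ n →
  (((Icc 1 n).filter (fun a => 2 * a ≤ n ∧ (dg (Icc 1 n) a : ℝ) < δ * wt a * LL n)).card : ℝ) ≤ n / Real.log n ^ U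

/-- GG-A: the structure of a graph among any `K` vertices of which two have distance at most `r` -/
def S_graph : Prop := ∀ (V : Type) [Finite V] (G : SimpleGraph V) (K r : ℕ), 1 ≤ K →
  (∀ f : Fin K → V, Function.Injective f → ∃ i j, i ≠ j ∧ ∃ w : G.Walk (f i) (f j), w.length ≤ r) →
  Nat.card G.ConnectedComponent < K ∧ ∀ u v, G.Reachable u v → G.dist u v < (r + 1) * K

/-- GG-B: removing the vertices of small degree. `E` is the set of the exceptional vertices, `w` the weights. -/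
def S_peel : Prop := ∀ (V E : Finset ℕ) (w : ℕ → ℝ) (D : ℝ), 0 < D → E ⊆ V → (∀ a ∈ V, 1 ≤ w a) →
  (∀ a ∈ V, a ∉ E → 2 * D * w a ≤ dg V a) →
  (∀ Y ⊆ V, Y.card = 2 * E.card + 1 → ∑ a ∈ Y, (dg Y a : ℝ) < D / 2 * Y.card) →
  ∃ X ⊆ V, (V \ X).card ≤ 2 * E.card ∧ ∀ a ∈ X, a ∉ E ∧ D * w a ≤ dg X a

end Pool.Agent.R521.GG
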