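import Pool.Agent.R521.GG.Stms2
import Pool.Agent.R521.F6.B3

set_option autoImplicit false

/-!
# Project GG, piece GG2-V: the sieve product (helper138)
-/

namespace Pool.Agent.R521.GG

open Finset
open Pool.Agent.H373R2.T7 (pz Vz mem_pz Vz_pos)

/-- the factor of the twin prime constant -/
noncomputable def ePV (q : ℕ) : ℝ := if q ≤ 2 then 1 else 1 - 1 / ((q : ℝ) - 1) ^ 2

/-- the factor of `wt` -/
noncomputable def wPV (a q : ℕ) : ℝ := if q ∣ a then (1 - 1 / (q : ℝ))⁻¹ else 1

theorem ePV_prod (X : ℕ) (hX : 2 ≤ X) : (X : ℝ) / (2 * (X - 1)) ≤ ∏ q ∈ pz X, ePV q := by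
  induction X, hX using Nat.le_induction with
  | base =>
    have : pz 2 = {2} := by decide
    rw [this, prod_singleton]
    simp [ePV]
    norm_num
  | succ X hX ih =>
    have hX' : (2 : ℝ) ≤ X := by exact_mod_cast hX
    have hins : pz (X + 1) = if (X + 1).Prime then insert (X + 1) (pz X) else pz X := by
      unfold pz
      rw [← insert_Icc_right_eq_Icc_add_one (by omega), filter_insert]
    have hpos : 0 < (X : ℝ) / (2 * (X - 1)) := by
      apply div_pos (by linarith)
      linarith
    rw [hins]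
    push_cast
    split_ifs with hp
    · have hni : X + 1 ∉ pz X := by
        intro h
        have := (mem_pz.1 h).1
        omega
      rw [prod_insert hni]
      have he : ePV (X + 1) = 1 - 1 / (X : ℝ) ^ 2 := by
        unfold ePV
        rw [if_neg (by omega)]
        push_cast
        rw [add_sub_cancel_right]
      rw [he]
      have h1 : 0 ≤ 1 - 1 / (X : ℝ) ^ 2 := by
        rw [sub_nonneg, div_le_one (by positivity)]
        nlinarith
      calc ((X : ℝ) + 1) / (2 * (X + 1 - 1)) = (1 - 1 / (X : ℝ) ^ 2) * (X / (2 * (X - 1))) := by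
            have h2 : (X : ℝ) - 1 ≠ 0 := by linarith
            have h3 : (X : ℝ) ≠ 0 := by linarith
            have h4 : (X : ℝ) + 1 - 1 = X := by ring
            rw [h4]
            field_simp
            ring
        _ ≤ _ := mul_le_mul_of_nonneg_left ih h1
    · refine le_trans ?_ ih
      rw [div_le_div_iff₀ (by linarith) (by linarith)]
      nlinarith

theorem wPV_prod (X a : ℕ) (ha : 1 ≤ a) (haX : a ≤ X) : ∏ q ∈ pz X, wPV a q = wt a := by
  have h1 : ∏ q ∈ pz X, wPV a q = ∏ q ∈ a.primeFactors, (1 - 1 / (q : ℝ))⁻¹ := by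
    unfold wPV
    rw [← prod_filter]
    apply prod_congr _ (fun _ _ => rfl)
    ext q
    simp only [mem_filter, mem_pz, Nat.mem_primeFactors]
    constructor
    · rintro ⟨⟨h1, h2⟩, h3⟩
      exact ⟨h2, h3, by omega⟩
    · rintro ⟨h1, h2, h3⟩
      exact ⟨⟨(Nat.le_of_dvd (by omega) h2).trans haX, h1⟩, h2⟩
  rw [h1, prod_inv_distrib]
  have h2 : (a.totient : ℝ) = a * ∏ q ∈ a.primeFactors, (1 - 1 / (q : ℝ)) := by
    have := Nat.totient_eq_mul_prod_factors a
    have h3 := congrArg (fun x : ℚ => (x : ℝ)) this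
    push_cast at h3
    simpa [one_div] using h3
  unfold wt
  have h3 : (a : ℝ) ≠ 0 := by exact_mod_cast (by omega : a ≠ 0)
  rw [h2, ← div_div, div_self h3, one_div]

theorem t_prodV : S_prodV := by
  obtain ⟨C, hC1, hC⟩ := Pool.Agent.R521.F6.Vz_inv_log
  refine ⟨1 / (2 * C ^ 2), by positivity, fun X a hX ha haX => ?_⟩
  have hX' : (2 : ℝ) ≤ X := by exact_mod_cast hX
  have hl : 0 < Real.log X := Real.log_pos (by linarith)
  have hV := Vz_pos X
  have key : Vz X ^ 2 * (∏ q ∈ pz X, wPV a q) * ∏ q ∈ pz X, ePV q ≤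
      ∏ q ∈ (Icc 1 X).filter Nat.Prime, (1 - ((if q ∣ 2 * a then 1 else 2 : ℕ) : ℝ) / q) := by
    unfold Vz
    rw [← prod_pow, ← prod_mul_distrib, ← prod_mul_distrib]
    apply prod_le_prod
    · intro q hq
      have hq2 : (2 : ℝ) ≤ q := by exact_mod_cast (mem_pz.1 hq).2.two_le
      have h1 : 0 < 1 - 1 / (q : ℝ) := by
        rw [sub_pos, div_lt_one (by linarith)]
        linarith
      have h2 : 0 ≤ wPV a q := by
        unfold wPV
        split_ifs
        · exact (inv_pos.2 h1).le
        · norm_num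
      have h3 : 0 ≤ ePV q := by
        unfold ePV
        split_ifs with h
        · norm_num
        · have : (3 : ℝ) ≤ q := by exact_mod_cast (by omega : 3 ≤ q)
          rw [sub_nonneg, div_le_one (by nlinarith)]
          nlinarith
      positivity
    · intro q hq
      have hqp := (mem_pz.1 hq).2
      have hq2 : (2 : ℝ) ≤ q := by exact_mod_cast hqp.two_le
      have hq0 : (q : ℝ) ≠ 0 := by linarith
      have h1 : 0 < 1 - 1 / (q : ℝ) := by
        rw [sub_pos, div_lt_one (by linarith)]
        linarith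
      have h1' : 1 - 1 / (q : ℝ) ≠ 0 := h1.ne'
      unfold wPV ePV
      rcases Nat.lt_or_ge 2 q with h3 | h3
      · have hq3 : (3 : ℝ) ≤ q := by exact_mod_cast h3
        have hq1 : (q : ℝ) - 1 ≠ 0 := by linarith
        have h2a : q ∣ 2 * a ↔ q ∣ a := by
          constructor
          · intro h
            rcases hqp.dvd_mul.1 h with h | h
            · have := Nat.le_of_dvd (by norm_num) h
              omega
            · exact h
          · intro h
            exact h.mul_left _
        rw [if_neg (by omega : ¬ q ≤ 2)]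
        by_cases hd : q ∣ a
        · rw [if_pos hd, if_pos (h2a.2 hd)]
          have h5 : (1 - 1 / (q : ℝ)) ^ 2 * (1 - 1 / (q : ℝ))⁻¹ = 1 - 1 / (q : ℝ) := by
            rw [pow_two, mul_assoc, mul_inv_cancel₀ h1', mul_one]
          rw [h5, Nat.cast_one]
          have h6 : 0 ≤ 1 / ((q : ℝ) - 1) ^ 2 := by positivity
          nlinarith
        · rw [if_neg hd, if_neg (fun h => hd (h2a.1 h))]
          apply le_of_eq
          push_cast
          field_simp
          ring
      · have h2 : q = 2 := le_antisymm h3 hqp.two_le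
        subst h2
        rw [if_pos (by omega : 2 ≤ 2), if_pos (dvd_mul_right 2 a)]
        split_ifs <;> norm_num
  refine le_trans ?_ key
  rw [wPV_prod X a ha haX]
  have he : (1 : ℝ) / 2 ≤ ∏ q ∈ pz X, ePV q := by
    refine le_trans ?_ (ePV_prod X hX)
    rw [div_le_div_iff₀ (by norm_num) (by linarith)]
    linarith
  have hw : 0 ≤ wt a := by
    unfold wt
    positivity
  have hV2 : 1 / (C * Real.log X) ≤ Vz X := by
    have h1 := hC X hX
    rw [one_div]
    exact inv_le_of_inv_le₀ hV h1
  have hCl : 0 < C * Real.log X := by positivity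
  have hV3 : (1 / (C * Real.log X)) ^ 2 ≤ Vz X ^ 2 := by
    apply pow_le_pow_left₀ (by positivity) hV2
  calc 1 / (2 * C ^ 2) * wt a / Real.log X ^ 2 = (1 / (C * Real.log X)) ^ 2 * wt a * (1 / 2) := by
        field_simp
    _ ≤ Vz X ^ 2 * wt a * ∏ q ∈ pz X, ePV q := by
        apply mul_le_mul (mul_le_mul_of_nonneg_right hV3 hw) he (by norm_num)
        positivity

end Pool.Agent.R521.GG
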