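import Pool.Agent.R521.GG.Stms
import Pool.Agent.H373R2.T7.Fund

/-!
# Project GG: GG-D, the weighted number of the neighbours (sieve of dimension 2)
-/

set_option autoImplicit false

namespace Pool.Agent.R521.GG.WS

open Finset
open Pool.Agent.H373R2.T7 (pz Vz nuB PerB mem_pz)

/-- the conditions -/
def Qs (e a : ℕ) (p t : ℕ) : Prop :=
  3 ≤ p ∧ (((e : ZMod p) * (t : ZMod p) + a = 0) ∨ ((e : ZMod p) * (t : ZMod p) - a = 0))

lemma Qs_per (e a p n : ℕ) : Qs e a p n ↔ Qs e a p (n % p) := by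
  unfold Qs
  rw [ZMod.natCast_mod]

lemma nu_zero {e a p : ℕ} (h : p ∣ e) (ha : ¬ p ∣ a) : nuB (Qs e a) p = 0 := by
  classical
  unfold nuB
  rw [card_eq_zero, filter_eq_empty_iff]
  intro r _ hr
  have h1 : (e : ZMod p) = 0 := (ZMod.natCast_eq_zero_iff e p).2 h
  have h2 : (a : ZMod p) ≠ 0 := fun h => ha ((ZMod.natCast_eq_zero_iff a p).1 h)
  unfold Qs at hr
  rw [h1] at hr
  rcases hr.2 with h3 | h3
  · apply h2
    simpa using h3
  · apply h2
    simpa using h3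

lemma nu_two_le {e a p : ℕ} (hp : p.Prime) (h : ¬ p ∣ e) : nuB (Qs e a) p ≤ 2 := by
  classical
  have := Fact.mk hp
  unfold nuB
  have h1 : (e : ZMod p) ≠ 0 := fun h' => h ((ZMod.natCast_eq_zero_iff e p).1 h')
  refine (card_le_card (t := {(-(a : ZMod p) / e).val, ((a : ZMod p) / e).val}) ?_).trans
    (card_le_two)
  intro r hr
  rw [mem_filter, mem_range] at hr
  rw [mem_insert, mem_singleton]
  have h2 : (r : ZMod p).val = r := ZMod.val_cast_of_lt hr.1
  rcases hr.2.2 with h3 | h3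
  · left
    rw [← h2]
    congr 1
    rw [eq_div_iff h1]
    linear_combination h3
  · right
    rw [← h2]
    congr 1
    rw [eq_div_iff h1]
    linear_combination h3

lemma nu_few {e a p : ℕ} (hea : Nat.Coprime e a) (hp : p.Prime) : nuB (Qs e a) p ≤ 2 := by
  by_cases h : p ∣ e
  · have : ¬ p ∣ a := fun h' => hp.one_lt.ne' (Nat.dvd_one.1 (hea ▸ Nat.dvd_gcd h h'))
    rw [nu_zero h this]
    omega
  · exact nu_two_le hp h

lemma nu_one {e a p : ℕ} (hp : p.Prime) (h3 : 3 ≤ p) (h : ¬ p ∣ e) : 1 ≤ nuB (Qs e a) p := by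
  classical
  have := Fact.mk hp
  unfold nuB
  have h1 : (e : ZMod p) ≠ 0 := fun h' => h ((ZMod.natCast_eq_zero_iff e p).1 h')
  apply card_pos.2
  refine ⟨((a : ZMod p) / e).val, ?_⟩
  rw [mem_filter, mem_range]
  refine ⟨ZMod.val_lt _, h3, Or.inr ?_⟩
  rw [ZMod.natCast_val, ZMod.cast_id]
  field_simp
  ring

lemma nu_two {e a p : ℕ} (hp : p.Prime) (h3 : 3 ≤ p) (h : ¬ p ∣ e) (ha : ¬ p ∣ a) :
    2 ≤ nuB (Qs e a) p := by
  classical
  have := Fact.mk hp
  unfold nuB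
  have h1 : (e : ZMod p) ≠ 0 := fun h' => h ((ZMod.natCast_eq_zero_iff e p).1 h')
  have h2 : (a : ZMod p) ≠ 0 := fun h => ha ((ZMod.natCast_eq_zero_iff a p).1 h)
  have h4 : (2 : ZMod p) ≠ 0 := by
    intro h5
    have h6 : ((2 : ℕ) : ZMod p) = 0 := by exact_mod_cast h5
    rw [ZMod.natCast_eq_zero_iff] at h6
    have := Nat.le_of_dvd (by norm_num) h6
    omega
  have hne : (-(a : ZMod p) / e).val ≠ ((a : ZMod p) / e).val := by
    intro h5
    have h6 := ZMod.val_injective p h5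
    rw [div_left_inj' h1] at h6
    have h7 : (2 : ZMod p) * a = 0 := by linear_combination (-1 : ZMod p) * h6
    rcases mul_eq_zero.1 h7 with h8 | h8
    · exact h4 h8
    · exact h2 h8
  rw [← card_pair hne]
  apply card_le_card
  intro r hr
  rw [mem_insert, mem_singleton] at hr
  rw [mem_filter, mem_range]
  rcases hr with hr | hr
  · rw [hr]
    refine ⟨ZMod.val_lt _, h3, Or.inl ?_⟩
    rw [ZMod.natCast_val, ZMod.cast_id]
    field_simp
    ring
  · rw [hr]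
    refine ⟨ZMod.val_lt _, h3, Or.inr ?_⟩
    rw [ZMod.natCast_val, ZMod.cast_id]
    field_simp
    ring

/-- the local factor -/
lemma loc {e a p : ℕ} (hp : p.Prime) :
    1 - (nuB (Qs e a) p : ℝ) / p ≤ (1 - 1 / (p : ℝ)) ^ 2 *
      ((if p ∣ a then (1 - 1 / (p : ℝ))⁻¹ else 1) *
        ((if p ∣ e then 4 else 1) * (if p = 2 then 4 else 1))) := by
  have hp2 : (2 : ℝ) ≤ p := by exact_mod_cast hp.two_le
  have hp0 : (0 : ℝ) < p := by linarith
  have hq0 : 0 < 1 - 1 / (p : ℝ) := by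
    rw [sub_pos, div_lt_one hp0]
    linarith
  have hq1 : 1 - 1 / (p : ℝ) ≤ 1 := by
    have : (0 : ℝ) ≤ 1 / p := by positivity
    linarith
  have hq2 : 1 / 2 ≤ 1 - 1 / (p : ℝ) := by
    have : 1 / (p : ℝ) ≤ 1 / 2 := one_div_le_one_div_of_le (by norm_num) hp2
    linarith
  set q := 1 - 1 / (p : ℝ) with hq
  have hinv : 1 ≤ q⁻¹ := by
    rw [← one_div]
    exact one_le_one_div hq0 hq1
  have hl : 1 - (nuB (Qs e a) p : ℝ) / p ≤ 1 := by
    have : (0 : ℝ) ≤ (nuB (Qs e a) p : ℝ) / p := by positivity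
    linarith
  have hw : 1 ≤ (if p ∣ a then q⁻¹ else 1) := by split_ifs <;> linarith
  by_cases h2 : p = 2
  · rw [if_pos h2]
    have h4 : (1 : ℝ) ≤ if p ∣ e then 4 else 1 := by split_ifs <;> norm_num
    refine hl.trans ?_
    have h5 : 1 ≤ q ^ 2 * 4 := by nlinarith
    have h6 : 1 ≤ (if p ∣ a then q⁻¹ else 1) * (if p ∣ e then (4 : ℝ) else 1) :=
      one_le_mul_of_one_le_of_one_le hw h4
    calc (1 : ℝ) ≤ (q ^ 2 * 4) * ((if p ∣ a then q⁻¹ else 1) * (if p ∣ e then (4 : ℝ) else 1)) :=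
          one_le_mul_of_one_le_of_one_le h5 h6
      _ = _ := by ring
  · have h3 : 3 ≤ p := by
      have := hp.two_le
      omega
    rw [if_neg h2, mul_one]
    by_cases he : p ∣ e
    · rw [if_pos he]
      refine hl.trans ?_
      have h5 : 1 ≤ q ^ 2 * 4 := by nlinarith
      calc (1 : ℝ) ≤ (q ^ 2 * 4) * (if p ∣ a then q⁻¹ else 1) :=
            one_le_mul_of_one_le_of_one_le h5 hw
        _ = _ := by ring
    · rw [if_neg he, mul_one]
      by_cases ha : p ∣ a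
      · rw [if_pos ha]
        have h6 : (1 : ℝ) ≤ nuB (Qs e a) p := by exact_mod_cast nu_one hp h3 he
        have h7 : 1 / (p : ℝ) ≤ (nuB (Qs e a) p : ℝ) / p := div_le_div_of_nonneg_right h6 hp0.le
        have h8 : q ^ 2 * q⁻¹ = q := by field_simp
        rw [h8]
        linarith
      · rw [if_neg ha, mul_one]
        have h6 : (2 : ℝ) ≤ nuB (Qs e a) p := by exact_mod_cast nu_two hp h3 he ha
        have h7 : 2 / (p : ℝ) ≤ (nuB (Qs e a) p : ℝ) / p := div_le_div_of_nonneg_right h6 hp0.le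
        have h8 : q ^ 2 = 1 - 2 / p + (1 / p) ^ 2 := by
          rw [hq]
          ring
        have h9 : (0 : ℝ) ≤ (1 / p) ^ 2 := by positivity
        rw [h8]
        linarith

lemma wt_eq {a : ℕ} (ha : 1 ≤ a) : ∏ p ∈ a.primeFactors, (1 - 1 / (p : ℝ))⁻¹ = wt a := by
  have h1 := Nat.totient_eq_mul_prod_factors a
  have h2 : ((a.totient : ℕ) : ℝ) = a * ∏ p ∈ a.primeFactors, (1 - (p : ℝ)⁻¹) := by
    have h3 := congrArg (fun q : ℚ => (q : ℝ)) h1
    push_cast at h3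
    exact h3
  have ha0 : (a : ℝ) ≠ 0 := by exact_mod_cast (by omega : a ≠ 0)
  unfold wt
  have hP : ∏ p ∈ a.primeFactors, (1 - (p : ℝ)⁻¹) ≠ 0 := by
    intro h
    rw [h, mul_zero] at h2
    have h3 := Nat.totient_pos.2 (by omega : 0 < a)
    have : (a.totient : ℝ) ≠ 0 := by exact_mod_cast h3.ne'
    exact this h2
  rw [h2, Finset.prod_inv_distrib]
  simp only [one_div]
  field_simp

lemma one_le_wt {a : ℕ} (ha : 1 ≤ a) : 1 ≤ wt a := by
  unfold wt
  have h3 : (0 : ℝ) < a.totient := by exact_mod_cast Nat.totient_pos.2 (by omega : 0 < a)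
  rw [one_le_div h3]
  exact_mod_cast Nat.totient_le a

lemma prodloc {e a : ℕ} (he : 1 ≤ e) (ha : 1 ≤ a) (y : ℕ) :
    ∏ p ∈ pz y, (1 - (nuB (Qs e a) p : ℝ) / p) ≤ Vz y ^ 2 * (wt a * (4 ^ e.primeFactors.card * 4)) := by
  have hq : ∀ p ∈ pz y, 0 < 1 - 1 / (p : ℝ) ∧ 1 - 1 / (p : ℝ) ≤ 1 := by
    intro p hp
    have h2 : (2 : ℝ) ≤ p := by exact_mod_cast (mem_pz.1 hp).2.two_le
    constructor
    · rw [sub_pos, div_lt_one (by linarith)]
      linarith
    · have : (0 : ℝ) ≤ 1 / p := by positivity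
      linarith
  refine (prod_le_prod (fun p hp => ?_) fun p hp => loc (e := e) (a := a) (mem_pz.1 hp).2).trans ?_
  · have hp0 : (0 : ℝ) < p := by exact_mod_cast (mem_pz.1 hp).2.pos
    have h1 : (nuB (Qs e a) p : ℝ) / p ≤ 1 := by
      rw [div_le_one hp0]
      exact_mod_cast Pool.Agent.H373R2.T7.nuB_le (Qs e a) p
    linarith
  rw [prod_mul_distrib, prod_mul_distrib, prod_mul_distrib, prod_pow]
  have b1 : ∏ p ∈ pz y, (if p ∣ a then (1 - 1 / (p : ℝ))⁻¹ else 1) ≤ wt a := by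
    rw [← prod_filter, ← wt_eq ha]
    have hsub : (pz y).filter (fun p => p ∣ a) ⊆ a.primeFactors := by
      intro p hp
      rw [mem_filter, mem_pz] at hp
      exact Nat.mem_primeFactors.2 ⟨hp.1.2, hp.2, by omega⟩
    rw [← prod_sdiff hsub]
    have h0 : 0 ≤ ∏ p ∈ (pz y).filter (fun p => p ∣ a), (1 - 1 / (p : ℝ))⁻¹ := by
      refine prod_nonneg fun p hp => ?_
      rw [mem_filter] at hp
      have := (hq p hp.1).1
      positivity
    have h1 : 1 ≤ ∏ p ∈ a.primeFactors \ (pz y).filter (fun p => p ∣ a), (1 - 1 / (p : ℝ))⁻¹ := by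
      have h5 : ∏ _p ∈ a.primeFactors \ (pz y).filter (fun p => p ∣ a), (1 : ℝ) ≤
          ∏ p ∈ a.primeFactors \ (pz y).filter (fun p => p ∣ a), (1 - 1 / (p : ℝ))⁻¹ := by
        refine prod_le_prod (fun _ _ => zero_le_one) fun p hp => ?_
        rw [mem_sdiff] at hp
        have h2 : (2 : ℝ) ≤ p := by exact_mod_cast (Nat.prime_of_mem_primeFactors hp.1).two_le
        have h3 : 0 < 1 - 1 / (p : ℝ) := by
          rw [sub_pos, div_lt_one (by linarith)]
          linarith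
        have h4 : 1 - 1 / (p : ℝ) ≤ 1 := by
          have : (0 : ℝ) ≤ 1 / p := by positivity
          linarith
        rw [← one_div]
        exact one_le_one_div h3 h4
      simpa using h5
    exact le_mul_of_one_le_left h0 h1
  have b2 : ∏ p ∈ pz y, (if p ∣ e then (4 : ℝ) else 1) ≤ 4 ^ e.primeFactors.card := by
    rw [← prod_filter, prod_const]
    apply pow_le_pow_right₀ (by norm_num)
    apply card_le_card
    intro p hp
    rw [mem_filter, mem_pz] at hp
    exact Nat.mem_primeFactors.2 ⟨hp.1.2, hp.2, by omega⟩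
  have b3 : ∏ p ∈ pz y, (if p = 2 then (4 : ℝ) else 1) ≤ 4 := by
    rw [← prod_filter, prod_const]
    calc (4 : ℝ) ^ ((pz y).filter (fun p => p = 2)).card ≤ 4 ^ 1 := by
          apply pow_le_pow_right₀ (by norm_num)
          calc _ ≤ ({2} : Finset ℕ).card := by
                apply card_le_card
                intro p hp
                rw [mem_filter] at hp
                rw [mem_singleton]
                exact hp.2
            _ = 1 := card_singleton _
      _ = 4 := by norm_num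
  have n1 : 0 ≤ ∏ p ∈ pz y, (if p ∣ a then (1 - 1 / (p : ℝ))⁻¹ else 1) := by
    refine prod_nonneg fun p hp => ?_
    have := (hq p hp).1
    split_ifs <;> positivity
  have n2 : 0 ≤ ∏ p ∈ pz y, (if p ∣ e then (4 : ℝ) else 1) :=
    prod_nonneg fun p _ => by split_ifs <;> norm_num
  have n3 : 0 ≤ ∏ p ∈ pz y, (if p = 2 then (4 : ℝ) else 1) :=
    prod_nonneg fun p _ => by split_ifs <;> norm_num
  have w0 : 0 ≤ wt a := zero_le_one.trans (one_le_wt ha)
  have hV : (∏ p ∈ pz y, (1 - 1 / (p : ℝ))) ^ 2 = Vz y ^ 2 := rfl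
  rw [hV]
  refine mul_le_mul_of_nonneg_left ?_ (by positivity)
  exact mul_le_mul b1 (mul_le_mul b2 b3 n3 (by positivity)) (mul_nonneg n2 n3) w0

open Classical in
/-- from the neighbours to the sieve -/
lemma count_le {e a n y : ℕ} (he : 1 ≤ e) :
    ((Icc 1 n).filter (fun b => e ∣ b ∧ R a b)).card ≤
      ((Icc 1 (n / e)).filter (fun t => ∀ p ∈ pz y, ¬ Qs e a p t)).card + (3 * y + 2) := by
  have hsub : (Icc 1 n).filter (fun b => e ∣ b ∧ R a b) ⊆
      ((Icc 1 (n / e)).filter (fun t => ∀ p ∈ pz y, ¬ Qs e a p t)).image (fun t => e * t) ∪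
        (Icc 0 y ∪ Icc (a - y) (a + y)) := by
    intro b hb
    rw [mem_filter, mem_Icc] at hb
    obtain ⟨⟨hb1, hbn⟩, ⟨t, rfl⟩, hR⟩ := hb
    rw [mem_union, mem_union, mem_Icc, mem_Icc]
    by_cases h1 : e * t ≤ y
    · right; left
      exact ⟨Nat.zero_le _, h1⟩
    by_cases h2 : Nat.dist a (e * t) ≤ y
    · right; right
      unfold Nat.dist at h2
      omega
    left
    rw [mem_image]
    refine ⟨t, ?_, rfl⟩
    rw [mem_filter, mem_Icc]
    refine ⟨⟨?_, ?_⟩, ?_⟩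
    · rcases Nat.eq_zero_or_pos t with h | h
      · rw [h] at hb1
        omega
      · exact h
    · rw [Nat.le_div_iff_mul_le (by omega), mul_comm]
      exact hbn
    · intro p hp hQ
      obtain ⟨hpy, hpp⟩ := mem_pz.1 hp
      obtain ⟨⟨hP1, -⟩, hP2, -⟩ := hR
      rcases hQ.2 with h3 | h3
      · have h4 : p ∣ a + e * t := by
          rw [← ZMod.natCast_eq_zero_iff]
          push_cast
          linear_combination h3
        have h5 := (Nat.prime_dvd_prime_iff_eq hpp hP1).1 h4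
        omega
      · have h6 : ((e * t : ℕ) : ZMod p) = (a : ZMod p) := by
          push_cast
          linear_combination h3
        rw [ZMod.natCast_eq_natCast_iff] at h6
        have h4 : p ∣ Nat.dist a (e * t) := by
          unfold Nat.dist
          rcases Nat.le_total a (e * t) with h7 | h7
          · have h8 := (Nat.modEq_iff_dvd' h7).1 h6.symm
            have h9 : a - e * t + (e * t - a) = e * t - a := by omega
            rw [h9]
            exact h8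
          · have h8 := (Nat.modEq_iff_dvd' h7).1 h6
            have h9 : a - e * t + (e * t - a) = a - e * t := by omega
            rw [h9]
            exact h8
        have h5 := (Nat.prime_dvd_prime_iff_eq hpp hP2).1 h4
        omega
  refine (card_le_card hsub).trans ((card_union_le _ _).trans ?_)
  have c1 : (((Icc 1 (n / e)).filter (fun t => ∀ p ∈ pz y, ¬ Qs e a p t)).image
      (fun t => e * t)).card ≤
      ((Icc 1 (n / e)).filter (fun t => ∀ p ∈ pz y, ¬ Qs e a p t)).card := card_image_le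
  have c2 : (Icc 0 y ∪ Icc (a - y) (a + y)).card ≤ 3 * y + 2 := by
    refine (card_union_le _ _).trans ?_
    rw [Nat.card_Icc, Nat.card_Icc]
    omega
  exact add_le_add c1 c2

lemma not_cop {a n : ℕ} {S : Finset ℕ} (hS : ∀ p ∈ S, p.Prime) (ha : 1 ≤ a)
    (h : ¬ Nat.Coprime (∏ p ∈ S, p) a) :
    ((Icc 1 n).filter (fun b => (∏ p ∈ S, p) ∣ b ∧ R a b)).card = 0 := by
  rw [Nat.coprime_prod_left_iff] at h
  push Not at h
  obtain ⟨p, hp, hpa⟩ := h
  have hpp := hS p hp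
  have hd : p ∣ a := by
    by_contra h'
    exact hpa ((Nat.Prime.coprime_iff_not_dvd hpp).2 h')
  rw [card_eq_zero, filter_eq_empty_iff]
  rintro b hb ⟨h1, ⟨h2, -⟩, -⟩
  rw [mem_Icc] at hb
  have h3 : p ∣ b := (dvd_prod_of_mem _ hp).trans h1
  have h4 := (Nat.prime_dvd_prime_iff_eq hpp h2).1 (dvd_add hd h3)
  have h5 := Nat.le_of_dvd (by omega) hd
  omega

open Classical in
/-- the bound for one set `S` -/
lemma oneS {K x0 n y a : ℕ} (hfund : ∀ x y : ℕ, x0 ≤ y → y ^ K ≤ x →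
    ∀ Q : ℕ → ℕ → Prop, PerB Q 2 → ∀ X : ℕ,
      |((((Icc 1 X).filter (fun n : ℕ => ∀ p ∈ pz y, ¬ Q p n)).card : ℕ) : ℝ) -
      X * ∏ p ∈ pz y, (1 - (nuB Q p : ℝ) / p)| ≤
        1 * (X * ∏ p ∈ pz y, (1 - (nuB Q p : ℝ) / p)) + √(x : ℝ))
    (hy : x0 ≤ y) (hyK : y ^ K ≤ n) (ha : 1 ≤ a) {S : Finset ℕ} (hS : ∀ p ∈ S, p.Prime) :
    (((Icc 1 n).filter (fun b => (∏ p ∈ S, p) ∣ b ∧ R a b)).card : ℝ) ≤
      8 * n * Vz y ^ 2 * wt a * (4 ^ S.card / ((∏ p ∈ S, p : ℕ) : ℝ)) + (√(n : ℝ) + (3 * y + 2)) := by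
  have hw : 0 ≤ wt a := zero_le_one.trans (one_le_wt ha)
  have he : 1 ≤ ∏ p ∈ S, p := Nat.pos_of_ne_zero (prod_ne_zero_iff.2 fun p hp => (hS p hp).ne_zero)
  by_cases hc : Nat.Coprime (∏ p ∈ S, p) a
  · set e := ∏ p ∈ S, p with hedef
    have hcard : e.primeFactors.card = S.card := by rw [hedef, Nat.primeFactors_prod hS]
    have h1 := count_le (a := a) (n := n) (y := y) he
    have h2 := hfund n y hy hyK (Qs e a) ⟨fun p n => Qs_per e a p n, fun p hp => nu_few hc hp⟩ (n / e)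
    have h3 := prodloc (y := y) he ha
    rw [hcard] at h3
    have h4 := (abs_le.1 h2).2
    have he0 : (0 : ℝ) < e := by exact_mod_cast he
    have h5 : ((n / e : ℕ) : ℝ) ≤ n / e := Nat.cast_div_le
    have h6 : ((n / e : ℕ) : ℝ) * ∏ p ∈ pz y, (1 - (nuB (Qs e a) p : ℝ) / p) ≤
        n / e * (Vz y ^ 2 * (wt a * (4 ^ S.card * 4))) := by
      refine mul_le_mul h5 h3 ?_ (by positivity)
      refine prod_nonneg fun p hp => ?_
      have hp0 : (0 : ℝ) < p := by exact_mod_cast (mem_pz.1 hp).2.pos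
      have h1 : (nuB (Qs e a) p : ℝ) / p ≤ 1 := by
        rw [div_le_one hp0]
        exact_mod_cast Pool.Agent.H373R2.T7.nuB_le (Qs e a) p
      linarith
    have h7 : (((Icc 1 n).filter (fun b => e ∣ b ∧ R a b)).card : ℝ) ≤
        ((((Icc 1 (n / e)).filter (fun n : ℕ => ∀ p ∈ pz y, ¬ Qs e a p n)).card : ℕ) : ℝ) +
          (3 * y + 2) := by
      exact_mod_cast h1
    have h8 : 8 * n * Vz y ^ 2 * wt a * (4 ^ S.card / (e : ℝ)) =
        2 * (n / e * (Vz y ^ 2 * (wt a * (4 ^ S.card * 4)))) := by ring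
    rw [h8]
    linarith
  · rw [not_cop hS ha hc]
    push_cast
    positivity

lemma pow_le_lin (k : ℕ) {x : ℝ} (h0 : 0 ≤ x) (h1 : x ≤ 1) : (1 + x) ^ k ≤ 1 + (2 ^ k - 1) * x := by
  induction k with
  | zero => simp
  | succ k ih =>
    have h2 : (1 : ℝ) ≤ 2 ^ k := one_le_pow₀ (by norm_num)
    calc (1 + x) ^ (k + 1) = (1 + x) ^ k * (1 + x) := pow_succ _ _
      _ ≤ (1 + (2 ^ k - 1) * x) * (1 + x) := mul_le_mul_of_nonneg_right ih (by linarith)
      _ ≤ 1 + (2 ^ (k + 1) - 1) * x := by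
        have h3 : (2 ^ k - 1) * (x * x) ≤ (2 ^ k - 1) * x :=
          mul_le_mul_of_nonneg_left (by nlinarith) (by linarith)
        rw [pow_succ]
        nlinarith

/-- the weights -/
noncomputable def hh (p : ℕ) : ℝ := (1 + 1 / (p : ℝ)) ^ 16 - 1

lemma hh_nonneg (p : ℕ) : 0 ≤ hh p := by
  unfold hh
  have h1 : (1 : ℝ) ≤ (1 + 1 / (p : ℝ)) ^ 16 := one_le_pow₀ (by
    have : (0 : ℝ) ≤ 1 / p := by positivity
    linarith)
  linarith

lemma hh_le {p : ℕ} (hp : 1 ≤ p) : hh p ≤ 2 ^ 16 * (1 / (p : ℝ)) := by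
  unfold hh
  have hp1 : (1 : ℝ) ≤ p := by exact_mod_cast hp
  have h0 : (0 : ℝ) ≤ 1 / p := by positivity
  have h1 : 1 / (p : ℝ) ≤ 1 := by
    rw [div_le_one (by linarith)]
    exact hp1
  have := pow_le_lin 16 h0 h1
  nlinarith

lemma sumsq (n : ℕ) : ∑ p ∈ pz n, (1 / (p : ℝ)) ^ 2 ≤ 2 := by
  have h1 : ∑ p ∈ pz n, (1 / (p : ℝ)) ^ 2 ≤ ∑ m ∈ Icc 1 n, (1 / (m : ℝ)) ^ 2 :=
    sum_le_sum_of_subset_of_nonneg (filter_subset _ _) fun _ _ _ => by positivity
  have h2 : ∀ n : ℕ, ∑ m ∈ Icc 1 (n + 1), (1 / (m : ℝ)) ^ 2 ≤ 2 - 1 / ((n + 1 : ℕ) : ℝ) := by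
    intro n
    induction n with
    | zero => simp; norm_num
    | succ n ih =>
      rw [sum_Icc_succ_top (by omega)]
      have h3 : (0 : ℝ) < ((n + 1 : ℕ) : ℝ) := by positivity
      have h4 : ((n + 1 + 1 : ℕ) : ℝ) = ((n + 1 : ℕ) : ℝ) + 1 := by push_cast; ring
      rw [h4]
      set m := ((n + 1 : ℕ) : ℝ)
      have h5 : (1 / (m + 1)) ^ 2 ≤ 1 / m - 1 / (m + 1) := by
        have h6 : 1 / m - 1 / (m + 1) - (1 / (m + 1)) ^ 2 = 1 / (m * (m + 1) ^ 2) := by
          field_simp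
          ring
        have h7 : 0 ≤ 1 / (m * (m + 1) ^ 2) := by positivity
        linarith
      linarith
  refine h1.trans ?_
  rcases n with _ | n
  · simp
  · refine (h2 n).trans ?_
    have : (0 : ℝ) ≤ 1 / ((n + 1 : ℕ) : ℝ) := by positivity
    linarith

lemma prod1 (n : ℕ) : ∏ p ∈ pz n, (1 + 4 * hh p / p) ≤ Real.exp (2 ^ 19) := by
  have h1 : ∏ p ∈ pz n, (1 + 4 * hh p / p) ≤ Real.exp (∑ p ∈ pz n, 4 * hh p / p) :=
    Real.prod_one_add_le_exp_sum _ fun p => by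
      have := hh_nonneg p
      positivity
  refine h1.trans (Real.exp_le_exp.2 ?_)
  calc ∑ p ∈ pz n, 4 * hh p / p ≤ ∑ p ∈ pz n, 2 ^ 18 * (1 / (p : ℝ)) ^ 2 := by
        refine sum_le_sum fun p hp => ?_
        have hp1 := (mem_pz.1 hp).2.one_le
        have hp0 : (0 : ℝ) < p := by exact_mod_cast hp1
        have h2 := hh_le hp1
        rw [mul_div_assoc]
        have h3 : hh p / p ≤ 2 ^ 16 * (1 / (p : ℝ)) / p := div_le_div_of_nonneg_right h2 hp0.le
        calc 4 * (hh p / p) ≤ 4 * (2 ^ 16 * (1 / (p : ℝ)) / p) := by linarith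
          _ = _ := by ring
    _ = 2 ^ 18 * ∑ p ∈ pz n, (1 / (p : ℝ)) ^ 2 := by rw [mul_sum]
    _ ≤ 2 ^ 18 * 2 := mul_le_mul_of_nonneg_left (sumsq n) (by positivity)
    _ = 2 ^ 19 := by norm_num

lemma prod2 (n : ℕ) : ∏ p ∈ pz n, (1 + hh p) ≤ ((Vz n)⁻¹) ^ 16 := by
  have h1 : ∏ p ∈ pz n, (1 + hh p) = (∏ p ∈ pz n, (1 + 1 / (p : ℝ))) ^ 16 := by
    rw [← prod_pow]
    refine prod_congr rfl fun p _ => ?_
    unfold hh
    ring
  rw [h1]
  refine pow_le_pow_left₀ (prod_nonneg fun p _ => by positivity) ?_ 16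
  unfold Vz
  rw [← prod_inv_distrib]
  refine prod_le_prod (fun p _ => by positivity) fun p hp => ?_
  have h2 : (2 : ℝ) ≤ p := by exact_mod_cast (mem_pz.1 hp).2.two_le
  have h3 : 0 < 1 - 1 / (p : ℝ) := by
    rw [sub_pos, div_lt_one (by linarith)]
    linarith
  rw [← one_div, le_div_iff₀ h3]
  have : (0 : ℝ) ≤ (1 / p) ^ 2 := by positivity
  nlinarith

lemma gg_pow {n b : ℕ} (hb : b ∈ Icc 1 n) : gg b ^ 16 ≤
    ∑ S ∈ (pz n).powerset, if (∏ p ∈ S, p) ∣ b then ∏ p ∈ S, hh p else 0 := by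
  rw [mem_Icc] at hb
  have h1 : gg b ^ 16 = ∏ p ∈ b.primeFactors, (1 + hh p) := by
    unfold gg
    rw [← prod_pow]
    refine prod_congr rfl fun p _ => ?_
    unfold hh
    ring
  rw [h1, prod_one_add, ← sum_filter]
  refine sum_le_sum_of_subset_of_nonneg ?_ fun S _ _ => prod_nonneg fun p _ => hh_nonneg p
  intro S hS
  rw [mem_powerset] at hS
  rw [mem_filter, mem_powerset]
  constructor
  · intro p hp
    have h2 := Nat.mem_primeFactors.1 (hS hp)
    rw [mem_pz]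
    exact ⟨(Nat.le_of_dvd (by omega) h2.2.1).trans hb.2, h2.1⟩
  · exact (prod_dvd_prod_of_subset _ _ _ hS).trans (Nat.prod_primeFactors_dvd b)

/-- the sum over all sets -/
lemma total {n a : ℕ} {A B : ℝ} (hA : 0 ≤ A) (hB : 0 ≤ B)
    (h : ∀ S ∈ (pz n).powerset, (((Icc 1 n).filter (fun b => (∏ p ∈ S, p) ∣ b ∧ R a b)).card : ℝ) ≤
      A * (4 ^ S.card / ((∏ p ∈ S, p : ℕ) : ℝ)) + B) :
    ∑ b ∈ (Icc 1 n).filter (fun b => R a b), gg b ^ 16 ≤
      A * Real.exp (2 ^ 19) + B * ((Vz n)⁻¹) ^ 16 := by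
  calc ∑ b ∈ (Icc 1 n).filter (fun b => R a b), gg b ^ 16
      ≤ ∑ b ∈ (Icc 1 n).filter (fun b => R a b), ∑ S ∈ (pz n).powerset,
          (if (∏ p ∈ S, p) ∣ b then ∏ p ∈ S, hh p else 0) :=
        sum_le_sum fun b hb => gg_pow (mem_filter.1 hb).1
    _ = ∑ S ∈ (pz n).powerset, (∏ p ∈ S, hh p) *
          (((Icc 1 n).filter (fun b => (∏ p ∈ S, p) ∣ b ∧ R a b)).card : ℝ) := by
        rw [sum_comm]
        refine sum_congr rfl fun S _ => ?_
        rw [← sum_filter, sum_const, filter_filter, nsmul_eq_mul, mul_comm]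
        congr 3
        refine filter_congr fun b _ => ?_
        exact and_comm
    _ ≤ ∑ S ∈ (pz n).powerset, (A * ∏ p ∈ S, (4 * hh p / p) + B * ∏ p ∈ S, hh p) := by
        refine sum_le_sum fun S hS => ?_
        have h0 : 0 ≤ ∏ p ∈ S, hh p := prod_nonneg fun p _ => hh_nonneg p
        have h1 := mul_le_mul_of_nonneg_left (h S hS) h0
        refine h1.trans (le_of_eq ?_)
        rw [prod_div_distrib, prod_mul_distrib, prod_const]
        push_cast
        ring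
    _ = A * ∏ p ∈ pz n, (1 + 4 * hh p / p) + B * ∏ p ∈ pz n, (1 + hh p) := by
        rw [prod_one_add, prod_one_add, sum_add_distrib, mul_sum, mul_sum]
    _ ≤ _ := add_le_add (mul_le_mul_of_nonneg_left (prod1 n) hA)
        (mul_le_mul_of_nonneg_left (prod2 n) hB)

lemma exists_root {k : ℕ} (hk : 1 ≤ k) (n : ℕ) : ∃ y : ℕ, y ^ k ≤ n ∧ n < (y + 1) ^ k := by
  have hex : ∃ y : ℕ, n < (y + 1) ^ k :=
    ⟨n, (Nat.lt_succ_self n).trans_le (Nat.le_self_pow (by omega) _)⟩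
  classical
  refine ⟨Nat.find hex, ?_, Nat.find_spec hex⟩
  rcases Nat.eq_zero_or_pos (Nat.find hex) with h | h
  · rw [h, zero_pow (by omega)]
    exact Nat.zero_le _
  · have h1 := Nat.find_min hex (m := Nat.find hex - 1) (by omega)
    rw [Nat.sub_add_cancel h] at h1
    omega

end Pool.Agent.R521.GG.WS

namespace Pool.Agent.R521.GG

open Finset WS
open Pool.Agent.H373R2.T7 (pz Vz nuB PerB mem_pz)

open Classical in
/-- GG-D -/
theorem t_wsum (hm : S_mert) : S_wsum := by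
  obtain ⟨K, x0, hK1, hf⟩ := Pool.Agent.H373R2.T7.sys_fund 2 (by norm_num) 1 one_pos
  obtain ⟨C1, hC1, hmert⟩ := hm
  obtain ⟨C2, N2, hlow⟩ := Pool.Agent.H373R2.T7.Vz_low
  set k := max K 2 with hk
  have hk2 : 2 ≤ k := le_max_right _ _
  have hkK : K ≤ k := le_max_left _ _
  obtain ⟨n1, h1⟩ := Pool.Agent.H373R2.T7.ev_log' (16 * C2 + 2) 6
  obtain ⟨n2, h2⟩ := Pool.Agent.H373R2.T7.ev_L' 1
  set X := Real.exp (2 ^ 19) with hX
  have hX0 : 0 < X := Real.exp_pos _
  refine ⟨8 * (2 * k * C1) ^ 2 * X + 1, by positivity,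
    max (max n1 n2) (max (max N2 1) ((max x0 2) ^ k)), fun n hn a ha => ?_⟩
  have g1 : n1 ≤ n := le_trans (le_trans (le_max_left _ _) (le_max_left _ _)) hn
  have g2 : n2 ≤ n := le_trans (le_trans (le_max_right _ _) (le_max_left _ _)) hn
  have g3 : N2 ≤ n :=
    le_trans (le_trans (le_max_left _ _) (le_trans (le_max_left _ _) (le_max_right _ _))) hn
  have g4 : 1 ≤ n :=
    le_trans (le_trans (le_max_right _ _) (le_trans (le_max_left _ _) (le_max_right _ _))) hn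
  have g5 : (max x0 2) ^ k ≤ n := le_trans (le_trans (le_max_right _ _) (le_max_right _ _)) hn
  have e1 := h1 n g1
  have e2 := h2 n g2
  have e3 := hlow n g3
  have hn0 : (0 : ℝ) < n := by exact_mod_cast g4
  have hn1 : (1 : ℝ) ≤ n := by exact_mod_cast g4
  rw [mem_Icc] at ha
  have hw := one_le_wt ha.1
  obtain ⟨y, hy1, hy2⟩ := exists_root (by omega : 1 ≤ k) n
  have hym : max x0 2 ≤ y := by
    by_contra h
    push Not at h
    have h3 : (y + 1) ^ k ≤ (max x0 2) ^ k := Nat.pow_le_pow_left h k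
    omega
  have hyx : x0 ≤ y := le_trans (le_max_left _ _) hym
  have hy2' : 2 ≤ y := le_trans (le_max_right _ _) hym
  have hyK : y ^ K ≤ n := (Nat.pow_le_pow_right (by omega) hkK).trans hy1
  have hysq : y ^ 2 ≤ n := (Nat.pow_le_pow_right (by omega) hk2).trans hy1
  set L := Real.log n with hL
  have hL0 : 0 < L := by linarith
  -- logarithms
  have hlog : L ≤ 2 * k * Real.log y := by
    have h3 : n ≤ (y ^ 2) ^ k := by
      have h4 : y + 1 ≤ y ^ 2 := by nlinarith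
      exact hy2.le.trans (Nat.pow_le_pow_left h4 k)
    have h4 : (n : ℝ) ≤ ((y : ℝ) ^ 2) ^ k := by exact_mod_cast h3
    have h5 := Real.log_le_log hn0 h4
    rw [Real.log_pow, Real.log_pow] at h5
    push_cast at h5
    linarith
  have hV0 := Pool.Agent.H373R2.T7.Vz_pos y
  have hV : Vz y * L ≤ 2 * k * C1 := by
    have h3 := hmert y hy2'
    have h4 : Vz y * L ≤ Vz y * (2 * k * Real.log y) := mul_le_mul_of_nonneg_left hlog hV0.le
    have h5 : (0 : ℝ) ≤ 2 * k := by positivity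
    have h6 := mul_le_mul_of_nonneg_left h3 h5
    linarith
  have hV2 : Vz y ^ 2 ≤ (2 * k * C1) ^ 2 / L ^ 2 := by
    rw [le_div_iff₀ (by positivity), ← mul_pow]
    exact pow_le_pow_left₀ (by positivity) hV 2
  have hyr : (y : ℝ) ≤ √(n : ℝ) := by
    apply Real.le_sqrt_of_sq_le
    exact_mod_cast hysq
  have hs1 : 1 ≤ √(n : ℝ) := by
    rw [Real.one_le_sqrt]
    exact hn1
  have hB : √(n : ℝ) + (3 * y + 2) ≤ 6 * √(n : ℝ) := by linarith
  have hVn0 := Pool.Agent.H373R2.T7.Vz_pos n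
  have hVn : (Vz n)⁻¹ ≤ L ^ C2 := by
    rw [inv_le_comm₀ hVn0 (by positivity), ← one_div]
    exact e3
  have key := total (n := n) (a := a) (A := 8 * n * Vz y ^ 2 * wt a)
    (B := √(n : ℝ) + (3 * y + 2)) (by positivity) (by positivity) fun S hS => by
      have hSp : ∀ p ∈ S, p.Prime := fun p hp => (mem_pz.1 (mem_powerset.1 hS hp)).2
      exact oneS hf hyx hyK ha.1 hSp
  refine key.trans ?_
  have k1 : 8 * n * Vz y ^ 2 * wt a * X ≤ 8 * (2 * k * C1) ^ 2 * X * wt a * LL n := by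
    have h3 : 8 * n * wt a * X * Vz y ^ 2 ≤ 8 * n * wt a * X * ((2 * k * C1) ^ 2 / L ^ 2) :=
      mul_le_mul_of_nonneg_left hV2 (by positivity)
    have h4 : 8 * n * wt a * X * ((2 * k * C1) ^ 2 / L ^ 2) =
        8 * (2 * k * C1) ^ 2 * X * wt a * LL n := by
      unfold LL
      rw [← hL]
      ring
    calc 8 * n * Vz y ^ 2 * wt a * X = 8 * n * wt a * X * Vz y ^ 2 := by ring
      _ ≤ _ := h3
      _ = _ := h4
  have k2 : (√(n : ℝ) + (3 * y + 2)) * ((Vz n)⁻¹) ^ 16 ≤ wt a * LL n := by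
    have h3 : (√(n : ℝ) + (3 * y + 2)) * ((Vz n)⁻¹) ^ 16 ≤ 6 * √(n : ℝ) * (L ^ C2) ^ 16 := by
      refine mul_le_mul hB (pow_le_pow_left₀ (by positivity) hVn 16) (by positivity)
        (by positivity)
    have h4 : 6 * √(n : ℝ) * (L ^ C2) ^ 16 ≤ LL n := by
      unfold LL
      rw [← hL, le_div_iff₀ (by positivity)]
      calc 6 * √(n : ℝ) * (L ^ C2) ^ 16 * L ^ 2 = √(n : ℝ) * (6 * L ^ (16 * C2 + 2)) := by
            rw [← pow_mul, pow_add, mul_comm C2 16]
            ring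
        _ ≤ √(n : ℝ) * √(n : ℝ) := mul_le_mul_of_nonneg_left e1 (Real.sqrt_nonneg _)
        _ = n := Real.mul_self_sqrt hn0.le
    have h5 : 0 ≤ LL n := by
      unfold LL
      positivity
    have h6 : LL n ≤ wt a * LL n := le_mul_of_one_le_left h5 hw
    linarith
  have k3 : (8 * (2 * k * C1) ^ 2 * X + 1) * wt a * LL n =
      8 * (2 * k * C1) ^ 2 * X * wt a * LL n + wt a * LL n := by ring
  rw [k3]
  exact add_le_add k1 k2

end Pool.Agent.R521.GG
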