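import Pool.Agent.R521.GG.Stms
import Pool.Agent.R521.GG.D2

/-!
# GG-D: the weighted number of the neighbours (sieve of dimension 2) (helper699)
-/

set_option autoImplicit false

namespace Pool.Agent.R521.GG

open Finset
open Pool.Agent.H373R2.T7 (pz Vz mem_pz prod_dvd_iff nuB PerB nuB_le ev_log' sys_fund)

open MomP CodegP D2P in
open Classical in
theorem t_wsum (hm : S_mert) : S_wsum := by
  obtain ⟨CM, hCM, hmert⟩ := hm
  obtain ⟨K, x0, hK1, hF⟩ := sys_fund 2 (by norm_num) 1 one_pos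
  set K' : ℕ := max K 2 with hK'
  have hK't : 2 ≤ K' := le_max_right _ _
  have hKK' : K ≤ K' := le_max_left _ _
  obtain ⟨n1, hn1⟩ := ev_log' 18 (5 * 2 ^ 16)
  set C1 : ℝ := Real.exp (16 / Real.log 2) with hC1
  have hC1p : 0 < C1 := Real.exp_pos _
  set C2 : ℝ := Real.exp (4 * 2 ^ 16 * 2) with hC2
  have hC2p : 0 < C2 := Real.exp_pos _
  refine ⟨C1 * (2 * (4 ^ 3 * (2 * K' * CM) ^ 2 * C2) + 1), by positivity,
    max (max ((x0 + 3) ^ K') n1) 3, ?_⟩
  intro n hn a ha
  rw [mem_Icc] at ha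
  have hnx : (x0 + 3) ^ K' ≤ n := le_trans (le_trans (le_max_left _ _) (le_max_left _ _)) hn
  have hnn1 : n1 ≤ n := le_trans (le_trans (le_max_right _ _) (le_max_left _ _)) hn
  have hn3 : 3 ≤ n := le_trans (le_max_right _ _) hn
  obtain ⟨y, hy1, hy2⟩ := level n K' (by omega) (by omega)
  have hyx : x0 + 3 ≤ y := by
    by_contra h
    rw [not_le] at h
    have : (y + 1) ^ K' ≤ (x0 + 3) ^ K' := Nat.pow_le_pow_left (by omega) _
    omega
  have hyK : y ^ K ≤ n := (Nat.pow_le_pow_right (by omega) hKK').trans hy1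
  have hyt : y ^ 2 ≤ n := (Nat.pow_le_pow_right (by omega) hK't).trans hy1
  -- logs
  have hnr : (3 : ℝ) ≤ n := by exact_mod_cast hn3
  have hn0 : (0 : ℝ) < n := by linarith
  set L : ℝ := Real.log n with hL
  have hL0 : 0 < L := Real.log_pos (by linarith)
  have hL1 : 1 ≤ L := by
    rw [hL, Real.le_log_iff_exp_le hn0]
    have := Real.exp_one_lt_d9
    linarith
  have hyr : (3 : ℝ) ≤ y := by exact_mod_cast (by omega : 3 ≤ y)
  have hly0 : 0 < Real.log y := Real.log_pos (by linarith)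
  have hLy : L ≤ 2 * K' * Real.log y := by
    have h1 : (n : ℝ) ≤ ((y : ℝ) ^ 2) ^ K' := by
      have h2 : n ≤ (y ^ 2) ^ K' := hy2.le.trans (Nat.pow_le_pow_left (by nlinarith) _)
      exact_mod_cast h2
    have h3 := Real.log_le_log hn0 h1
    rw [Real.log_pow, Real.log_pow] at h3
    push_cast at h3
    linarith
  have hV0 : 0 ≤ Vz y := by
    unfold Vz
    apply Finset.prod_nonneg
    intro p hp
    have hp1 : (1 : ℝ) ≤ p := by exact_mod_cast (mem_pz.1 hp).2.one_le
    have : 1 / (p : ℝ) ≤ 1 := by rw [div_le_one (by linarith)]; exact hp1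
    linarith
  have hV : Vz y ≤ 2 * K' * CM / L := by
    have h1 := hmert y (by omega)
    rw [le_div_iff₀ hL0]
    calc Vz y * L ≤ Vz y * (2 * K' * Real.log y) := by gcongr
      _ = 2 * K' * (Vz y * Real.log y) := by ring
      _ ≤ 2 * K' * CM := by gcongr
  have hV2 : Vz y ^ 2 ≤ (2 * K' * CM) ^ 2 / L ^ 2 := by
    rw [← div_pow]
    exact pow_le_pow_left₀ hV0 hV 2
  have hw1 := one_le_wt a ha.1
  set z : ℕ := ⌊L⌋₊ with hz
  have hzL : (z : ℝ) ≤ L := Nat.floor_le hL0.le
  -- the count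
  have hcount : ∀ S ∈ (pz z).powerset,
      (((Icc 1 n).filter (fun b => R a b ∧ ∏ p ∈ S, p ∣ b)).card : ℝ) ≤
        2 * (4 ^ 3 * Vz y ^ 2 * wt a) * n * ∏ p ∈ S, (4 / (p : ℝ)) + 5 * √(n : ℝ) := by
    intro S hS
    rw [mem_powerset] at hS
    have hSp : ∀ p ∈ S, p.Prime := fun p hp => (mem_pz.1 (hS hp)).2
    set e : ℕ := ∏ p ∈ S, p with he
    have he0 : 0 < e := Finset.prod_pos (fun p hp => (hSp p hp).pos)
    have hprod0 : 0 ≤ ∏ p ∈ S, (4 / (p : ℝ)) := Finset.prod_nonneg (fun p _ => by positivity)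
    by_cases hc : ∃ p : ℕ, p.Prime ∧ p ∣ e ∧ p ∣ a
    · obtain ⟨p, hp, hpe, hpa⟩ := hc
      have hempty : (Icc 1 n).filter (fun b => R a b ∧ e ∣ b) = ∅ := by
        rw [Finset.filter_eq_empty_iff]
        rintro b hbI ⟨hR, hb⟩
        have h1 := (Nat.prime_dvd_prime_iff_eq hp hR.1.1).1 (Nat.dvd_add hpa (hpe.trans hb))
        have h2 := Nat.le_of_dvd (by omega) hpa
        rw [mem_Icc] at hbI
        omega
      rw [hempty, card_empty, Nat.cast_zero]
      positivity
    · have hc' : ∀ p : ℕ, p.Prime → p ∣ e → ¬ p ∣ a := fun p hp h1 h2 => hc ⟨p, hp, h1, h2⟩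
      have hcnt := hF n y (by omega) hyK (QD e a) (QD_perB e a hc') (n / e)
      set P : ℝ := ∏ p ∈ pz y, (1 - (nuB (QD e a) p : ℝ) / p) with hP
      have hPb := prod_bound a y ha.1 S hSp
      rw [← he, ← hP] at hPb
      have h1 : ((Icc 1 n).filter (fun b => e ∣ b ∧ ∀ p ∈ pz y, ¬ QD e a p (b / e))).card ≤
          ((Icc 1 (n / e)).filter (fun τ : ℕ => ∀ p ∈ pz y, ¬ QD e a p τ)).card := by
        apply Finset.card_le_card_of_injOn (fun b => b / e)
        · intro b hb
          rw [Finset.mem_coe, mem_filter, mem_Icc] at hb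
          obtain ⟨⟨hb1, hbn⟩, hd, hav⟩ := hb
          rw [Finset.mem_coe, mem_filter, mem_Icc]
          refine ⟨⟨?_, Nat.div_le_div_right hbn⟩, hav⟩
          exact Nat.div_pos (Nat.le_of_dvd (by omega) hd) he0
        · intro b hb b' hb' hbb
          rw [Finset.mem_coe, mem_filter] at hb hb'
          obtain ⟨τ, rfl⟩ := hb.2.1
          obtain ⟨τ', rfl⟩ := hb'.2.1
          simp only [Nat.mul_div_cancel_left τ he0, Nat.mul_div_cancel_left τ' he0] at hbb
          rw [hbb]
      have hsub : (Icc 1 n).filter (fun b => R a b ∧ e ∣ b) ⊆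
          (Icc 1 n).filter (fun b => e ∣ b ∧ ∀ p ∈ pz y, ¬ QD e a p (b / e)) ∪
            (Icc 1 y ∪ Icc (a - y) (a + y)) := by
        intro b hb
        rw [mem_filter, mem_Icc] at hb
        obtain ⟨⟨hb1, hbn⟩, hR, hd⟩ := hb
        rw [mem_union, mem_filter, mem_Icc]
        by_cases hq : ∀ p ∈ pz y, ¬ QD e a p (b / e)
        · left; exact ⟨⟨hb1, hbn⟩, hd, hq⟩
        · right
          push Not at hq
          obtain ⟨p, hp, _, h3⟩ := hq
          obtain ⟨hpy, hpp⟩ := mem_pz.1 hp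
          have hbe : (e : ℤ) * ((b / e : ℕ) : ℤ) = b := by exact_mod_cast Nat.mul_div_cancel' hd
          rw [hbe] at h3
          rw [mem_union, mem_Icc, mem_Icc]
          rcases h3 with h3 | h3
          · left
            have h4 : p ∣ a + b := by
              apply Int.natCast_dvd_natCast.1
              push_cast
              rw [add_comm]
              exact h3
            have := (Nat.prime_dvd_prime_iff_eq hpp hR.1.1).1 h4
            omega
          · right
            have h4 : p ∣ Nat.dist a b := by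
              rcases le_total a b with hac | hac
              · rw [Nat.dist_eq_sub_of_le hac]
                apply Int.natCast_dvd_natCast.1
                rw [Nat.cast_sub hac]
                exact h3
              · rw [Nat.dist_eq_sub_of_le_right hac]
                apply Int.natCast_dvd_natCast.1
                rw [Nat.cast_sub hac]
                have := (dvd_neg (α := ℤ)).2 h3
                rwa [neg_sub] at this
            have h5 := (Nat.prime_dvd_prime_iff_eq hpp hR.2.1).1 h4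
            rw [h5, Nat.dist] at hpy
            omega
      have h2 : (((Icc 1 n).filter (fun b => R a b ∧ e ∣ b)).card : ℝ) ≤
          ((((Icc 1 (n / e)).filter (fun τ : ℕ => ∀ p ∈ pz y, ¬ QD e a p τ)).card : ℕ) : ℝ) +
            (3 * y + 1) := by
        have g1 := card_le_card hsub
        have g2 := card_union_le ((Icc 1 n).filter (fun b => e ∣ b ∧ ∀ p ∈ pz y, ¬ QD e a p (b / e)))
          (Icc 1 y ∪ Icc (a - y) (a + y))
        have g3 := card_union_le (Icc 1 y) (Icc (a - y) (a + y))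
        have g5 : (Icc 1 y).card = y := by rw [Nat.card_Icc]; omega
        have g6 : (Icc (a - y) (a + y)).card ≤ 2 * y + 1 := by rw [Nat.card_Icc]; omega
        have g8 : ((Icc 1 n).filter (fun b => R a b ∧ e ∣ b)).card ≤
            ((Icc 1 (n / e)).filter (fun τ : ℕ => ∀ p ∈ pz y, ¬ QD e a p τ)).card + (3 * y + 1) := by
          omega
        exact_mod_cast g8
      have hye : (y : ℝ) ≤ √(n : ℝ) := by
        apply Real.le_sqrt_of_sq_le
        exact_mod_cast hyt
      have hs1 : 1 ≤ √(n : ℝ) := by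
        apply Real.le_sqrt_of_sq_le; linarith
      have h3 := (abs_le.1 hcnt).2
      have hP0 : 0 ≤ P := by
        apply Finset.prod_nonneg
        intro p hp
        have hp0 : (0 : ℝ) < p := by exact_mod_cast (mem_pz.1 hp).2.pos
        have : (nuB (QD e a) p : ℝ) / p ≤ 1 := by
          rw [div_le_one hp0]
          exact_mod_cast nuB_le _ _
        linarith
      have h4 : ((n / e : ℕ) : ℝ) ≤ n / e := Nat.cast_div_le
      have her : (0 : ℝ) < e := by exact_mod_cast he0
      have h5 : ((n / e : ℕ) : ℝ) * P ≤ (n / e) * (4 ^ 3 * Vz y ^ 2 * wt a * 4 ^ S.card) :=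
        mul_le_mul h4 hPb hP0 (by positivity)
      have h6 : (n / e) * (4 ^ 3 * Vz y ^ 2 * wt a * 4 ^ S.card) =
          (4 ^ 3 * Vz y ^ 2 * wt a) * n * ∏ p ∈ S, (4 / (p : ℝ)) := by
        rw [Finset.prod_div_distrib, Finset.prod_const, he, Nat.cast_prod]
        ring
      rw [h6] at h5
      linarith
  -- the sum
  have hstep1 : ∑ b ∈ (Icc 1 n).filter (fun b => R a b), gg b ^ 16 ≤
      C1 * ∑ b ∈ (Icc 1 n).filter (fun b => R a b),
        ∏ p ∈ pz z, (1 + if p ∣ b then hh 16 p else 0) := by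
    rw [Finset.mul_sum]
    apply Finset.sum_le_sum
    intro b hb
    rw [mem_filter, mem_Icc] at hb
    exact gg_le n b hb.1.1 hb.1.2 hn3
  have hstep2 : ∑ b ∈ (Icc 1 n).filter (fun b => R a b),
        ∏ p ∈ pz z, (1 + if p ∣ b then hh 16 p else 0) =
      ∑ S ∈ (pz z).powerset, (∏ p ∈ S, hh 16 p) *
        (((Icc 1 n).filter (fun b => R a b ∧ ∏ p ∈ S, p ∣ b)).card : ℝ) := by
    have h1 : ∀ b ∈ (Icc 1 n).filter (fun b => R a b),
        ∏ p ∈ pz z, (1 + if p ∣ b then hh 16 p else 0) =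
        ∑ S ∈ (pz z).powerset, ∏ p ∈ S, (if p ∣ b then hh 16 p else 0) := by
      intro b _
      rw [Finset.prod_one_add]
    rw [Finset.sum_congr rfl h1, Finset.sum_comm]
    apply Finset.sum_congr rfl
    intro S hS
    rw [mem_powerset] at hS
    have hSp : ∀ p ∈ S, p.Prime := fun p hp => (mem_pz.1 (hS hp)).2
    have h3 : ∀ b ∈ (Icc 1 n).filter (fun b => R a b),
        ∏ p ∈ S, (if p ∣ b then hh 16 p else 0) =
        if ∏ p ∈ S, p ∣ b then ∏ p ∈ S, hh 16 p else 0 := by
      intro b _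
      rw [Finset.prod_ite_zero]
      simp only [prod_dvd_iff S hSp b]
    rw [Finset.sum_congr rfl h3, ← Finset.sum_filter, Finset.sum_const, nsmul_eq_mul,
      Finset.filter_filter, mul_comm]
  have hstep3 : ∑ S ∈ (pz z).powerset, (∏ p ∈ S, hh 16 p) *
        (((Icc 1 n).filter (fun b => R a b ∧ ∏ p ∈ S, p ∣ b)).card : ℝ) ≤
      2 * (4 ^ 3 * Vz y ^ 2 * wt a) * n * C2 + (2 * L) ^ 16 * (5 * √(n : ℝ)) := by
    calc _ ≤ ∑ S ∈ (pz z).powerset, (∏ p ∈ S, hh 16 p) *
          (2 * (4 ^ 3 * Vz y ^ 2 * wt a) * n * ∏ p ∈ S, (4 / (p : ℝ)) + 5 * √(n : ℝ)) := by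
          apply Finset.sum_le_sum
          intro S hS
          apply mul_le_mul_of_nonneg_left (hcount S hS)
          exact Finset.prod_nonneg (fun p _ => hh_nonneg 16 p)
      _ = 2 * (4 ^ 3 * Vz y ^ 2 * wt a) * n * ∏ p ∈ pz z, (1 + 4 * hh 16 p / p) +
          (∏ p ∈ pz z, (1 + hh 16 p)) * (5 * √(n : ℝ)) := by
          rw [Finset.prod_one_add, Finset.prod_one_add, Finset.mul_sum, Finset.sum_mul,
            ← Finset.sum_add_distrib]
          apply Finset.sum_congr rfl
          intro S _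
          have e5 : ∏ p ∈ S, (4 * hh 16 p / (p : ℝ)) = (∏ p ∈ S, hh 16 p) * ∏ p ∈ S, (4 / (p : ℝ)) := by
            rw [← Finset.prod_mul_distrib]
            apply Finset.prod_congr rfl
            intro p _
            ring
          rw [e5]
          ring
      _ ≤ _ := by
          have h1 := prod_hh4 z
          have h2 : ∏ p ∈ pz z, (1 + hh 16 p) ≤ (2 * L) ^ 16 := by
            refine (prod_hh z).trans ?_
            apply pow_le_pow_left₀ (by positivity)
            linarith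
          gcongr
  -- the error
  have herr : (2 * L) ^ 16 * (5 * √(n : ℝ)) ≤ n / L ^ 2 := by
    have h1 := hn1 n hnn1
    rw [le_div_iff₀ (by positivity)]
    have h2 : √(n : ℝ) * √(n : ℝ) = n := Real.mul_self_sqrt hn0.le
    calc (2 * L) ^ 16 * (5 * √(n : ℝ)) * L ^ 2 = √(n : ℝ) * (5 * 2 ^ 16 * L ^ 18) := by ring
      _ ≤ √(n : ℝ) * √(n : ℝ) := by gcongr
      _ = n := h2
  have hLL : LL n = n / L ^ 2 := rfl
  have hnl : 0 ≤ (n : ℝ) / L ^ 2 := by positivity
  have hmain : 2 * (4 ^ 3 * Vz y ^ 2 * wt a) * n * C2 ≤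
      2 * (4 ^ 3 * (2 * K' * CM) ^ 2 * C2) * (wt a * (n / L ^ 2)) := by
    calc 2 * (4 ^ 3 * Vz y ^ 2 * wt a) * n * C2
        ≤ 2 * (4 ^ 3 * ((2 * K' * CM) ^ 2 / L ^ 2) * wt a) * n * C2 := by gcongr
      _ = _ := by ring
  calc ∑ b ∈ (Icc 1 n).filter (fun b => R a b), gg b ^ 16
      ≤ C1 * (2 * (4 ^ 3 * Vz y ^ 2 * wt a) * n * C2 + (2 * L) ^ 16 * (5 * √(n : ℝ))) := by
        refine hstep1.trans ?_
        rw [hstep2]
        gcongr
    _ ≤ C1 * (2 * (4 ^ 3 * (2 * K' * CM) ^ 2 * C2) * (wt a * (n / L ^ 2)) + wt a * (n / L ^ 2)) := by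
        have h7 : n / L ^ 2 ≤ wt a * (n / L ^ 2) := by nlinarith
        have h8 := herr.trans h7
        gcongr
    _ = C1 * (2 * (4 ^ 3 * (2 * K' * CM) ^ 2 * C2) + 1) * wt a * LL n := by
        rw [hLL]; ring

end Pool.Agent.R521.GG
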